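import Mathlib
set_option autoImplicit false
open MeasureTheory Set Filter Topology

namespace Pool.Agent.H308R3.A

/-- truncated power kernel `x_+^(q-1) / Γ(q)` -/
noncomputable def K (q x : ℝ) : ℝ := (max x 0) ^ (q - 1) / Real.Gamma q

lemma hasDerivAt_tp {p : ℝ} (hp : 1 < p) (x : ℝ) :
    HasDerivAt (fun x : ℝ => (max x 0) ^ p) (p * (max x 0) ^ (p - 1)) x := by
  have hpos : ∀ y : ℝ, 0 ≤ y → HasDerivAt (fun x : ℝ => x ^ p) (p * y ^ (p - 1)) y :=
    fun y _ => Real.hasDerivAt_rpow_const (Or.inr hp.le)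
  rcases lt_trichotomy x 0 with hx | hx | hx
  · have h1 : (fun x : ℝ => (max x 0) ^ p) =ᶠ[𝓝 x] fun _ => 0 := by
      filter_upwards [Iio_mem_nhds hx] with y hy
      rw [max_eq_right (le_of_lt hy), Real.zero_rpow (by linarith)]
    rw [max_eq_right hx.le, Real.zero_rpow (by linarith), mul_zero]
    exact (hasDerivAt_const x (0 : ℝ)).congr_of_eventuallyEq h1
  · subst hx
    have h1 : HasDerivWithinAt (fun x : ℝ => (max x 0) ^ p) 0 (Ici 0) 0 := by
      have := (hpos 0 le_rfl).hasDerivWithinAt (s := Ici 0)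
      rw [Real.zero_rpow (by linarith), mul_zero] at this
      refine this.congr (fun y hy => ?_) (by simp)
      rw [max_eq_left hy]
    have h2 : HasDerivWithinAt (fun x : ℝ => (max x 0) ^ p) 0 (Iic 0) 0 := by
      refine (hasDerivWithinAt_const (0 : ℝ) (Iic 0) (0 : ℝ)).congr (fun y hy => ?_) ?_
      · rw [max_eq_right hy, Real.zero_rpow (by linarith)]
      · simp [Real.zero_rpow (show p ≠ 0 by linarith)]
    have h3 := h1.union h2
    rw [Ici_union_Iic, hasDerivWithinAt_univ] at h3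
    simpa [Real.zero_rpow (show p - 1 ≠ 0 by linarith)] using h3
  · have h1 : (fun x : ℝ => (max x 0) ^ p) =ᶠ[𝓝 x] fun x => x ^ p := by
      filter_upwards [Ioi_mem_nhds hx] with y hy
      rw [max_eq_left (le_of_lt hy)]
    rw [max_eq_left hx.le]
    exact (hpos x hx.le).congr_of_eventuallyEq h1

lemma hasDerivAt_K {q : ℝ} (hq : 2 < q) (x : ℝ) : HasDerivAt (K q) (K (q - 1) x) x := by
  have h := (hasDerivAt_tp (p := q - 1) (by linarith) x).div_const (Real.Gamma q)
  refine HasDerivAt.congr_deriv h ?_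
  unfold K
  have h1 : Real.Gamma q = (q - 1) * Real.Gamma (q - 1) := by
    have := Real.Gamma_add_one (s := q - 1) (by linarith)
    rw [← this]; congr 1; ring
  have h2 : Real.Gamma (q - 1) ≠ 0 := (Real.Gamma_pos_of_pos (by linarith)).ne'
  have h3 : q - 1 ≠ 0 := by linarith
  rw [h1]
  field_simp

lemma continuous_K {q : ℝ} (hq : 1 < q) : Continuous (K q) := by
  unfold K
  refine Continuous.div_const ?_ _
  refine Continuous.rpow_const (by fun_prop) (fun x => Or.inr (by linarith))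

lemma Gamma_lower {M q : ℝ} (hM : 0 < M) (hq : 1 ≤ q) :
    M ^ (q - 1) * Real.exp (-M) ≤ Real.Gamma q := by
  rw [Real.Gamma_eq_integral (by linarith)]
  have h1 : IntegrableOn (fun x : ℝ => Real.exp (-x) * x ^ (q - 1)) (Ioi 0) :=
    Real.GammaIntegral_convergent (by linarith)
  have h2 : ∫ x in Ioi M, Real.exp (-x) * x ^ (q - 1) ≤
      ∫ x in Ioi (0 : ℝ), Real.exp (-x) * x ^ (q - 1) := by
    refine setIntegral_mono_set h1 ?_ ?_
    · filter_upwards [ae_restrict_mem measurableSet_Ioi] with x hx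
      have : (0 : ℝ) < x := hx
      positivity
    · exact (Ioi_subset_Ioi hM.le).eventuallyLE
  have h3 : ∫ x in Ioi M, M ^ (q - 1) * Real.exp (-x) ≤
      ∫ x in Ioi M, Real.exp (-x) * x ^ (q - 1) := by
    refine setIntegral_mono_on ?_ (h1.mono_set (Ioi_subset_Ioi hM.le)) measurableSet_Ioi ?_
    · exact (integrableOn_exp_neg_Ioi M).const_mul _
    · intro x hx
      rw [mul_comm]
      have hMx : M ≤ x := le_of_lt hx
      gcongr
  have h4 : ∫ x in Ioi M, M ^ (q - 1) * Real.exp (-x) = M ^ (q - 1) * Real.exp (-M) := by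
    rw [integral_const_mul, integral_exp_neg_Ioi]
  linarith

lemma K_nonneg {q : ℝ} (hq : 0 < q) (x : ℝ) : 0 ≤ K q x := by
  unfold K
  have := Real.Gamma_pos_of_pos hq
  have h0 : 0 ≤ max x 0 := le_max_right _ _
  positivity

lemma K_le {q T : ℝ} (hq : 1 ≤ q) (hT : 0 < T) {x : ℝ} (hx : x ≤ T) :
    K q x ≤ (1 / 8) ^ (q - 1) * Real.exp (8 * T) := by
  unfold K
  have hG := Gamma_lower (M := 8 * T) (by positivity) hq
  have hGp := Real.Gamma_pos_of_pos (show 0 < q by linarith)
  rw [div_le_iff₀ hGp]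
  have h1 : (max x 0) ^ (q - 1) ≤ T ^ (q - 1) := by
    apply Real.rpow_le_rpow (le_max_right _ _) _ (by linarith)
    exact max_le hx hT.le
  have h2 : T ^ (q - 1) = (1 / 8) ^ (q - 1) * (8 * T) ^ (q - 1) := by
    rw [← Real.mul_rpow (by norm_num) (by positivity)]
    congr 1; ring
  calc (max x 0) ^ (q - 1) ≤ T ^ (q - 1) := h1
    _ = (1 / 8) ^ (q - 1) * Real.exp (8 * T) * ((8 * T) ^ (q - 1) * Real.exp (-(8 * T))) := by
        rw [h2, Real.exp_neg]
        field_simp
    _ ≤ (1 / 8) ^ (q - 1) * Real.exp (8 * T) * Real.Gamma q := by gcongr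

/-- `n`-th term -/
noncomputable def Tn (n : ℕ) (q x : ℝ) : ℝ :=
  ∑ j ∈ Finset.range (n + 1), (-1 : ℝ) ^ j * (n.choose j : ℝ) * K q (x - j)

lemma hasDerivAt_Tn (n : ℕ) {q : ℝ} (hq : 2 < q) (x : ℝ) :
    HasDerivAt (Tn n q) (Tn n (q - 1) x) x := by
  unfold Tn
  apply HasDerivAt.fun_sum
  intro j _
  have h := (hasDerivAt_K hq (x - j)).comp x ((hasDerivAt_id x).sub_const (j : ℝ))
  simp only [mul_one] at h
  exact h.const_mul _

lemma continuous_Tn (n : ℕ) {q : ℝ} (hq : 1 < q) : Continuous (Tn n q) := by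
  unfold Tn
  refine continuous_finsetSum _ (fun j _ => ?_)
  exact continuous_const.mul ((continuous_K hq).comp (by fun_prop))

lemma Tn_le (n : ℕ) {q T : ℝ} (hq : 1 ≤ q) (hqn : (n : ℝ) - 2 ≤ q - 1) (hT : 0 < T) {x : ℝ} (hx : x ≤ T) :
    ‖Tn n q x‖ ≤ (1 / 4) ^ n * (64 * Real.exp (8 * T)) := by
  unfold Tn
  have h8 : ((1 : ℝ) / 8) ^ (q - 1) ≤ 64 * (1 / 8) ^ n := by
    calc ((1 : ℝ) / 8) ^ (q - 1) ≤ (1 / 8) ^ ((n : ℝ) - 2) :=
          Real.rpow_le_rpow_of_exponent_ge (by norm_num) (by norm_num) hqn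
      _ = 64 * (1 / 8) ^ n := by
          rw [Real.rpow_sub (by norm_num), Real.rpow_natCast]
          norm_num
          ring
  calc ‖∑ j ∈ Finset.range (n + 1), (-1 : ℝ) ^ j * (n.choose j : ℝ) * K q (x - j)‖
      ≤ ∑ j ∈ Finset.range (n + 1), ‖(-1 : ℝ) ^ j * (n.choose j : ℝ) * K q (x - j)‖ :=
        norm_sum_le _ _
    _ ≤ ∑ j ∈ Finset.range (n + 1), (n.choose j : ℝ) * (64 * (1 / 8) ^ n * Real.exp (8 * T)) := by
        refine Finset.sum_le_sum (fun j _ => ?_)
        rw [norm_mul, norm_mul, norm_pow, norm_neg, norm_one, one_pow, one_mul,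
          Real.norm_of_nonneg (Nat.cast_nonneg _), Real.norm_of_nonneg (K_nonneg (by linarith) _)]
        have hj : (0 : ℝ) ≤ j := Nat.cast_nonneg _
        have := K_le hq hT (x := x - j) (by linarith)
        gcongr
        exact this.trans (by gcongr)
    _ = (1 / 4) ^ n * (64 * Real.exp (8 * T)) := by
        rw [← Finset.sum_mul]
        have : ∑ j ∈ Finset.range (n + 1), (n.choose j : ℝ) = 2 ^ n := by
          exact_mod_cast Nat.sum_range_choose n
        rw [this]
        have h2 : ((1 : ℝ) / 4) ^ n = 2 ^ n * (1 / 8) ^ n := by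
          rw [← mul_pow]; norm_num
        rw [h2]; ring

/-- exponent of the `n`-th term -/
noncomputable def qn (n : ℕ) : ℝ := 7 / 4 * ((n : ℝ) + 1)

/-- the scale function of the process `stable(7/4) + jumps of size -1` -/
noncomputable def W (x : ℝ) : ℝ := ∑' n : ℕ, Tn n (qn n) x

/-- part of the scale function with `n ≥ 1` -/
noncomputable def S (d : ℝ) (x : ℝ) : ℝ := ∑' n : ℕ, Tn (n + 1) (qn (n + 1) - d) x

lemma qn_succ (n : ℕ) : qn (n + 1) = 7 / 4 * n + 7 / 2 := by
  unfold qn; push_cast; ring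

lemma u_summable (T : ℝ) : Summable (fun n : ℕ => ((1 : ℝ) / 4) ^ (n + 1) * (64 * Real.exp (8 * T))) := by
  refine Summable.mul_right _ ?_
  exact (summable_nat_add_iff 1).2 (summable_geometric_of_lt_one (by norm_num) (by norm_num))

lemma Tn_bound (n : ℕ) {d T : ℝ} (hd : d ≤ 2) (hT : 0 < T) {x : ℝ} (hx : x ≤ T) :
    ‖Tn (n + 1) (qn (n + 1) - d) x‖ ≤ (1 / 4) ^ (n + 1) * (64 * Real.exp (8 * T)) := by
  have hn : (0 : ℝ) ≤ n := Nat.cast_nonneg _
  refine Tn_le (n + 1) ?_ ?_ hT hx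
  · rw [qn_succ]; linarith
  · rw [qn_succ]; push_cast; linarith

lemma hasDerivAt_S {d : ℝ} (hd : d ≤ 1) (x : ℝ) : HasDerivAt (S d) (S (d + 1) x) x := by
  set T := |x| + 1 with hTd
  have hT : 0 < T := by positivity
  have hxT : x ∈ Iio T := by
    have := le_abs_self x
    simp only [mem_Iio]; linarith
  have key := hasDerivAt_tsum_of_isPreconnected (𝕜 := ℝ) (F := ℝ)
    (g := fun (n : ℕ) x => Tn (n + 1) (qn (n + 1) - d) x)
    (g' := fun (n : ℕ) x => Tn (n + 1) (qn (n + 1) - (d + 1)) x) (t := Iio T) (y₀ := x) (y := x)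
    (u_summable T) isOpen_Iio isPreconnected_Iio ?_ ?_ hxT ?_ hxT
  · exact key
  · intro n y _
    have hn : (0 : ℝ) ≤ n := Nat.cast_nonneg _
    have := hasDerivAt_Tn (n + 1) (q := qn (n + 1) - d) (by rw [qn_succ]; linarith) y
    have he : qn (n + 1) - d - 1 = qn (n + 1) - (d + 1) := by ring
    rw [he] at this
    exact this
  · intro n y hy
    exact Tn_bound n (by linarith) hT (le_of_lt hy)
  · refine Summable.of_norm_bounded (u_summable T) (fun n => ?_)
    exact Tn_bound n (by linarith) hT (le_of_lt hxT)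

lemma continuous_S {d : ℝ} (hd : d ≤ 2) : Continuous (S d) := by
  rw [continuous_iff_continuousAt]
  intro x
  set T := |x| + 1 with hTd
  have hT : 0 < T := by positivity
  have hxT : x ∈ Iio T := by
    have := le_abs_self x
    simp only [mem_Iio]; linarith
  have key : ContinuousOn (S d) (Iio T) := by
    refine continuousOn_tsum (fun n => ?_) (u_summable T) (fun n y hy => ?_)
    · have hn : (0 : ℝ) ≤ n := Nat.cast_nonneg _
      exact (continuous_Tn (n + 1) (by rw [qn_succ]; linarith)).continuousOn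
    · exact Tn_bound n hd hT (le_of_lt hy)
  exact key.continuousAt (Iio_mem_nhds hxT)

lemma contDiff_S : ContDiff ℝ 2 (S 0) := by
  have hd0 : deriv (S 0) = S 1 := by
    funext x
    have := (hasDerivAt_S (d := 0) (by norm_num) x).deriv
    rw [this]; norm_num
  have hd1 : deriv (S 1) = S 2 := by
    funext x
    have := (hasDerivAt_S (d := 1) (by norm_num) x).deriv
    rw [this]; norm_num
  have h2 : (2 : WithTop ℕ∞) = 1 + 1 := by norm_num
  rw [h2, contDiff_succ_iff_deriv]
  refine ⟨fun x => (hasDerivAt_S (by norm_num) x).differentiableAt, by simp, ?_⟩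
  rw [hd0, contDiff_one_iff_deriv]
  refine ⟨fun x => (hasDerivAt_S (by norm_num) x).differentiableAt, ?_⟩
  rw [hd1]
  exact continuous_S le_rfl

lemma W_eq (x : ℝ) : W x = K (7 / 4) x + S 0 x := by
  unfold W S
  have hs : Summable (fun n : ℕ => Tn n (qn n) x) := by
    rw [← summable_nat_add_iff 1]
    refine Summable.of_norm_bounded (u_summable (|x| + 1)) (fun n => ?_)
    have := Tn_bound n (d := 0) (T := |x| + 1) (by norm_num) (by positivity) (x := x)
      (by have := le_abs_self x; linarith)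
    simpa using this
  rw [hs.tsum_eq_zero_add]
  congr 1
  · unfold Tn qn; norm_num
  · simp

lemma contDiffOn_W : ContDiffOn ℝ 2 W (Ioi 0) := by
  have h1 : ContDiffOn ℝ 2 (fun x : ℝ => x ^ ((7 : ℝ) / 4 - 1) / Real.Gamma (7 / 4)) (Ioi 0) := by
    intro x hx
    have hx' : x ≠ 0 := ne_of_gt hx
    exact ((Real.contDiffAt_rpow_const_of_ne hx').div_const _).contDiffWithinAt
  refine (h1.add contDiff_S.contDiffOn).congr (fun x hx => ?_)
  rw [W_eq]
  unfold K
  rw [max_eq_left (le_of_lt hx)]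

end Pool.Agent.H308R3.A
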