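import Pool.Agent.H308R3.A1
set_option autoImplicit false
open MeasureTheory Set Filter Topology

namespace Pool.Agent.H308R3.A

/-- integrand of the Laplace transform of the shifted kernel -/
lemma integral_K_shift {q β : ℝ} (hq : 1 < q) (hβ : 0 < β) (j : ℕ) :
    ∫ x in Ioi (0 : ℝ), Real.exp (-β * x) * K q (x - j) = Real.exp (-(β * j)) * (1 / β) ^ q := by
  have hG := Real.Gamma_pos_of_pos (show 0 < q by linarith)
  have h0 : ∀ y : ℝ, y ≤ 0 → K q y = 0 := by
    intro y hy
    unfold K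
    rw [max_eq_right hy, Real.zero_rpow (by linarith), zero_div]
  have hj : (0 : ℝ) ≤ j := Nat.cast_nonneg _
  have h1 : ∫ x in Ioi (0 : ℝ), Real.exp (-β * x) * K q (x - j) =
      ∫ x : ℝ, Real.exp (-β * x) * K q (x - j) := by
    rw [← integral_indicator measurableSet_Ioi]
    congr 1
    funext x
    by_cases hx : x ∈ Ioi (0 : ℝ)
    · rw [indicator_of_mem hx]
    · rw [indicator_of_notMem hx]
      have : x ≤ 0 := not_lt.1 hx
      rw [h0 _ (by linarith), mul_zero]
  rw [h1]
  have h2 := integral_sub_right_eq_self (μ := volume)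
    (fun y : ℝ => Real.exp (-β * (y + j)) * K q y) (j : ℝ)
  have h3 : ∫ x : ℝ, Real.exp (-β * x) * K q (x - j) =
      ∫ y : ℝ, Real.exp (-β * (y + j)) * K q y := by
    rw [← h2]
    congr 1
    funext x
    rw [sub_add_cancel]
  rw [h3]
  have h4 : ∫ y : ℝ, Real.exp (-β * (y + j)) * K q y =
      ∫ y in Ioi (0 : ℝ), Real.exp (-(β * j)) * ((1 / Real.Gamma q) * (y ^ (q - 1) * Real.exp (-(β * y)))) := by
    rw [← integral_indicator measurableSet_Ioi]
    congr 1
    funext y
    by_cases hy : y ∈ Ioi (0 : ℝ)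
    · rw [indicator_of_mem hy]
      unfold K
      rw [max_eq_left (le_of_lt hy)]
      have : Real.exp (-β * (y + j)) = Real.exp (-(β * j)) * Real.exp (-(β * y)) := by
        rw [← Real.exp_add]; congr 1; ring
      rw [this]
      ring
    · rw [indicator_of_notMem hy, h0 _ (not_lt.1 hy), mul_zero]
  rw [h4, integral_const_mul, integral_const_mul,
    Real.integral_rpow_mul_exp_neg_mul_Ioi (by linarith) hβ]
  field_simp

lemma integrable_K_shift {q β : ℝ} (hq : 1 < q) (hβ : 0 < β) (j : ℕ) :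
    Integrable (fun x : ℝ => Real.exp (-β * x) * K q (x - j)) (volume.restrict (Ioi 0)) := by
  by_contra h
  have h1 := integral_undef h
  rw [integral_K_shift hq hβ j] at h1
  have h2 : 0 < Real.exp (-(β * j)) * (1 / β) ^ q := by positivity
  linarith

lemma integrable_Tn (n : ℕ) {q β : ℝ} (hq : 1 < q) (hβ : 0 < β) :
    Integrable (fun x : ℝ => Real.exp (-β * x) * Tn n q x) (volume.restrict (Ioi 0)) := by
  unfold Tn
  have h : (fun x : ℝ => Real.exp (-β * x) *
      ∑ j ∈ Finset.range (n + 1), (-1 : ℝ) ^ j * (n.choose j : ℝ) * K q (x - j)) =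
      fun x : ℝ => ∑ j ∈ Finset.range (n + 1), (-1 : ℝ) ^ j * (n.choose j : ℝ) *
        (Real.exp (-β * x) * K q (x - j)) := by
    funext x
    rw [Finset.mul_sum]
    refine Finset.sum_congr rfl (fun j _ => by ring)
  rw [h]
  exact integrable_finsetSum _ (fun j _ => (integrable_K_shift hq hβ j).const_mul _)

lemma integral_Tn (n : ℕ) {q β : ℝ} (hq : 1 < q) (hβ : 0 < β) :
    ∫ x in Ioi (0 : ℝ), Real.exp (-β * x) * Tn n q x = (1 - Real.exp (-β)) ^ n * (1 / β) ^ q := by
  unfold Tn
  have h : (fun x : ℝ => Real.exp (-β * x) *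
      ∑ j ∈ Finset.range (n + 1), (-1 : ℝ) ^ j * (n.choose j : ℝ) * K q (x - j)) =
      fun x : ℝ => ∑ j ∈ Finset.range (n + 1), (-1 : ℝ) ^ j * (n.choose j : ℝ) *
        (Real.exp (-β * x) * K q (x - j)) := by
    funext x
    rw [Finset.mul_sum]
    refine Finset.sum_congr rfl (fun j _ => by ring)
  rw [h, integral_finsetSum _ (fun j _ => (integrable_K_shift hq hβ j).const_mul _)]
  simp_rw [integral_const_mul, integral_K_shift hq hβ]
  have h2 : (1 - Real.exp (-β)) = (-Real.exp (-β)) + 1 := by ring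
  rw [h2, add_pow, Finset.sum_mul]
  refine Finset.sum_congr rfl (fun j _ => ?_)
  have h3 : Real.exp (-(β * j)) = Real.exp (-β) ^ j := by
    rw [← Real.exp_nat_mul]; congr 1; ring
  rw [h3, one_pow, neg_pow]
  ring

lemma integral_norm_Tn_le (n : ℕ) {q β : ℝ} (hq : 1 < q) (hβ : 0 < β) :
    ∫ x in Ioi (0 : ℝ), ‖Real.exp (-β * x) * Tn n q x‖ ≤ 2 ^ n * (1 / β) ^ q := by
  have h1 : ∫ x in Ioi (0 : ℝ), ‖Real.exp (-β * x) * Tn n q x‖ ≤
      ∫ x in Ioi (0 : ℝ), ∑ j ∈ Finset.range (n + 1), (n.choose j : ℝ) *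
        (Real.exp (-β * x) * K q (x - j)) := by
    refine integral_mono (integrable_Tn n hq hβ).norm
      (integrable_finsetSum _ (fun j _ => (integrable_K_shift hq hβ j).const_mul _)) (fun x => ?_)
    simp only
    unfold Tn
    rw [norm_mul, Real.norm_of_nonneg (Real.exp_pos _).le]
    calc Real.exp (-β * x) * ‖∑ j ∈ Finset.range (n + 1), (-1 : ℝ) ^ j * (n.choose j : ℝ) * K q (x - j)‖
        ≤ Real.exp (-β * x) * ∑ j ∈ Finset.range (n + 1), ‖(-1 : ℝ) ^ j * (n.choose j : ℝ) * K q (x - j)‖ := by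
          gcongr
          exact norm_sum_le _ _
      _ = _ := by
          rw [Finset.mul_sum]
          refine Finset.sum_congr rfl (fun j _ => ?_)
          rw [norm_mul, norm_mul, norm_pow, norm_neg, norm_one, one_pow, one_mul,
            Real.norm_of_nonneg (Nat.cast_nonneg _), Real.norm_of_nonneg (K_nonneg (by linarith) _)]
          ring
  refine h1.trans ?_
  rw [integral_finsetSum _ (fun j _ => (integrable_K_shift hq hβ j).const_mul _)]
  simp_rw [integral_const_mul, integral_K_shift hq hβ]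
  calc ∑ j ∈ Finset.range (n + 1), (n.choose j : ℝ) * (Real.exp (-(β * j)) * (1 / β) ^ q)
      ≤ ∑ j ∈ Finset.range (n + 1), (n.choose j : ℝ) * (1 * (1 / β) ^ q) := by
        refine Finset.sum_le_sum (fun j _ => ?_)
        have : Real.exp (-(β * j)) ≤ 1 := by
          rw [Real.exp_le_one_iff]
          have : (0 : ℝ) ≤ j := Nat.cast_nonneg _
          have := mul_nonneg hβ.le this
          linarith
        gcongr
    _ = 2 ^ n * (1 / β) ^ q := by
        rw [← Finset.sum_mul]
        have : ∑ j ∈ Finset.range (n + 1), (n.choose j : ℝ) = 2 ^ n := by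
          exact_mod_cast Nat.sum_range_choose n
        rw [this, one_mul]

lemma one_lt_qn (n : ℕ) : 1 < qn n := by
  unfold qn
  have : (0 : ℝ) ≤ n := Nat.cast_nonneg _
  linarith

lemma laplace_W {β : ℝ} (hβ : 2 < β) :
    IntegrableOn (fun x => Real.exp (-β * x) * W x) (Ioi 0) ∧
    (∫ x in Ioi (0 : ℝ), Real.exp (-β * x) * W x) =
      1 / (β ^ ((7 : ℝ) / 4) - 1 + Real.exp (-β)) := by
  have hβ0 : 0 < β := by linarith
  set b : ℝ := (1 / β) ^ ((7 : ℝ) / 4) with hb
  have hb0 : 0 < b := by positivity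
  have hb1 : b < 1 / 2 := by
    have h1 : b ≤ (1 / β) ^ (1 : ℝ) := by
      apply Real.rpow_le_rpow_of_exponent_ge (by positivity) _ (by norm_num)
      rw [div_le_one hβ0]; linarith
    rw [Real.rpow_one] at h1
    have h2 : 1 / β < 1 / 2 := by
      apply one_div_lt_one_div_of_lt (by norm_num) hβ
    linarith
  have hbq : ∀ n : ℕ, (1 / β) ^ (qn n) = b ^ (n + 1) := by
    intro n
    rw [hb, ← Real.rpow_natCast, ← Real.rpow_mul (by positivity)]
    unfold qn
    push_cast
    rfl
  have hsum : HasSum (fun n : ℕ => ∫ x in Ioi (0 : ℝ), Real.exp (-β * x) * Tn n (qn n) x)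
      (∫ x in Ioi (0 : ℝ), ∑' n : ℕ, Real.exp (-β * x) * Tn n (qn n) x) := by
    refine hasSum_integral_of_summable_integral_norm (fun n => integrable_Tn n (one_lt_qn n) hβ0) ?_
    refine Summable.of_nonneg_of_le (f := fun n : ℕ => (2 * b) ^ n * b) (fun n => ?_) (fun n => ?_) ?_
    · exact integral_nonneg (fun x => norm_nonneg _)
    · refine (integral_norm_Tn_le n (one_lt_qn n) hβ0).trans (le_of_eq ?_)
      rw [hbq n, mul_pow]; ring
    · exact (summable_geometric_of_lt_one (by positivity) (by linarith)).mul_right b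
  have hW : ∀ x, ∑' n : ℕ, Real.exp (-β * x) * Tn n (qn n) x = Real.exp (-β * x) * W x := by
    intro x
    rw [tsum_mul_left]; rfl
  simp_rw [hW] at hsum
  have hterm : ∀ n : ℕ, ∫ x in Ioi (0 : ℝ), Real.exp (-β * x) * Tn n (qn n) x =
      ((1 - Real.exp (-β)) * b) ^ n * b := by
    intro n
    rw [integral_Tn n (one_lt_qn n) hβ0, hbq n, mul_pow]; ring
  simp_rw [hterm] at hsum
  have hexp : 0 < Real.exp (-β) := Real.exp_pos _
  have hexp1 : Real.exp (-β) < 1 := by
    rw [Real.exp_lt_one_iff]; linarith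
  have hr : |(1 - Real.exp (-β)) * b| < 1 := by
    rw [abs_of_nonneg (by nlinarith)]
    nlinarith
  have hgeo := (hasSum_geometric_of_abs_lt_one hr).mul_right b
  have heq := hsum.unique hgeo
  have hbinv : b * β ^ ((7 : ℝ) / 4) = 1 := by
    rw [hb, ← Real.mul_rpow (by positivity) hβ0.le, one_div_mul_cancel hβ0.ne', Real.one_rpow]
  have hval : (1 - (1 - Real.exp (-β)) * b)⁻¹ * b = 1 / (β ^ ((7 : ℝ) / 4) - 1 + Real.exp (-β)) := by
    have h1 : 1 - (1 - Real.exp (-β)) * b = b * (β ^ ((7 : ℝ) / 4) - 1 + Real.exp (-β)) := by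
      calc 1 - (1 - Real.exp (-β)) * b = b * β ^ ((7 : ℝ) / 4) - (1 - Real.exp (-β)) * b := by
            rw [hbinv]
        _ = _ := by ring
    rw [h1, mul_inv]
    field_simp
  rw [hval] at heq
  refine ⟨?_, heq⟩
  by_contra h
  have h1 := integral_undef h
  rw [heq] at h1
  have h2 : 0 < β ^ ((7 : ℝ) / 4) - 1 + Real.exp (-β) := by
    have h3 : (1 : ℝ) < β ^ ((7 : ℝ) / 4) := Real.one_lt_rpow (by linarith) (by norm_num)
    linarith
  have h3 : 0 < 1 / (β ^ ((7 : ℝ) / 4) - 1 + Real.exp (-β)) := by positivity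
  linarith

end Pool.Agent.H308R3.A
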