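import Mathlib
set_option autoImplicit false
open MeasureTheory Set Filter Topology

namespace Pool.Agent.H308R3.A

/-- constant of the stable Levy measure -/
noncomputable def cst : ℝ := (21 / 16) / Real.Gamma (1 / 4)

lemma cst_pos : 0 < cst := by
  unfold cst
  have := Real.Gamma_pos_of_pos (show (0 : ℝ) < 1 / 4 by norm_num)
  positivity

/-- the jump measure of sizes for the stable part -/
noncomputable def ms : Measure ℝ :=
  (volume.restrict (Ioi 0)).withDensity (fun y => ENNReal.ofReal (cst * y ^ (-(11 / 4) : ℝ)))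

/-- Levy measure: stable part of index `7/4` and an atom at `-1` -/
noncomputable def nu : Measure ℝ := Measure.map Neg.neg ms + Measure.dirac (-1)

lemma meas_dens : Measurable (fun y : ℝ => ENNReal.ofReal (cst * y ^ (-(11 / 4) : ℝ))) := by
  fun_prop

lemma integral_ms (g : ℝ → ℝ) :
    ∫ y, g y ∂ms = ∫ y in Ioi (0 : ℝ), cst * y ^ (-(11 / 4) : ℝ) * g y := by
  unfold ms
  rw [integral_withDensity_eq_integral_toReal_smul meas_dens (by simp)]
  refine setIntegral_congr_fun measurableSet_Ioi (fun y hy => ?_)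
  have hy0 : (0 : ℝ) < y := hy
  have hc := cst_pos
  simp only [smul_eq_mul]
  rw [ENNReal.toReal_ofReal (by positivity)]

lemma integrable_ms {g : ℝ → ℝ}
    (h : IntegrableOn (fun y => cst * y ^ (-(11 / 4) : ℝ) * g y) (Ioi 0)) : Integrable g ms := by
  unfold ms
  rw [integrable_withDensity_iff_integrable_smul' meas_dens (by simp)]
  refine (integrableOn_congr_fun (fun y hy => ?_) measurableSet_Ioi).2 h
  have hy0 : (0 : ℝ) < y := hy
  have hc := cst_pos
  simp only [smul_eq_mul]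
  rw [ENNReal.toReal_ofReal (by positivity)]

section
variable {β : ℝ}

lemma h_nonneg (β y : ℝ) : 0 ≤ Real.exp (-(β * y)) - 1 + β * y := by
  have := Real.add_one_le_exp (-(β * y))
  linarith

lemma h_le_sq {y : ℝ} (hβ : 0 < β) (hy : 0 ≤ y) :
    Real.exp (-(β * y)) - 1 + β * y ≤ β ^ 2 * y ^ 2 := by
  have hx : 0 ≤ β * y := by positivity
  set x := β * y with hxd
  have h1 : Real.exp (-x) ≤ 1 - x + x ^ 2 := by
    have h2 : Real.exp (-x) * (1 + x) ≤ 1 := by
      have h3 := Real.add_one_le_exp x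
      calc Real.exp (-x) * (1 + x) ≤ Real.exp (-x) * Real.exp x := by
            gcongr; linarith
        _ = 1 := by rw [← Real.exp_add]; simp
    have h4 : (1 - x + x ^ 2) * (1 + x) ≥ 1 := by nlinarith [pow_nonneg hx 3]
    have h5 : 0 < 1 + x := by linarith
    nlinarith
  have : β ^ 2 * y ^ 2 = x ^ 2 := by rw [hxd]; ring
  rw [this]; linarith

lemma h_le_lin {y : ℝ} (hβ : 0 < β) (hy : 0 ≤ y) :
    Real.exp (-(β * y)) - 1 + β * y ≤ β * y := by
  have : Real.exp (-(β * y)) ≤ 1 := by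
    rw [Real.exp_le_one_iff]
    have : 0 ≤ β * y := by positivity
    linarith
  linarith

lemma integrableOn_h (hβ : 0 < β) :
    IntegrableOn (fun y : ℝ => (Real.exp (-(β * y)) - 1 + β * y) * y ^ (-(11 / 4) : ℝ)) (Ioi 0) := by
  have hsplit : Ioi (0 : ℝ) = Ioc 0 1 ∪ Ioi 1 := (Ioc_union_Ioi_eq_Ioi zero_le_one).symm
  rw [hsplit, integrableOn_union]
  have hmeas : ∀ s : Set ℝ, AEStronglyMeasurable
      (fun y : ℝ => (Real.exp (-(β * y)) - 1 + β * y) * y ^ (-(11 / 4) : ℝ)) (volume.restrict s) := by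
    intro s
    apply Measurable.aestronglyMeasurable
    fun_prop
  constructor
  · have h1 : IntegrableOn (fun y : ℝ => β ^ 2 * y ^ (-(3 / 4) : ℝ)) (Ioc 0 1) := by
      have := (intervalIntegral.intervalIntegrable_rpow' (a := 0) (b := 1)
        (r := (-(3 / 4) : ℝ)) (by norm_num)).const_mul (β ^ 2)
      rwa [intervalIntegrable_iff_integrableOn_Ioc_of_le zero_le_one] at this
    refine Integrable.mono' h1 (hmeas _) ?_
    filter_upwards [ae_restrict_mem measurableSet_Ioc] with y hy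
    have hy0 : 0 < y := hy.1
    rw [Real.norm_of_nonneg (mul_nonneg (h_nonneg β y) (by positivity))]
    calc (Real.exp (-(β * y)) - 1 + β * y) * y ^ (-(11 / 4) : ℝ)
        ≤ (β ^ 2 * y ^ 2) * y ^ (-(11 / 4) : ℝ) := by
          gcongr
          exact h_le_sq hβ hy0.le
      _ = β ^ 2 * y ^ (-(3 / 4) : ℝ) := by
          rw [mul_assoc, ← Real.rpow_natCast y 2, ← Real.rpow_add hy0]
          norm_num
  · have h1 : IntegrableOn (fun y : ℝ => β * y ^ (-(7 / 4) : ℝ)) (Ioi 1) :=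
      (integrableOn_Ioi_rpow_of_lt (by norm_num) one_pos).const_mul β
    refine Integrable.mono' h1 (hmeas _) ?_
    filter_upwards [ae_restrict_mem measurableSet_Ioi] with y hy
    have hy0 : 0 < y := lt_trans one_pos hy
    rw [Real.norm_of_nonneg (mul_nonneg (h_nonneg β y) (by positivity))]
    calc (Real.exp (-(β * y)) - 1 + β * y) * y ^ (-(11 / 4) : ℝ)
        ≤ (β * y) * y ^ (-(11 / 4) : ℝ) := by
          gcongr
          exact h_le_lin hβ hy0.le
      _ = β * y ^ (-(7 / 4) : ℝ) := by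
          rw [mul_assoc]
          congr 1
          nth_rewrite 1 [← Real.rpow_one y]
          rw [← Real.rpow_add hy0]
          norm_num

lemma integrableOn_exp (hβ : 0 < β) :
    IntegrableOn (fun y : ℝ => y ^ ((1 / 4 : ℝ) - 1) * Real.exp (-(β * y))) (Ioi 0) := by
  by_contra h
  have h1 := integral_undef h
  rw [Real.integral_rpow_mul_exp_neg_mul_Ioi (by norm_num) hβ] at h1
  have := Real.Gamma_pos_of_pos (show (0 : ℝ) < 1 / 4 by norm_num)
  have h2 : 0 < (1 / β) ^ (1 / 4 : ℝ) * Real.Gamma (1 / 4) := by positivity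
  linarith

/-- antiderivative -/
noncomputable def Fa (β y : ℝ) : ℝ :=
  -(4 / 7) * ((Real.exp (-(β * y)) - 1 + β * y) * y ^ (-(7 / 4) : ℝ)) -
    β * (16 / 21) * ((1 - Real.exp (-(β * y))) * y ^ (-(3 / 4) : ℝ))

lemma hasDerivAt_Fa {y : ℝ} (hy : 0 < y) :
    HasDerivAt (Fa β) ((Real.exp (-(β * y)) - 1 + β * y) * y ^ (-(11 / 4) : ℝ) -
      β ^ 2 * (16 / 21) * (y ^ ((1 / 4 : ℝ) - 1) * Real.exp (-(β * y)))) y := by
  have he : HasDerivAt (fun y : ℝ => Real.exp (-(β * y))) (-(β * Real.exp (-(β * y)))) y := by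
    have h1 : HasDerivAt (fun y : ℝ => -(β * y)) (-(β * 1)) y :=
      ((hasDerivAt_id' y).const_mul β).fun_neg
    exact h1.exp.congr_deriv (by ring)
  have hh : HasDerivAt (fun y : ℝ => Real.exp (-(β * y)) - 1 + β * y)
      (-(β * Real.exp (-(β * y))) + β) y := by
    have h1 : HasDerivAt (fun y : ℝ => β * y) β y := by simpa using (hasDerivAt_id y).const_mul β
    exact (he.sub_const 1).add h1
  have hg : HasDerivAt (fun y : ℝ => 1 - Real.exp (-(β * y))) (β * Real.exp (-(β * y))) y := by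
    exact (he.const_sub 1).congr_deriv (by ring)
  have hp1 : HasDerivAt (fun y : ℝ => y ^ (-(7 / 4) : ℝ)) (-(7 / 4) * y ^ (-(11 / 4) : ℝ)) y := by
    have := Real.hasDerivAt_rpow_const (x := y) (p := -(7 / 4)) (Or.inl hy.ne')
    convert this using 2
    norm_num
  have hp2 : HasDerivAt (fun y : ℝ => y ^ (-(3 / 4) : ℝ)) (-(3 / 4) * y ^ (-(7 / 4) : ℝ)) y := by
    have := Real.hasDerivAt_rpow_const (x := y) (p := -(3 / 4)) (Or.inl hy.ne')
    convert this using 2
    norm_num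
  have := ((hh.mul hp1).const_mul (-(4 / 7) : ℝ)).sub ((hg.mul hp2).const_mul (β * (16 / 21)))
  refine this.congr_deriv ?_
  have e1 : (1 / 4 : ℝ) - 1 = -(3 / 4) := by norm_num
  rw [e1]
  ring

lemma Fa_bound {y : ℝ} (hβ : 0 < β) (hy : 0 < y) :
    ‖Fa β y‖ ≤ 2 * β ^ 2 * y ^ (1 / 4 : ℝ) := by
  unfold Fa
  have h1 : ‖(Real.exp (-(β * y)) - 1 + β * y) * y ^ (-(7 / 4) : ℝ)‖ ≤ β ^ 2 * y ^ (1 / 4 : ℝ) := by
    rw [Real.norm_of_nonneg (mul_nonneg (h_nonneg β y) (by positivity))]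
    calc (Real.exp (-(β * y)) - 1 + β * y) * y ^ (-(7 / 4) : ℝ)
        ≤ (β ^ 2 * y ^ 2) * y ^ (-(7 / 4) : ℝ) := by
          gcongr
          exact h_le_sq hβ hy.le
      _ = β ^ 2 * y ^ (1 / 4 : ℝ) := by
          rw [mul_assoc, ← Real.rpow_natCast y 2, ← Real.rpow_add hy]
          norm_num
  have h2 : ‖(1 - Real.exp (-(β * y))) * y ^ (-(3 / 4) : ℝ)‖ ≤ β * y ^ (1 / 4 : ℝ) := by
    have h3 : 0 ≤ 1 - Real.exp (-(β * y)) := by
      have : Real.exp (-(β * y)) ≤ 1 := by
        rw [Real.exp_le_one_iff]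
        have : 0 ≤ β * y := by positivity
        linarith
      linarith
    have h4 : 1 - Real.exp (-(β * y)) ≤ β * y := by
      have := h_nonneg β y
      linarith
    rw [Real.norm_of_nonneg (mul_nonneg h3 (by positivity))]
    calc (1 - Real.exp (-(β * y))) * y ^ (-(3 / 4) : ℝ)
        ≤ (β * y) * y ^ (-(3 / 4) : ℝ) := by gcongr
      _ = β * y ^ (1 / 4 : ℝ) := by
          rw [mul_assoc]
          congr 1
          nth_rewrite 1 [← Real.rpow_one y]
          rw [← Real.rpow_add hy]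
          norm_num
  calc ‖-(4 / 7) * ((Real.exp (-(β * y)) - 1 + β * y) * y ^ (-(7 / 4) : ℝ)) -
    β * (16 / 21) * ((1 - Real.exp (-(β * y))) * y ^ (-(3 / 4) : ℝ))‖
      ≤ ‖-(4 / 7) * ((Real.exp (-(β * y)) - 1 + β * y) * y ^ (-(7 / 4) : ℝ))‖ +
        ‖β * (16 / 21) * ((1 - Real.exp (-(β * y))) * y ^ (-(3 / 4) : ℝ))‖ := norm_sub_le _ _
    _ = (4 / 7) * ‖(Real.exp (-(β * y)) - 1 + β * y) * y ^ (-(7 / 4) : ℝ)‖ +
        β * (16 / 21) * ‖(1 - Real.exp (-(β * y))) * y ^ (-(3 / 4) : ℝ)‖ := by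
        rw [norm_mul, norm_mul (β * (16 / 21)), norm_neg, Real.norm_of_nonneg (by norm_num : (0:ℝ) ≤ 4 / 7),
          Real.norm_of_nonneg (by positivity : 0 ≤ β * (16 / 21))]
    _ ≤ (4 / 7) * (β ^ 2 * y ^ (1 / 4 : ℝ)) + β * (16 / 21) * (β * y ^ (1 / 4 : ℝ)) := by
        gcongr
    _ ≤ 2 * β ^ 2 * y ^ (1 / 4 : ℝ) := by
        have : 0 ≤ β ^ 2 * y ^ (1 / 4 : ℝ) := by positivity
        nlinarith

lemma Fa_bound_top {y : ℝ} (hβ : 0 < β) (hy : 0 < y) :
    ‖Fa β y‖ ≤ 2 * β * y ^ (-(3 / 4) : ℝ) := by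
  unfold Fa
  have h1 : ‖(Real.exp (-(β * y)) - 1 + β * y) * y ^ (-(7 / 4) : ℝ)‖ ≤ β * y ^ (-(3 / 4) : ℝ) := by
    rw [Real.norm_of_nonneg (mul_nonneg (h_nonneg β y) (by positivity))]
    calc (Real.exp (-(β * y)) - 1 + β * y) * y ^ (-(7 / 4) : ℝ)
        ≤ (β * y) * y ^ (-(7 / 4) : ℝ) := by
          gcongr
          exact h_le_lin hβ hy.le
      _ = β * y ^ (-(3 / 4) : ℝ) := by
          rw [mul_assoc]
          congr 1
          nth_rewrite 1 [← Real.rpow_one y]
          rw [← Real.rpow_add hy]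
          norm_num
  have h2 : ‖(1 - Real.exp (-(β * y))) * y ^ (-(3 / 4) : ℝ)‖ ≤ y ^ (-(3 / 4) : ℝ) := by
    have h3 : 0 ≤ 1 - Real.exp (-(β * y)) := by
      have : Real.exp (-(β * y)) ≤ 1 := by
        rw [Real.exp_le_one_iff]
        have : 0 ≤ β * y := by positivity
        linarith
      linarith
    have h4 : 1 - Real.exp (-(β * y)) ≤ 1 := by
      have := Real.exp_pos (-(β * y))
      linarith
    rw [Real.norm_of_nonneg (mul_nonneg h3 (by positivity))]
    calc (1 - Real.exp (-(β * y))) * y ^ (-(3 / 4) : ℝ)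
        ≤ 1 * y ^ (-(3 / 4) : ℝ) := by gcongr
      _ = _ := one_mul _
  calc ‖-(4 / 7) * ((Real.exp (-(β * y)) - 1 + β * y) * y ^ (-(7 / 4) : ℝ)) -
    β * (16 / 21) * ((1 - Real.exp (-(β * y))) * y ^ (-(3 / 4) : ℝ))‖
      ≤ ‖-(4 / 7) * ((Real.exp (-(β * y)) - 1 + β * y) * y ^ (-(7 / 4) : ℝ))‖ +
        ‖β * (16 / 21) * ((1 - Real.exp (-(β * y))) * y ^ (-(3 / 4) : ℝ))‖ := norm_sub_le _ _
    _ = (4 / 7) * ‖(Real.exp (-(β * y)) - 1 + β * y) * y ^ (-(7 / 4) : ℝ)‖ +
        β * (16 / 21) * ‖(1 - Real.exp (-(β * y))) * y ^ (-(3 / 4) : ℝ)‖ := by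
        rw [norm_mul, norm_mul (β * (16 / 21)), norm_neg, Real.norm_of_nonneg (by norm_num : (0:ℝ) ≤ 4 / 7),
          Real.norm_of_nonneg (by positivity : 0 ≤ β * (16 / 21))]
    _ ≤ (4 / 7) * (β * y ^ (-(3 / 4) : ℝ)) + β * (16 / 21) * (y ^ (-(3 / 4) : ℝ)) := by
        gcongr
    _ ≤ 2 * β * y ^ (-(3 / 4) : ℝ) := by
        have : 0 ≤ β * y ^ (-(3 / 4) : ℝ) := by positivity
        nlinarith

lemma integral_h (hβ : 0 < β) :
    ∫ y in Ioi (0 : ℝ), (Real.exp (-(β * y)) - 1 + β * y) * y ^ (-(11 / 4) : ℝ) =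
      β ^ 2 * (16 / 21) * ((1 / β) ^ (1 / 4 : ℝ) * Real.Gamma (1 / 4)) := by
  have hF0 : Fa β 0 = 0 := by
    unfold Fa
    rw [Real.zero_rpow (by norm_num), Real.zero_rpow (by norm_num)]
    ring
  have hint := (integrableOn_h hβ).sub ((integrableOn_exp hβ).const_mul (β ^ 2 * (16 / 21)))
  have hlim0 : ContinuousWithinAt (Fa β) (Ici 0) 0 := by
    rw [ContinuousWithinAt, hF0]
    have hb : Tendsto (fun y : ℝ => 2 * β ^ 2 * y ^ (1 / 4 : ℝ)) (𝓝[Ici 0] 0) (𝓝 0) := by
      have h1 : ContinuousAt (fun y : ℝ => 2 * β ^ 2 * y ^ (1 / 4 : ℝ)) 0 := by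
        refine ContinuousAt.mul continuousAt_const ?_
        exact Real.continuousAt_rpow_const _ _ (Or.inr (by norm_num))
      have h2 := h1.tendsto
      rw [Real.zero_rpow (by norm_num), mul_zero] at h2
      exact h2.mono_left nhdsWithin_le_nhds
    refine squeeze_zero_norm' ?_ hb
    filter_upwards [self_mem_nhdsWithin] with y hy
    rcases eq_or_lt_of_le (show (0 : ℝ) ≤ y from hy) with h | h
    · rw [← h, hF0, Real.zero_rpow (by norm_num)]; simp
    · exact Fa_bound hβ h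
  have hlimtop : Tendsto (Fa β) atTop (𝓝 0) := by
    have hb : Tendsto (fun y : ℝ => 2 * β * y ^ (-(3 / 4) : ℝ)) atTop (𝓝 0) := by
      have := (tendsto_rpow_neg_atTop (show (0 : ℝ) < 3 / 4 by norm_num)).const_mul (2 * β)
      simpa using this
    refine squeeze_zero_norm' ?_ hb
    filter_upwards [Ioi_mem_atTop (0 : ℝ)] with y hy
    exact Fa_bound_top hβ hy
  have key := integral_Ioi_of_hasDerivAt_of_tendsto hlim0 (fun y hy => hasDerivAt_Fa (β := β) hy)
    hint hlimtop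
  rw [hF0, sub_zero] at key
  rw [integral_sub (integrableOn_h hβ) ((integrableOn_exp hβ).const_mul (β ^ 2 * (16 / 21))),
    integral_const_mul, Real.integral_rpow_mul_exp_neg_mul_Ioi (by norm_num) hβ] at key
  linarith

lemma cst_integral_h (hβ : 0 < β) :
    cst * (β ^ 2 * (16 / 21) * ((1 / β) ^ (1 / 4 : ℝ) * Real.Gamma (1 / 4))) = β ^ (7 / 4 : ℝ) := by
  unfold cst
  have hG := (Real.Gamma_pos_of_pos (show (0 : ℝ) < 1 / 4 by norm_num)).ne'
  have h1 : β ^ 2 * (1 / β) ^ (1 / 4 : ℝ) = β ^ (7 / 4 : ℝ) := by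
    rw [one_div, Real.inv_rpow hβ.le, ← Real.rpow_neg hβ.le, ← Real.rpow_natCast β 2,
      ← Real.rpow_add hβ]
    norm_num
  rw [← h1]
  field_simp

end

/-- the exponent integrand in the variable `y = -x` -/
lemma integrand_eq (β : ℝ) {y : ℝ} (hy : 0 < y) :
    cst * y ^ (-(11 / 4) : ℝ) * (Real.exp (β * (-y)) - 1 - (if -1 < -y then β * (-y) else 0)) =
      cst * ((Real.exp (-(β * y)) - 1 + β * y) * y ^ (-(11 / 4) : ℝ)) -
        (Ici (1 : ℝ)).indicator (fun y : ℝ => cst * β * y ^ (-(7 / 4) : ℝ)) y := by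
  have e1 : β * (-y) = -(β * y) := by ring
  have e2 : y * y ^ (-(11 / 4) : ℝ) = y ^ (-(7 / 4) : ℝ) := by
    nth_rewrite 1 [← Real.rpow_one y]
    rw [← Real.rpow_add hy]
    norm_num
  by_cases h : y < 1
  · rw [if_pos (by linarith), indicator_of_notMem (by simpa using h), e1]
    ring
  · rw [if_neg (by linarith), indicator_of_mem (by simpa using not_lt.1 h), e1, ← e2]
    ring

lemma integrableOn_ind (β : ℝ) :
    IntegrableOn ((Ici (1 : ℝ)).indicator (fun y : ℝ => cst * β * y ^ (-(7 / 4) : ℝ))) (Ioi 0) := by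
  have h1 : IntegrableOn (fun y : ℝ => cst * β * y ^ (-(7 / 4) : ℝ)) (Ici 1) := by
    rw [integrableOn_Ici_iff_integrableOn_Ioi]
    exact (integrableOn_Ioi_rpow_of_lt (by norm_num) one_pos).const_mul _
  exact ((integrable_indicator_iff measurableSet_Ici).2 h1).integrableOn

lemma integral_ind (β : ℝ) :
    ∫ y in Ioi (0 : ℝ), (Ici (1 : ℝ)).indicator (fun y : ℝ => cst * β * y ^ (-(7 / 4) : ℝ)) y =
      4 / 3 * cst * β := by
  rw [setIntegral_indicator measurableSet_Ici]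
  have : Ioi (0 : ℝ) ∩ Ici 1 = Ici 1 := by
    ext y; simp only [mem_inter_iff, mem_Ioi, mem_Ici]
    constructor
    · exact fun h => h.2
    · exact fun h => ⟨by linarith, h⟩
  rw [this, integral_Ici_eq_integral_Ioi, integral_const_mul,
    integral_Ioi_rpow_of_lt (by norm_num) one_pos]
  norm_num
  ring

lemma integrable_nu_stable {β : ℝ} (hβ : 0 < β) :
    Integrable (fun x : ℝ => Real.exp (β * x) - 1 - (if -1 < x then β * x else 0))
      (Measure.map Neg.neg ms) := by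
  have hm : Measurable (fun x : ℝ => Real.exp (β * x) - 1 - (if -1 < x then β * x else 0)) := by
    refine Measurable.sub (by fun_prop) ?_
    exact Measurable.ite measurableSet_Ioi (by fun_prop) measurable_const
  rw [integrable_map_measure hm.aestronglyMeasurable measurable_neg.aemeasurable]
  refine integrable_ms ?_
  refine (integrableOn_congr_fun (fun y hy => ?_) measurableSet_Ioi).2
    (((integrableOn_h hβ).const_mul cst).sub (integrableOn_ind β))
  exact integrand_eq β hy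

lemma integral_nu {β : ℝ} (hβ : 0 < β) :
    ∫ x, (Real.exp (β * x) - 1 - (if -1 < x then β * x else 0)) ∂nu =
      β ^ ((7 : ℝ) / 4) - 4 / 3 * cst * β + (Real.exp (-β) - 1) := by
  have hm : Measurable (fun x : ℝ => Real.exp (β * x) - 1 - (if -1 < x then β * x else 0)) := by
    refine Measurable.sub (by fun_prop) ?_
    exact Measurable.ite measurableSet_Ioi (by fun_prop) measurable_const
  unfold nu
  rw [integral_add_measure (integrable_nu_stable hβ)
    (integrable_dirac (by exact enorm_lt_top)), integral_dirac]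
  rw [integral_map measurable_neg.aemeasurable hm.aestronglyMeasurable, integral_ms]
  rw [setIntegral_congr_fun measurableSet_Ioi (fun y hy => integrand_eq β hy)]
  rw [integral_sub ((integrableOn_h hβ).const_mul cst) (integrableOn_ind β), integral_const_mul,
    integral_h hβ, cst_integral_h hβ, integral_ind]
  simp

end Pool.Agent.H308R3.A
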