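import Mathlib
set_option autoImplicit false
open MeasureTheory Set Filter Topology

namespace Pool.Agent.H308R3.B

/-- integrable functions vanishing on `(-∞, 0]` -/
structure Adm (f : ℝ → ℝ) : Prop where
  int : Integrable f
  zero : ∀ x ≤ 0, f x = 0

/-- convolution on the line -/
noncomputable def cv (f g : ℝ → ℝ) : ℝ → ℝ :=
  convolution f g (ContinuousLinearMap.mul ℝ ℝ) volume

lemma cv_apply (f g : ℝ → ℝ) (x : ℝ) : cv f g x = ∫ t, f t * g (x - t) := by
  unfold cv
  rw [convolution_def]
  rfl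

lemma cv_comm (f g : ℝ → ℝ) : cv f g = cv g f := by
  funext x
  rw [cv_apply]
  unfold cv
  rw [convolution_mul_swap]
  congr 1
  funext t
  ring

lemma cv_congr {f f' g g' : ℝ → ℝ} (h1 : f =ᵐ[volume] f') (h2 : g =ᵐ[volume] g') :
    cv f g = cv f' g' := by
  unfold cv
  exact convolution_congr _ h1 h2

lemma Adm.cv {f g : ℝ → ℝ} (hf : Adm f) (hg : Adm g) : Adm (cv f g) := by
  refine ⟨Integrable.integrable_convolution _ hf.int hg.int, fun x hx => ?_⟩
  rw [cv_apply]
  have : ∀ t, f t * g (x - t) = 0 := by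
    intro t
    rcases le_or_gt t 0 with ht | ht
    · rw [hf.zero t ht, zero_mul]
    · rw [hg.zero (x - t) (by linarith), mul_zero]
  simp [this]

lemma Adm.add {f g : ℝ → ℝ} (hf : Adm f) (hg : Adm g) : Adm (fun x => f x + g x) :=
  ⟨hf.int.add hg.int, fun x hx => by simp only [hf.zero x hx, hg.zero x hx, add_zero]⟩

lemma Adm.sub {f g : ℝ → ℝ} (hf : Adm f) (hg : Adm g) : Adm (fun x => f x - g x) :=
  ⟨hf.int.sub hg.int, fun x hx => by simp only [hf.zero x hx, hg.zero x hx, sub_zero]⟩

lemma Adm.const_mul {f : ℝ → ℝ} (hf : Adm f) (c : ℝ) : Adm (fun x => c * f x) :=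
  ⟨hf.int.const_mul c, fun x hx => by simp only [hf.zero x hx, mul_zero]⟩

lemma Adm.neg {f : ℝ → ℝ} (hf : Adm f) : Adm (fun x => - f x) :=
  ⟨hf.int.neg, fun x hx => by simp only [hf.zero x hx, neg_zero]⟩

/-- damping by an exponential -/
noncomputable def ex (b : ℝ) (f : ℝ → ℝ) : ℝ → ℝ := fun x => Real.exp (-(b * x)) * f x

lemma Adm.ex {f : ℝ → ℝ} (hf : Adm f) {b : ℝ} (hb : 0 ≤ b) : Adm (ex b f) := by
  refine ⟨?_, fun x hx => by unfold B.ex; rw [hf.zero x hx, mul_zero]⟩
  refine Integrable.mono hf.int ?_ ?_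
  · exact (by fun_prop : Continuous fun x : ℝ => Real.exp (-(b * x))).aestronglyMeasurable.mul
      hf.int.aestronglyMeasurable
  · filter_upwards with x
    unfold B.ex
    rw [norm_mul, Real.norm_of_nonneg (Real.exp_pos _).le]
    rcases le_or_gt x 0 with hx | hx
    · rw [hf.zero x hx]; simp
    · have : Real.exp (-(b * x)) ≤ 1 := by
        rw [Real.exp_le_one_iff]
        have := mul_nonneg hb hx.le
        linarith
      calc Real.exp (-(b * x)) * ‖f x‖ ≤ 1 * ‖f x‖ := by gcongr
        _ = ‖f x‖ := one_mul _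

lemma ex_cv (b : ℝ) (f g : ℝ → ℝ) : ex b (cv f g) = cv (ex b f) (ex b g) := by
  funext x
  unfold ex
  rw [cv_apply, cv_apply, ← integral_const_mul]
  congr 1
  funext t
  have : Real.exp (-(b * x)) = Real.exp (-(b * t)) * Real.exp (-(b * (x - t))) := by
    rw [← Real.exp_add]; congr 1; ring
  rw [this]; ring

lemma ex_ex (b c : ℝ) (f : ℝ → ℝ) : ex b (ex c f) = ex (b + c) f := by
  funext x
  unfold ex
  rw [← mul_assoc, ← Real.exp_add]
  congr 2; ring

lemma ex_zero (f : ℝ → ℝ) : ex 0 f = f := by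
  funext x; simp [ex]

/-- Laplace transform -/
noncomputable def LT (f : ℝ → ℝ) (b : ℝ) : ℝ := ∫ x, ex b f x

lemma LT_cv {f g : ℝ → ℝ} (hf : Adm f) (hg : Adm g) {b : ℝ} (hb : 0 ≤ b) :
    LT (cv f g) b = LT f b * LT g b := by
  unfold LT
  rw [ex_cv]
  unfold cv
  rw [integral_convolution _ (hf.ex hb).int (hg.ex hb).int]
  rfl

lemma LT_ex (f : ℝ → ℝ) (b c : ℝ) : LT (ex c f) b = LT f (b + c) := by
  unfold LT; rw [ex_ex]

lemma LT_add {f g : ℝ → ℝ} (hf : Adm f) (hg : Adm g) {b : ℝ} (hb : 0 ≤ b) :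
    LT (fun x => f x + g x) b = LT f b + LT g b := by
  unfold LT
  rw [← integral_add (hf.ex hb).int (hg.ex hb).int]
  congr 1; funext x; unfold ex; ring

lemma LT_sub {f g : ℝ → ℝ} (hf : Adm f) (hg : Adm g) {b : ℝ} (hb : 0 ≤ b) :
    LT (fun x => f x - g x) b = LT f b - LT g b := by
  unfold LT
  rw [← integral_sub (hf.ex hb).int (hg.ex hb).int]
  congr 1; funext x; unfold ex; ring

lemma LT_const_mul (f : ℝ → ℝ) (c b : ℝ) : LT (fun x => c * f x) b = c * LT f b := by
  unfold LT
  rw [← integral_const_mul]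
  congr 1; funext x; unfold ex; ring

lemma LT_neg (f : ℝ → ℝ) (b : ℝ) : LT (fun x => - f x) b = - LT f b := by
  unfold LT
  rw [← integral_neg]
  congr 1; funext x; unfold ex; ring

lemma LT_congr {f g : ℝ → ℝ} (h : f =ᵐ[volume] g) (b : ℝ) : LT f b = LT g b := by
  unfold LT
  refine integral_congr_ae ?_
  filter_upwards [h] with x hx
  unfold ex; rw [hx]

/-- Uniqueness: vanishing exponential moments at the natural numbers. -/
theorem ae_zero_of_moments {g : ℝ → ℝ} (hg : Adm g) (h : ∀ n : ℕ, ∫ x, Real.exp (-(n * x)) * g x = 0) :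
    ∀ᵐ x, g x = 0 := by
  have key : ∀ᵐ x, x ∈ Ioi (0 : ℝ) → g x = 0 := by
    refine isOpen_Ioi.ae_eq_zero_of_integral_contDiff_smul_eq_zero
      (hg.int.locallyIntegrable.locallyIntegrableOn _) ?_
    intro ψ hψ hψc hψs
    -- the function φ
    have hψ0 : ψ 0 = 0 := by
      apply image_eq_zero_of_notMem_tsupport
      intro h0
      exact lt_irrefl (0 : ℝ) (mem_Ioi.1 (hψs h0))
    obtain ⟨M, hM⟩ : ∃ M : ℝ, ∀ x, M < x → ψ x = 0 := by
      obtain ⟨M, hM⟩ := hψc.isCompact.bddAbove
      refine ⟨M, fun x hx => ?_⟩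
      apply image_eq_zero_of_notMem_tsupport
      intro hx'
      exact absurd (hM hx') (not_le.2 hx)
    have hcont : ContinuousOn (fun u : ℝ => ψ (-Real.log u)) (Icc 0 1) := by
      intro u hu
      rcases eq_or_lt_of_le hu.1 with h0 | h0
      · subst h0
        have h1 : (fun u : ℝ => ψ (-Real.log u)) =ᶠ[𝓝[Icc 0 1] 0] fun _ => 0 := by
          have h2 : Iio (Real.exp (-M)) ∈ 𝓝[Icc 0 1] (0 : ℝ) :=
            mem_nhdsWithin_of_mem_nhds (Iio_mem_nhds (Real.exp_pos _))
          filter_upwards [h2, self_mem_nhdsWithin] with v hv hv'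
          rcases eq_or_lt_of_le hv'.1 with h3 | h3
          · rw [← h3]; simp [hψ0]
          · apply hM
            have : Real.log v < -M := (Real.log_lt_iff_lt_exp h3).2 hv
            linarith
        refine ContinuousWithinAt.congr_of_eventuallyEq continuousWithinAt_const h1 ?_
        simp [hψ0]
      · exact (hψ.continuous.continuousAt.comp (Real.continuousAt_log h0.ne').neg).continuousWithinAt
    have hzero : ∀ ε > 0, |∫ x, ψ x * g x| ≤ ε * ∫ x, ‖g x‖ := by
      intro ε hε
      obtain ⟨p, hp⟩ := exists_polynomial_near_of_continuousOn 0 1 _ hcont ε hε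
      have hint : ∀ n : ℕ, Integrable (fun x => Real.exp (-(n * x)) * g x) := fun n =>
        (hg.ex (Nat.cast_nonneg n)).int
      have hp0 : ∫ x, p.eval (Real.exp (-x)) * g x = 0 := by
        have h1 : (fun x => p.eval (Real.exp (-x)) * g x) = fun x =>
            ∑ n ∈ p.support, p.coeff n * (Real.exp (-(n * x)) * g x) := by
          funext x
          rw [Polynomial.eval_eq_sum, Polynomial.sum, Finset.sum_mul]
          refine Finset.sum_congr rfl (fun n _ => ?_)
          rw [← Real.exp_nat_mul]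
          have : (n : ℝ) * -x = -(n * x) := by ring
          rw [this]; ring
        rw [h1, integral_finsetSum _ (fun n _ => (hint n).const_mul _)]
        refine Finset.sum_eq_zero (fun n _ => ?_)
        rw [integral_const_mul, h n, mul_zero]
      have hpint : Integrable (fun x => p.eval (Real.exp (-x)) * g x) := by
        have h1 : (fun x => p.eval (Real.exp (-x)) * g x) = fun x =>
            ∑ n ∈ p.support, p.coeff n * (Real.exp (-(n * x)) * g x) := by
          funext x
          rw [Polynomial.eval_eq_sum, Polynomial.sum, Finset.sum_mul]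
          refine Finset.sum_congr rfl (fun n _ => ?_)
          rw [← Real.exp_nat_mul]
          have : (n : ℝ) * -x = -(n * x) := by ring
          rw [this]; ring
        rw [h1]
        exact integrable_finsetSum _ (fun n _ => (hint n).const_mul _)
      have hψint : Integrable (fun x => ψ x * g x) := by
        obtain ⟨C, hC⟩ := hψc.exists_bound_of_continuous hψ.continuous
        exact hg.int.bdd_mul hψ.continuous.aestronglyMeasurable (Eventually.of_forall hC)
      have h2 : ∫ x, ψ x * g x = ∫ x, (ψ x * g x - p.eval (Real.exp (-x)) * g x) := by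
        rw [integral_sub hψint hpint, hp0, sub_zero]
      rw [h2, ← Real.norm_eq_abs, ← integral_const_mul]
      refine norm_integral_le_of_norm_le (hg.int.norm.const_mul ε) ?_
      filter_upwards with x
      rcases le_or_gt x 0 with hx | hx
      · rw [hg.zero x hx]; simp
      · have hu : Real.exp (-x) ∈ Icc (0 : ℝ) 1 :=
          ⟨(Real.exp_pos _).le, by rw [Real.exp_le_one_iff]; linarith⟩
        have h3 := hp _ hu
        rw [Real.log_exp, neg_neg] at h3
        rw [← sub_mul, norm_mul, Real.norm_eq_abs, abs_sub_comm]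
        gcongr
    have : ∫ x, ψ x * g x = 0 := by
      have hC : 0 ≤ ∫ x, ‖g x‖ := integral_nonneg (fun x => norm_nonneg _)
      set C : ℝ := ∫ x, ‖g x‖ with hCd
      have h1 : |∫ x, ψ x * g x| ≤ 0 := by
        refine le_of_forall_pos_le_add (fun ε hε => ?_)
        have h2 := hzero (ε / (C + 1)) (by positivity)
        refine h2.trans ?_
        rw [zero_add, div_mul_eq_mul_div, div_le_iff₀ (by positivity)]
        nlinarith
      exact abs_eq_zero.1 (le_antisymm h1 (abs_nonneg _))
    simpa using this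
  filter_upwards [key] with x hx
  rcases le_or_gt x 0 with h0 | h0
  · exact hg.zero x h0
  · exact hx h0

theorem LT_inj {f g : ℝ → ℝ} (hf : Adm f) (hg : Adm g) (b₀ : ℝ)
    (h : ∀ b, b₀ ≤ b → 0 ≤ b → LT f b = LT g b) : f =ᵐ[volume] g := by
  obtain ⟨N, hN⟩ := exists_nat_ge b₀
  have hd : Adm (ex N (fun x => f x - g x)) := (hf.sub hg).ex (Nat.cast_nonneg N)
  have h1 := ae_zero_of_moments hd (fun n => ?_)
  · filter_upwards [h1] with x hx
    unfold ex at hx
    rcases mul_eq_zero.1 hx with h2 | h2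
    · exact absurd h2 (Real.exp_pos _).ne'
    · linarith
  · have h2 : (∫ x, Real.exp (-(n * x)) * ex N (fun x => f x - g x) x) =
        LT (fun x => f x - g x) (n + N) := by
      unfold LT
      rw [← ex_ex]; rfl
    rw [h2, LT_sub hf hg (by positivity), h _ _ (by positivity), sub_self]
    have : (0 : ℝ) ≤ n := Nat.cast_nonneg n
    linarith

end Pool.Agent.H308R3.B
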