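import Pool.Agent.H308R3.B9
set_option autoImplicit false
open MeasureTheory Set Filter Topology

namespace Pool.Agent.H308R3.B

variable {μ : Measure ℝ}

lemma cv_Ee {f : ℝ → ℝ} (hf : Adm f) (c : ℝ) {x : ℝ} (hx : 0 < x) :
    Real.exp (c * x) * cv f (Ee c) x = ∫ t in (0 : ℝ)..x, Real.exp (c * t) * f t := by
  rw [cv_apply]
  unfold Ee
  have h1 : ∀ t, f t * (if 0 < x - t then Real.exp (-(c * (x - t))) else 0) =
      Real.exp (-(c * x)) * (Ioo 0 x).indicator (fun t => Real.exp (c * t) * f t) t := by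
    intro t
    by_cases ht : t < x
    · rw [if_pos (by linarith)]
      rcases le_or_gt t 0 with h0 | h0
      · rw [hf.zero t h0, indicator_of_notMem (fun h => absurd h.1 (not_lt.2 h0))]; ring
      · rw [indicator_of_mem (show t ∈ Ioo 0 x from ⟨h0, ht⟩)]
        have : Real.exp (-(c * (x - t))) = Real.exp (-(c * x)) * Real.exp (c * t) := by
          rw [← Real.exp_add]; congr 1; ring
        rw [this]; ring
    · rw [if_neg (by linarith), indicator_of_notMem (fun h => ht h.2)]
      ring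
  simp_rw [h1]
  rw [integral_const_mul, ← mul_assoc, ← Real.exp_add, add_neg_cancel, Real.exp_zero, one_mul,
    integral_indicator measurableSet_Ioo, intervalIntegral.integral_of_le hx.le,
    integral_Ioc_eq_integral_Ioo]

lemma exp_mul_int {f : ℝ → ℝ} (hf : Adm f) (c x y : ℝ) :
    IntervalIntegrable (fun t => Real.exp (c * t) * f t) volume x y := by
  refine IntervalIntegrable.continuousOn_mul hf.int.intervalIntegrable ?_
  exact (by fun_prop : Continuous fun t : ℝ => Real.exp (c * t)).continuousOn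

lemma psi_integral (b : ℝ) (hb : 0 < b) :
    ∫ x, (Real.exp (b * x) - 1 - (Set.Ioi (-1 : ℝ)).indicator (fun y => b * y) x) ∂μ =
      b ^ 2 * ∫ z, psi b z ∂μ := by
  rw [← integral_const_mul]
  congr 1
  funext z
  unfold psi
  by_cases h : -1 < z
  · rw [if_pos h, indicator_of_mem (show z ∈ Ioi (-1 : ℝ) from h)]
    field_simp
  · rw [if_neg h, indicator_of_notMem (show z ∉ Ioi (-1 : ℝ) from h)]
    field_simp

theorem main (a σ : ℝ) (W : ℝ → ℝ) (h : Lev μ) (hσ : σ ≠ 0) (hW : ContinuousOn W (Ioi 0))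
    (hL : ∃ β₀ : ℝ, ∀ β : ℝ, β₀ < β →
      MeasureTheory.IntegrableOn (fun x => Real.exp (-(β * x)) * W x) (Set.Ioi 0) ∧
      ∫ x in Set.Ioi (0 : ℝ), Real.exp (-(β * x)) * W x =
        1 / (-(a * β) + σ ^ 2 * β ^ 2 / 2 +
          ∫ x, (Real.exp (β * x) - 1 - (Set.Ioi (-1 : ℝ)).indicator (fun y => β * y) x) ∂μ))
    (k : ℕ) :
    ContDiffOn ℝ (k + 3 : ℕ) W (Ioi 0) ↔ ContDiffOn ℝ k (tl μ) (Ioi 0) := by
  obtain ⟨β₀, hL⟩ := hL
  set A : ℝ := σ ^ 2 / 2 with hA
  have hA0 : 0 < A := by positivity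
  set G := GG μ A a with hG
  -- the denominator
  have hden : ∀ β, 0 < β → -(a * β) + σ ^ 2 * β ^ 2 / 2 +
          ∫ x, (Real.exp (β * x) - 1 - (Set.Ioi (-1 : ℝ)).indicator (fun y => β * y) x) ∂μ =
      A * β ^ 2 * (1 + LT G β) := by
    intro β hβ
    rw [psi_integral β hβ, hG, h.LT_GG A a hβ, hA]
    field_simp
    ring
  -- choice of the damping
  obtain ⟨b₁, hb₁⟩ := ((h.GG_small A a).eventually (gt_mem_nhds (show (0 : ℝ) < 1 / 3 by norm_num))).exists_forall_of_atTop
  set l : ℝ := max (max b₁ β₀) 1 + 1 with hl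
  have hl1 : b₁ ≤ l - 1 := by
    rw [hl]; linarith [le_max_left b₁ β₀, le_max_left (max b₁ β₀) 1]
  have hl2 : β₀ < l := by
    rw [hl]; linarith [le_max_right b₁ β₀, le_max_left (max b₁ β₀) 1]
  have hl3 : 1 ≤ l - 1 := by
    rw [hl]; linarith [le_max_right (max b₁ β₀) 1]
  have hl0 : 0 < l := by linarith
  set F := ex l G with hF
  have hexF : ex (-1) F = ex (l - 1) G := by
    rw [hF, ex_ex]; congr 1; ring
  have hFA : Adm (ex (-1) F) := by
    rw [hexF]; exact h.Adm_GG A a (by linarith)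
  have hFq : ∫ x, ‖ex (-1) F x‖ ≤ 1 / 3 := by
    rw [hexF]; exact (hb₁ _ hl1).le
  obtain ⟨H, hHA, hHq, hFH⟩ := resolvent hFA hFq (by norm_num)
  have hHq' : ∫ x, ‖ex (-1) H x‖ ≤ 1 / 2 := by
    refine hHq.trans (le_of_eq ?_); norm_num
  obtain ⟨hF0, -⟩ := Adm_of_ex hFA
  obtain ⟨hH0, -⟩ := Adm_of_ex hHA
  have hiff := transfer_iff hFA hHA hFq hHq' (fun b hb => hFH b (by linarith))
    (h.Adm_KK A a hl0) (h.mx_eq A a hl0) (k + 1)
  -- functions R, N, W1
  set R : ℝ → ℝ := fun t => Real.exp (l * t) * H t with hR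
  have hRint : ∀ x y, IntervalIntegrable R volume x y := fun x y => exp_mul_int hH0 l x y
  set N : ℝ → ℝ := fun x => ∫ t in (0 : ℝ)..x, R t with hN
  have hNc : Continuous N := intervalIntegral.continuous_primitive hRint 0
  set W1 : ℝ → ℝ := fun x => (1 / A) * (x - ∫ t in (0 : ℝ)..x, N t) with hW1
  have hW1c : Continuous W1 := by
    refine continuous_const.mul (continuous_id.sub ?_)
    exact intervalIntegral.continuous_primitive (fun x y => hNc.intervalIntegrable x y) 0
  -- Laplace transforms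
  set Q := cv H (Ee l) with hQ
  have hEA := Adm_Ee hl0
  have hQA : Adm Q := hH0.cv hEA
  set Z : ℝ → ℝ := fun x => (1 / A) * (cv (Ee l) (Ee l) x - cv Q (Ee l) x) with hZ
  have hZA : Adm Z := ((hEA.cv hEA).sub (hQA.cv hEA)).const_mul _
  set V : ℝ → ℝ := fun x => if 0 < x then Real.exp (-(l * x)) * W x else 0 with hV
  have hVind : V = (Ioi (0 : ℝ)).indicator (fun x => Real.exp (-(l * x)) * W x) := by
    funext x
    rw [hV]
    by_cases hx : 0 < x
    · simp only [if_pos hx]; rw [indicator_of_mem (show x ∈ Ioi (0 : ℝ) from hx)]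
    · simp only [if_neg hx]; rw [indicator_of_notMem (show x ∉ Ioi (0 : ℝ) from hx)]
  have hVA : Adm V := by
    refine ⟨?_, fun x hx => ?_⟩
    · rw [hVind, integrable_indicator_iff measurableSet_Ioi]
      exact (hL l hl2).1
    · rw [hV]; simp only [if_neg (not_lt.2 hx)]
  have hVZ : V =ᵐ[volume] Z := by
    refine LT_inj hVA hZA 0 (fun b hb _ => ?_)
    have hbl : 0 < b + l := by linarith
    have h1 : LT V b = 1 / (A * (b + l) ^ 2 * (1 + LT G (b + l))) := by
      rw [← hden (b + l) hbl, ← (hL (b + l) (by linarith)).2]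
      unfold LT
      rw [hVind, ← integral_indicator measurableSet_Ioi]
      congr 1
      funext x
      unfold ex
      by_cases hx : x ∈ Ioi (0 : ℝ)
      · rw [indicator_of_mem hx, indicator_of_mem hx, ← mul_assoc, ← Real.exp_add]
        congr 2; ring
      · rw [indicator_of_notMem hx, indicator_of_notMem hx, mul_zero]
    rw [h1, hZ, LT_const_mul, LT_sub (hEA.cv hEA) (hQA.cv hEA) hb, LT_cv hEA hEA hb,
      LT_cv hQA hEA hb, hQ, LT_cv hH0 hEA hb, LT_Ee hl0 hb]
    have h2 := hFH b (by linarith)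
    have h3 : LT F b = LT G (b + l) := by rw [hF, LT_ex]
    have h4 := (one_add_LT_ne hFA hFq (by norm_num) hb).ne'
    rw [h3] at h2 h4
    have h5 : LT H b = LT G (b + l) / (1 + LT G (b + l)) := by rw [eq_div_iff h4]; exact h2
    rw [h5]
    field_simp
    ring
  -- W = W1
  have hZW1 : ∀ x, 0 < x → Real.exp (l * x) * Z x = W1 x := by
    intro x hx
    have h1 : Real.exp (l * x) * cv (Ee l) (Ee l) x = x := by
      rw [cv_Ee hEA l hx]
      have : ∫ t in (0 : ℝ)..x, Real.exp (l * t) * Ee l t = ∫ t in (0 : ℝ)..x, (1 : ℝ) := by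
        rw [intervalIntegral.integral_of_le hx.le, intervalIntegral.integral_of_le hx.le]
        refine setIntegral_congr_fun measurableSet_Ioc (fun t ht => ?_)
        simp only [Ee]
        rw [if_pos ht.1, ← Real.exp_add]; simp
      rw [this]; simp
    have h2 : Real.exp (l * x) * cv Q (Ee l) x = ∫ t in (0 : ℝ)..x, N t := by
      rw [cv_Ee hQA l hx]
      rw [intervalIntegral.integral_of_le hx.le, intervalIntegral.integral_of_le hx.le]
      refine setIntegral_congr_fun measurableSet_Ioc (fun t ht => ?_)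
      rw [hQ, cv_Ee hH0 l ht.1]
    rw [hZ, hW1]
    simp only
    rw [← h2]
    have h3 : Real.exp (l * x) * ((1 / A) * (cv (Ee l) (Ee l) x - cv Q (Ee l) x)) =
        (1 / A) * (Real.exp (l * x) * cv (Ee l) (Ee l) x - Real.exp (l * x) * cv Q (Ee l) x) := by ring
    rw [h3, h1]
  have hWW1 : EqOn W W1 (Ioi 0) := by
    have hae : W =ᵐ[volume.restrict (Ioi 0)] W1 := by
      filter_upwards [ae_restrict_mem measurableSet_Ioi, ae_restrict_of_ae hVZ] with x hx hx'
      have hx0 : (0 : ℝ) < x := hx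
      rw [← hZW1 x hx0, ← hx', hV]
      simp only [if_pos hx0]
      rw [← mul_assoc, ← Real.exp_add]; simp
    exact Measure.eqOn_open_of_ae_eq hae isOpen_Ioi hW hW1c.continuousOn
  -- chain of equivalences
  have c1 : ContDiffOn ℝ (k + 3 : ℕ) W (Ioi 0) ↔ ContDiffOn ℝ (k + 2 + 1 : ℕ) W1 (Ioi 0) :=
    ⟨fun hc => hc.congr (fun x hx => (hWW1 hx).symm), fun hc => hc.congr hWW1⟩
  have c2 : ContDiffOn ℝ (k + 2 + 1 : ℕ) W1 (Ioi 0) ↔
      ∀ b, 0 < b → Sm (k + 2) b (fun t => (1 / A) * (1 - N t)) := by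
    refine prim_iff (fun x y _ _ => (continuous_const.mul (continuous_const.sub hNc)).intervalIntegrable x y)
      (fun x y _ _ => ?_)
    rw [hW1]
    simp only
    rw [intervalIntegral.integral_const_mul, intervalIntegral.integral_sub intervalIntegrable_const
      (hNc.intervalIntegrable x y), ← intervalIntegral.integral_interval_sub_left
      (hNc.intervalIntegrable 0 y) (hNc.intervalIntegrable 0 x)]
    simp
    ring
  have c3 : (∀ b, 0 < b → Sm (k + 2) b (fun t => (1 / A) * (1 - N t))) ↔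
      ContDiffOn ℝ (k + 1 + 1 : ℕ) N (Ioi 0) := by
    have hfc : Continuous (fun t => (1 / A) * (1 - N t)) :=
      continuous_const.mul (continuous_const.sub hNc)
    rw [← contDiffOn_iff_Sm hfc.continuousOn]
    constructor
    · intro hc
      have h1 : ContDiffOn ℝ (k + 2 : ℕ) (fun t => 1 - A * ((1 / A) * (1 - N t))) (Ioi 0) :=
        contDiffOn_const.sub (contDiffOn_const.mul hc)
      refine h1.congr (fun x _ => ?_)
      field_simp
      ring
    · intro hc
      exact contDiffOn_const.mul (contDiffOn_const.sub hc)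
  have c4 : ContDiffOn ℝ (k + 1 + 1 : ℕ) N (Ioi 0) ↔ ∀ b, 0 < b → Sm (k + 1) b R := by
    refine prim_iff (fun x y _ _ => hRint x y) (fun x y _ _ => ?_)
    rw [hN]
    simp only
    rw [intervalIntegral.integral_interval_sub_left (hRint 0 y) (hRint 0 x)]
  have c5 : (∀ b, 0 < b → Sm (k + 1) b R) ↔ ∀ b, 0 < b → Sm (k + 1) b H := by
    constructor
    · intro hs b hb
      have h1 := (hs b hb).mul_smooth (c := fun x => Real.exp (-(l * x))) (by fun_prop)
      refine h1.congr (Eventually.of_forall (fun x => ?_))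
      simp only [hR]
      rw [← mul_assoc, ← Real.exp_add]; simp
    · intro hs b hb
      exact (hs b hb).mul_smooth (c := fun x => Real.exp (l * x)) (by fun_prop)
  have hGc : ContinuousOn G (Ioi 0) := h.GG_cont A a
  have hFc : ContinuousOn F (Ioi 0) := by
    have : Continuous (fun x : ℝ => Real.exp (-(l * x))) := by fun_prop
    exact this.continuousOn.mul hGc
  have c6 : (∀ b, 0 < b → Sm (k + 1) b F) ↔ ContDiffOn ℝ (k + 1 : ℕ) G (Ioi 0) := by
    rw [← contDiffOn_iff_Sm hFc]
    constructor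
    · intro hc
      have h1 : ContDiffOn ℝ (k + 1 : ℕ) (fun x => Real.exp (l * x) * F x) (Ioi 0) :=
        (by fun_prop : ContDiff ℝ (k + 1 : ℕ) fun x : ℝ => Real.exp (l * x)).contDiffOn.mul hc
      refine h1.congr (fun x _ => ?_)
      simp only [hF, ex]
      rw [← mul_assoc, ← Real.exp_add]; simp
    · intro hc
      exact (by fun_prop : ContDiff ℝ (k + 1 : ℕ) fun x : ℝ => Real.exp (-(l * x))).contDiffOn.mul hc
  have c7 : ContDiffOn ℝ (k + 1 : ℕ) G (Ioi 0) ↔ ∀ b, 0 < b → Sm k b (fun u => -(1 / A) * tl μ u) :=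
    prim_iff (fun x y hx hy => (h.tl_int hx hy).const_mul _) (fun x y hx hy => h.GG_sub A a hx hy)
  have c8 : (∀ b, 0 < b → Sm k b (fun u => -(1 / A) * tl μ u)) ↔ ∀ b, 0 < b → Sm k b (tl μ) := by
    constructor
    · intro hs b hb
      refine ((hs b hb).const_mul (-A)).congr (Eventually.of_forall (fun x => ?_))
      simp only
      field_simp
    · intro hs b hb
      exact (hs b hb).const_mul _
  have c9 : ContDiffOn ℝ k (tl μ) (Ioi 0) ↔ ∀ b, 0 < b → Sm k b (tl μ) :=
    antitone_iff (fun x y hx hxy => h.tl_antitone hx hxy)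
  rw [c1, c2, c3, c4, c5, ← hiff, c6, c7, c8, c9]

end Pool.Agent.H308R3.B
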