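import Pool.Agent.H308R3.B1
set_option autoImplicit false
open MeasureTheory Set Filter Topology

namespace Pool.Agent.H308R3.B

lemma integral_norm_cv_le {f g : ℝ → ℝ} (hf : Adm f) (hg : Adm g) :
    ∫ x, ‖cv f g x‖ ≤ (∫ x, ‖f x‖) * ∫ x, ‖g x‖ := by
  have h1 : ∫ x, cv (fun x => ‖f x‖) (fun x => ‖g x‖) x = (∫ x, ‖f x‖) * ∫ x, ‖g x‖ := by
    unfold cv
    rw [integral_convolution _ hf.int.norm hg.int.norm]
    rfl
  rw [← h1]
  refine integral_mono (hf.cv hg).int.norm (Integrable.integrable_convolution _ hf.int.norm hg.int.norm)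
    (fun x => ?_)
  simp only
  rw [cv_apply, cv_apply]
  refine (norm_integral_le_integral_norm _).trans (le_of_eq ?_)
  congr 1
  funext t
  rw [norm_mul]

lemma norm_ex_le {f : ℝ → ℝ} (hf : Adm f) {b : ℝ} (hb : 0 ≤ b) (x : ℝ) : ‖ex b f x‖ ≤ ‖f x‖ := by
  unfold ex
  rw [norm_mul, Real.norm_of_nonneg (Real.exp_pos _).le]
  rcases le_or_gt x 0 with hx | hx
  · rw [hf.zero x hx]; simp
  · have : Real.exp (-(b * x)) ≤ 1 := by
      rw [Real.exp_le_one_iff]
      have := mul_nonneg hb hx.le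
      linarith
    calc Real.exp (-(b * x)) * ‖f x‖ ≤ 1 * ‖f x‖ := by gcongr
      _ = ‖f x‖ := one_mul _

lemma abs_LT_le {f : ℝ → ℝ} (hf : Adm f) {b : ℝ} (hb : 0 ≤ b) : |LT f b| ≤ ∫ x, ‖f x‖ := by
  unfold LT
  rw [← Real.norm_eq_abs]
  refine (norm_integral_le_integral_norm _).trans ?_
  exact integral_mono (hf.ex hb).int.norm hf.int.norm (fun x => norm_ex_le hf hb x)

lemma integrable_tsum_aux {F : ℕ → ℝ → ℝ} (hF : ∀ n, Integrable (F n))
    (hs : Summable fun n => ∫ x, ‖F n x‖) :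
    Integrable (fun x => ∑' n, F n x) ∧ ∫ x, ‖∑' n, F n x‖ ≤ ∑' n, ∫ x, ‖F n x‖ := by
  have hlin : ∀ n, ∫⁻ x, ‖F n x‖ₑ = ENNReal.ofReal (∫ x, ‖F n x‖) := by
    intro n
    rw [ofReal_integral_norm_eq_lintegral_enorm (hF n)]
  have hfin : ∫⁻ x, ∑' n, ‖F n x‖ₑ < ⊤ := by
    rw [lintegral_tsum (fun n => (hF n).aestronglyMeasurable.enorm)]
    simp_rw [hlin]
    rw [← ENNReal.ofReal_tsum_of_nonneg (fun n => integral_nonneg (fun x => norm_nonneg _)) hs]
    exact ENNReal.ofReal_lt_top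
  have hmeas : AEMeasurable (fun x => ∑' n, ‖F n x‖ₑ) :=
    AEMeasurable.tsum (fun n => (hF n).aestronglyMeasurable.enorm)
  have hae : ∀ᵐ x, Summable (fun n => ‖F n x‖) := by
    filter_upwards [ae_lt_top' hmeas hfin.ne] with x hx
    have h1 : ∑' n, ENNReal.ofNNReal ‖F n x‖₊ ≠ ⊤ := hx.ne
    rw [ENNReal.tsum_coe_ne_top_iff_summable] at h1
    exact NNReal.summable_coe.2 h1
  have hae' : ∀ᵐ x, Summable (fun n => F n x) := by
    filter_upwards [hae] with x hx
    exact hx.of_norm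
  have hsm : AEStronglyMeasurable (fun x => ∑' n, F n x) volume := by
    refine aestronglyMeasurable_of_tendsto_ae atTop (f := fun N x => ∑ n ∈ Finset.range N, F n x)
      (fun N => ?_) ?_
    · exact (integrable_finsetSum _ (fun n _ => hF n)).aestronglyMeasurable
    · filter_upwards [hae'] with x hx
      exact hx.hasSum.tendsto_sum_nat
  have hI := hasSum_integral_of_summable_integral_norm (μ := volume) (F := fun n x => ‖F n x‖)
    (fun n => (hF n).norm) (by simpa using hs)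
  have hInt : Integrable (fun x => ∑' n, ‖F n x‖) := by
    refine ⟨?_, ?_⟩
    · refine aestronglyMeasurable_of_tendsto_ae atTop (f := fun N x => ∑ n ∈ Finset.range N, ‖F n x‖)
        (fun N => ?_) ?_
      · exact (integrable_finsetSum _ (fun n _ => (hF n).norm)).aestronglyMeasurable
      · filter_upwards [hae] with x hx
        exact hx.hasSum.tendsto_sum_nat
    · refine lt_of_le_of_lt (lintegral_mono_ae ?_) hfin
      filter_upwards [hae] with x hx
      rw [Real.enorm_of_nonneg (tsum_nonneg (fun n => norm_nonneg _)),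
        ENNReal.ofReal_tsum_of_nonneg (fun n => norm_nonneg _) hx]
      refine le_of_eq ?_
      congr 1; funext n
      rw [ofReal_norm]
  have hle : ∀ᵐ x, ‖∑' n, F n x‖ ≤ ∑' n, ‖F n x‖ := by
    filter_upwards [hae] with x hx
    exact norm_tsum_le_tsum_norm hx
  refine ⟨Integrable.mono' hInt hsm hle, ?_⟩
  rw [hI.tsum_eq]
  refine integral_mono_ae ?_ hInt hle
  exact (Integrable.mono' hInt hsm hle).norm

/-- iterated convolutions -/
noncomputable def itc (F : ℝ → ℝ) : ℕ → ℝ → ℝ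
  | 0 => F
  | (n + 1) => cv F (itc F n)

lemma Adm.itc {F : ℝ → ℝ} (hF : Adm F) (n : ℕ) : Adm (itc F n) := by
  induction n with
  | zero => exact hF
  | succ n ih => exact hF.cv ih

lemma itc_norm {F : ℝ → ℝ} (hF : Adm F) (n : ℕ) :
    ∫ x, ‖itc F n x‖ ≤ (∫ x, ‖F x‖) ^ (n + 1) := by
  induction n with
  | zero => simp [itc]
  | succ n ih =>
    have h0 : 0 ≤ ∫ x, ‖F x‖ := integral_nonneg (fun x => norm_nonneg _)
    calc ∫ x, ‖itc F (n + 1) x‖ ≤ (∫ x, ‖F x‖) * ∫ x, ‖itc F n x‖ :=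
          integral_norm_cv_le hF (hF.itc n)
      _ ≤ (∫ x, ‖F x‖) * (∫ x, ‖F x‖) ^ (n + 1) := by gcongr
      _ = (∫ x, ‖F x‖) ^ (n + 1 + 1) := by ring

lemma LT_itc {F : ℝ → ℝ} (hF : Adm F) (n : ℕ) {b : ℝ} (hb : 0 ≤ b) :
    LT (itc F n) b = LT F b ^ (n + 1) := by
  induction n with
  | zero => simp [itc]
  | succ n ih =>
    have : itc F (n + 1) = cv F (itc F n) := rfl
    rw [this, LT_cv hF (hF.itc n) hb, ih]; ring

theorem resolvent_aux {F : ℝ → ℝ} (hF : Adm F) {q : ℝ} (hq : ∫ x, ‖F x‖ ≤ q) (hq1 : q < 1) :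
    ∃ H : ℝ → ℝ, Adm H ∧ ∫ x, ‖H x‖ ≤ q / (1 - q) ∧
      ∀ b, 0 ≤ b → LT H b * (1 + LT F b) = LT F b := by
  have h0 : 0 ≤ ∫ x, ‖F x‖ := integral_nonneg (fun x => norm_nonneg _)
  have hq0 : 0 ≤ q := h0.trans hq
  set a : ℕ → ℝ → ℝ := fun n x => (-1) ^ n * itc F n x with ha
  have haAdm : ∀ n, Adm (a n) := fun n => (hF.itc n).const_mul _
  have hnorm : ∀ n x, ‖a n x‖ = ‖itc F n x‖ := by
    intro n x
    rw [ha]; simp
  have hle : ∀ n, ∫ x, ‖a n x‖ ≤ q ^ (n + 1) := by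
    intro n
    simp_rw [hnorm]
    exact (itc_norm hF n).trans (by gcongr)
  have hgeo : Summable (fun n : ℕ => q ^ (n + 1)) :=
    (summable_nat_add_iff 1).2 (summable_geometric_of_lt_one hq0 hq1)
  have hs : Summable (fun n => ∫ x, ‖a n x‖) :=
    Summable.of_nonneg_of_le (fun n => integral_nonneg (fun x => norm_nonneg _)) hle hgeo
  obtain ⟨hint, hbd⟩ := integrable_tsum_aux (fun n => (haAdm n).int) hs
  refine ⟨fun x => ∑' n, a n x, ⟨hint, fun x hx => ?_⟩, ?_, ?_⟩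
  · have : ∀ n, a n x = 0 := fun n => (haAdm n).zero x hx
    simp [this]
  · refine hbd.trans ((hs.tsum_le_tsum hle hgeo).trans (le_of_eq ?_))
    have h1 : (fun n : ℕ => q ^ (n + 1)) = fun n => q * q ^ n := by funext n; ring
    rw [h1, tsum_mul_left, tsum_geometric_of_lt_one hq0 hq1]
    rfl
  · intro b hb
    have hφ : |LT F b| < 1 := lt_of_le_of_lt ((abs_LT_le hF hb).trans hq) hq1
    have hsb : Summable (fun n => ∫ x, ‖ex b (a n) x‖) :=
      Summable.of_nonneg_of_le (fun n => integral_nonneg (fun x => norm_nonneg _))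
        (fun n => (integral_mono ((haAdm n).ex hb).int.norm (haAdm n).int.norm
          (fun x => norm_ex_le (haAdm n) hb x)).trans (hle n)) hgeo
    have hI := hasSum_integral_of_summable_integral_norm (μ := volume) (F := fun n x => ex b (a n) x)
      (fun n => ((haAdm n).ex hb).int) hsb
    have h1 : ∀ n, ∫ x, ex b (a n) x = LT F b * (- LT F b) ^ n := by
      intro n
      have : ∫ x, ex b (a n) x = LT (a n) b := rfl
      rw [this, ha]
      simp only
      rw [LT_const_mul, LT_itc hF n hb]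
      rw [neg_pow]; ring
    simp_rw [h1] at hI
    have h2 : (fun x => ∑' n, ex b (a n) x) = ex b (fun x => ∑' n, a n x) := by
      funext x
      unfold ex
      rw [tsum_mul_left]
    have h3 : LT (fun x => ∑' n, a n x) b = ∫ x, ∑' n, ex b (a n) x := by
      unfold LT; rw [h2]
    have h4 := (hasSum_geometric_of_abs_lt_one (r := -LT F b) (by rwa [abs_neg])).mul_left (LT F b)
    have h5 := hI.unique h4
    rw [h3, h5]
    have h6 : 1 - -LT F b ≠ 0 := by
      rw [abs_lt] at hφ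
      intro h
      linarith [hφ.1]
    field_simp
    ring

theorem resolvent {F : ℝ → ℝ} (hF1 : Adm (ex (-1) F)) {q : ℝ} (hq : ∫ x, ‖ex (-1) F x‖ ≤ q)
    (hq1 : q < 1) :
    ∃ H : ℝ → ℝ, Adm (ex (-1) H) ∧ ∫ x, ‖ex (-1) H x‖ ≤ q / (1 - q) ∧
      ∀ b, -1 ≤ b → LT H b * (1 + LT F b) = LT F b := by
  obtain ⟨H, h1, h2, h3⟩ := resolvent_aux hF1 hq hq1
  refine ⟨ex 1 H, ?_, ?_, ?_⟩
  · rw [ex_ex]; norm_num; rwa [ex_zero]
  · rw [ex_ex]; norm_num; rwa [ex_zero]
  · intro b hb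
    have h4 := h3 (b + 1) (by linarith)
    rw [LT_ex] at h4
    rw [LT_ex]
    have : b + 1 + -1 = b := by ring
    rwa [this] at h4

end Pool.Agent.H308R3.B
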