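import Pool.Agent.H308R3.B2
set_option autoImplicit false
open MeasureTheory Set Filter Topology

namespace Pool.Agent.H308R3.B

/-- `f` agrees a.e. on `(a, ∞)` with a `C^m` function -/
def Sm (m : ℕ) (a : ℝ) (f : ℝ → ℝ) : Prop :=
  ∃ h : ℝ → ℝ, ContDiff ℝ m h ∧ ∀ᵐ x, a < x → f x = h x

lemma Sm.mono_a {m : ℕ} {a b : ℝ} {f : ℝ → ℝ} (hab : a ≤ b) (h : Sm m a f) : Sm m b f := by
  obtain ⟨g, hg, he⟩ := h
  exact ⟨g, hg, he.mono (fun x hx hb => hx (lt_of_le_of_lt hab hb))⟩

lemma Sm.congr {m : ℕ} {a : ℝ} {f g : ℝ → ℝ} (h : Sm m a f) (hfg : g =ᵐ[volume] f) : Sm m a g := by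
  obtain ⟨k, hk, he⟩ := h
  refine ⟨k, hk, ?_⟩
  filter_upwards [he, hfg] with x hx hx' ha
  rw [hx', hx ha]

lemma Sm.add {m : ℕ} {a : ℝ} {f g : ℝ → ℝ} (hf : Sm m a f) (hg : Sm m a g) :
    Sm m a (fun x => f x + g x) := by
  obtain ⟨u, hu, he⟩ := hf
  obtain ⟨v, hv, he'⟩ := hg
  refine ⟨fun x => u x + v x, hu.add hv, ?_⟩
  filter_upwards [he, he'] with x hx hx' ha
  rw [hx ha, hx' ha]

lemma Sm.const_mul {m : ℕ} {a : ℝ} {f : ℝ → ℝ} (hf : Sm m a f) (c : ℝ) :
    Sm m a (fun x => c * f x) := by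
  obtain ⟨u, hu, he⟩ := hf
  refine ⟨fun x => c * u x, contDiff_const.mul hu, ?_⟩
  filter_upwards [he] with x hx ha
  rw [hx ha]

lemma Sm.of_contDiff {m : ℕ} {f : ℝ → ℝ} (hf : ContDiff ℝ m f) (a : ℝ) : Sm m a f :=
  ⟨f, hf, Eventually.of_forall (fun _ _ => rfl)⟩

lemma Sm.of_zero {m : ℕ} {a : ℝ} {f : ℝ → ℝ} (hf : ∀ x, a < x → f x = 0) : Sm m a f :=
  ⟨fun _ => 0, contDiff_const, Eventually.of_forall hf⟩

/-- smooth cutoff: `0` on `(-∞, a]`, `1` on `[b, ∞)` -/
noncomputable def th (a b x : ℝ) : ℝ := Real.smoothTransition ((x - a) / (b - a))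

lemma th_contDiff (a b : ℝ) (n : ℕ∞) : ContDiff ℝ n (th a b) := by
  unfold th
  refine Real.smoothTransition.contDiff.comp ?_
  fun_prop

lemma th_zero {a b x : ℝ} (hab : a < b) (hx : x ≤ a) : th a b x = 0 := by
  unfold th
  apply Real.smoothTransition.zero_of_nonpos
  apply div_nonpos_of_nonpos_of_nonneg <;> linarith

lemma th_one {a b x : ℝ} (hab : a < b) (hx : b ≤ x) : th a b x = 1 := by
  unfold th
  apply Real.smoothTransition.one_of_one_le
  rw [le_div_iff₀ (by linarith)]
  linarith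

lemma th_nonneg (a b x : ℝ) : 0 ≤ th a b x := Real.smoothTransition.nonneg _

lemma th_le_one (a b x : ℝ) : th a b x ≤ 1 := Real.smoothTransition.le_one _

/-- convolution with a smooth function is smooth -/
lemma cv_contDiff {m : ℕ} {v g : ℝ → ℝ} (hv : ContDiff ℝ m v) (hva : Adm v) (hg : Adm g) :
    ContDiff ℝ m (cv v g) := by
  rw [contDiff_iff_contDiffAt]
  intro x₀
  set T : ℝ := |x₀| + 1 with hT
  have hx₀ : x₀ < T := by have := le_abs_self x₀; linarith
  set w : ℝ → ℝ := fun x => v x * Real.smoothTransition (T + 1 - x) with hw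
  have hwc : ContDiff ℝ m w := by
    refine hv.mul ?_
    have h1 : ContDiff ℝ ((m : ℕ∞) : WithTop ℕ∞) (fun x : ℝ => Real.smoothTransition (T + 1 - x)) :=
      Real.smoothTransition.contDiff.comp (by fun_prop)
    exact_mod_cast h1
  have hws : HasCompactSupport w := by
    refine HasCompactSupport.of_support_subset_isCompact (isCompact_Icc (a := 0) (b := T + 1)) ?_
    intro x hx
    by_contra hx'
    apply hx
    rw [hw]
    simp only
    rcases le_or_gt x 0 with h0 | h0
    · rw [hva.zero x h0, zero_mul]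
    · have : T + 1 < x := by
        by_contra h1
        exact hx' ⟨h0.le, not_lt.1 h1⟩
      rw [Real.smoothTransition.zero_of_nonpos (by linarith), mul_zero]
  have h1 : ContDiff ℝ m (cv w g) := by
    have := HasCompactSupport.contDiff_convolution_left (𝕜 := ℝ) (n := (m : ℕ∞))
      (ContinuousLinearMap.mul ℝ ℝ) (μ := volume) hws (by exact_mod_cast hwc)
      hg.int.locallyIntegrable
    exact_mod_cast this
  refine h1.contDiffAt.congr_of_eventuallyEq ?_
  filter_upwards [Iio_mem_nhds hx₀] with x hx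
  rw [cv_apply, cv_apply]
  congr 1
  funext t
  rcases le_or_gt t T with ht | ht
  · rw [hw]
    simp only
    rw [Real.smoothTransition.one_of_one_le (by linarith), mul_one]
  · have hx' : x < T := hx
    rw [hg.zero (x - t) (by linarith), mul_zero, mul_zero]

lemma cv_add_left {f f' g : ℝ → ℝ} (hf : Adm f) (hf' : Adm f') (hg : Adm g) :
    cv (fun x => f x + f' x) g =ᵐ[volume] fun x => cv f g x + cv f' g x := by
  have h1 := Integrable.ae_convolution_exists (ContinuousLinearMap.mul ℝ ℝ) (μ := volume)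
    (ν := volume) hf.int hg.int
  have h2 := Integrable.ae_convolution_exists (ContinuousLinearMap.mul ℝ ℝ) (μ := volume)
    (ν := volume) hf'.int hg.int
  filter_upwards [h1, h2] with x hx hx'
  exact ConvolutionExistsAt.add_distrib hx hx'

lemma Adm.congr_zero {f g : ℝ → ℝ} (hf : Adm f) (h : g =ᵐ[volume] f) (h0 : ∀ x ≤ 0, g x = 0) : Adm g :=
  ⟨hf.int.congr h.symm, h0⟩

lemma Adm.mul_bdd {f c : ℝ → ℝ} (hf : Adm f) (hc : Continuous c) (hb : ∀ x, ‖c x‖ ≤ 1) :
    Adm (fun x => c x * f x) :=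
  ⟨hf.int.bdd_mul hc.aestronglyMeasurable (Eventually.of_forall hb),
    fun x hx => by simp only [hf.zero x hx, mul_zero]⟩

lemma th_cont (a b : ℝ) : Continuous (th a b) := (th_contDiff a b 0).continuous

lemma Sm.decomp {m : ℕ} {a b : ℝ} {f : ℝ → ℝ} (hf : Adm f) (h : Sm m a f) (ha : 0 ≤ a)
    (hab : a < b) : ∃ v : ℝ → ℝ, Adm v ∧ ContDiff ℝ m v ∧
      v =ᵐ[volume] (fun x => th a b x * f x) := by
  obtain ⟨g, hg, he⟩ := h
  have h1 : (fun x => th a b x * g x) =ᵐ[volume] (fun x => th a b x * f x) := by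
    filter_upwards [he] with x hx
    rcases le_or_gt x a with h0 | h0
    · rw [th_zero hab h0]; ring
    · rw [hx h0]
  refine ⟨fun x => th a b x * g x, ?_, ?_, h1⟩
  · refine (hf.mul_bdd (th_cont a b) (fun x => ?_)).congr_zero h1 (fun x hx => ?_)
    · rw [Real.norm_of_nonneg (th_nonneg a b x)]; exact th_le_one a b x
    · rw [th_zero hab (by linarith), zero_mul]
  · refine ContDiff.mul ?_ hg
    exact_mod_cast th_contDiff a b m

lemma cv_Sm {m : ℕ} {a b : ℝ} {f g : ℝ → ℝ} (hf : Adm f) (hg : Adm g) (ha : 0 < a) (hb : 0 < b)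
    (hsf : Sm m a f) (hsg : Sm m b g) : Sm m (2 * (a + b)) (cv f g) := by
  obtain ⟨v, hv, hvc, hve⟩ := hsf.decomp hf ha.le (show a < 2 * a by linarith)
  obtain ⟨w, hw, hwc, hwe⟩ := hsg.decomp hg hb.le (show b < 2 * b by linarith)
  set u : ℝ → ℝ := fun x => (1 - th a (2 * a) x) * f x with hu
  set z : ℝ → ℝ := fun x => (1 - th b (2 * b) x) * g x with hz
  have hcut : ∀ a b : ℝ, Continuous (fun x => 1 - th a b x) := fun a b =>
    continuous_const.sub (th_cont a b)
  have hcb : ∀ a b x : ℝ, ‖1 - th a b x‖ ≤ 1 := by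
    intro a b x
    rw [Real.norm_of_nonneg (by linarith [th_le_one a b x])]
    linarith [th_nonneg a b x]
  have hua : Adm u := hf.mul_bdd (hcut _ _) (hcb _ _)
  have hza : Adm z := hg.mul_bdd (hcut _ _) (hcb _ _)
  have hfe : f =ᵐ[volume] fun x => u x + v x := by
    filter_upwards [hve] with x hx
    rw [hx, hu]; ring
  have hge : g =ᵐ[volume] fun x => z x + w x := by
    filter_upwards [hwe] with x hx
    rw [hx, hz]; ring
  have e1 : cv f g = cv (fun x => u x + v x) g := cv_congr hfe (ae_eq_refl g)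
  have e2 : cv u g = cv (fun x => z x + w x) u := by
    rw [cv_comm]; exact cv_congr hge (ae_eq_refl u)
  have e3 := cv_add_left hua hv hg
  have e4 := cv_add_left hza hw hua
  have hzero : ∀ x, 2 * (a + b) < x → cv z u x = 0 := by
    intro x hx
    rw [cv_apply]
    have : ∀ t, z t * u (x - t) = 0 := by
      intro t
      rcases le_or_gt t (2 * b) with ht | ht
      · have : u (x - t) = 0 := by
          rw [hu]; simp only
          rw [th_one (by linarith) (by linarith)]; ring
        rw [this, mul_zero]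
      · have : z t = 0 := by
          rw [hz]; simp only
          rw [th_one (by linarith) (by linarith)]; ring
        rw [this, zero_mul]
    simp [this]
  have s1 : Sm m (2 * (a + b)) (fun x => (cv z u x + cv w u x) + cv v g x) :=
    ((Sm.of_zero hzero).add (Sm.of_contDiff (cv_contDiff hwc hw hua) _)).add
      (Sm.of_contDiff (cv_contDiff hvc hv hg) _)
  refine s1.congr ?_
  rw [e1]
  filter_upwards [e3, e4] with x h3 h4
  rw [h3, e2, h4]

/-- primitive -/
noncomputable def Pr (k : ℝ → ℝ) (x : ℝ) : ℝ := ∫ t in (0 : ℝ)..x, k t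

lemma Pr_cont {k : ℝ → ℝ} (hk : Adm k) : Continuous (Pr k) :=
  intervalIntegral.continuous_primitive (fun _ _ => hk.int.intervalIntegrable) 0

lemma Pr_zero {k : ℝ → ℝ} (hk : Adm k) (x : ℝ) (hx : x ≤ 0) : Pr k x = 0 := by
  unfold Pr
  rw [intervalIntegral.integral_symm, intervalIntegral.integral_of_le hx]
  have : ∫ t in Ioc x 0, k t = ∫ t in Ioc x 0, (0 : ℝ) :=
    setIntegral_congr_fun measurableSet_Ioc (fun t ht => hk.zero t ht.2)
  rw [this]; simp

lemma th_div_contDiff {a : ℝ} (ha : 0 < a) (n : ℕ∞) :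
    ContDiff ℝ n (fun x => th a (2 * a) x / x) := by
  rw [contDiff_iff_contDiffAt]
  intro x
  rcases lt_or_ge x a with hx | hx
  · have h1 : (fun x => th a (2 * a) x / x) =ᶠ[𝓝 x] fun _ => 0 := by
      filter_upwards [Iio_mem_nhds hx] with y hy
      rw [th_zero (by linarith) (le_of_lt hy), zero_div]
    exact contDiffAt_const.congr_of_eventuallyEq h1
  · have hx0 : 0 < x := by linarith
    exact (th_contDiff a (2 * a) n).contDiffAt.div contDiffAt_id hx0.ne'

/-- multiplication by the variable -/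
def mx (f : ℝ → ℝ) : ℝ → ℝ := fun x => x * f x

lemma prim_Sm_zero {f k : ℝ → ℝ} (hk : Adm k) (hf : mx f =ᵐ[volume] Pr k) {a : ℝ} (ha : 0 < a) :
    Sm 0 (2 * a) f := by
  refine ⟨fun x => th a (2 * a) x / x * Pr k x, ?_, ?_⟩
  · have h1 : Continuous (fun x => th a (2 * a) x / x) := (th_div_contDiff ha 0).continuous
    exact contDiff_zero.2 (h1.mul (Pr_cont hk))
  · filter_upwards [hf] with x hx hxa
    rw [th_one (by linarith) hxa.le, ← hx]
    unfold mx
    have : x ≠ 0 := by linarith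
    field_simp

lemma prim_Sm {m : ℕ} {f k : ℝ → ℝ} (hk : Adm k) (hf : mx f =ᵐ[volume] Pr k) {a : ℝ} (ha : 0 < a)
    (hs : Sm m a k) : Sm (m + 1) (2 * a) f := by
  obtain ⟨h, hh, he⟩ := hs
  set P : ℝ → ℝ := fun x => Pr k a + ∫ t in a..x, h t with hP
  have hhc : Continuous h := hh.continuous
  have hPd : ∀ x, HasDerivAt P (h x) x := by
    intro x
    have := intervalIntegral.integral_hasDerivAt_right (hhc.intervalIntegrable a x)
      (hhc.stronglyMeasurableAtFilter _ _) hhc.continuousAt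
    exact this.const_add _
  have hPc : ContDiff ℝ ((m : WithTop ℕ∞) + 1) P := by
    rw [contDiff_succ_iff_deriv]
    refine ⟨fun x => (hPd x).differentiableAt, by simp, ?_⟩
    have : deriv P = h := by funext x; exact (hPd x).deriv
    rw [this]; exact hh
  refine ⟨fun x => th a (2 * a) x / x * P x, ?_, ?_⟩
  · push_cast
    refine ContDiff.mul ?_ hPc
    have := th_div_contDiff ha ((m + 1 : ℕ) : ℕ∞)
    exact_mod_cast this
  · filter_upwards [hf] with x hx hxa
    have hax : a ≤ x := by linarith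
    have hPx : Pr k x = P x := by
      rw [hP]
      simp only
      unfold Pr
      rw [← intervalIntegral.integral_add_adjacent_intervals
        (hk.int.intervalIntegrable (a := 0) (b := a)) (hk.int.intervalIntegrable (a := a) (b := x))]
      congr 1
      rw [intervalIntegral.integral_of_le hax, intervalIntegral.integral_of_le hax]
      refine setIntegral_congr_ae measurableSet_Ioc ?_
      filter_upwards [he] with t ht ht'
      exact ht ht'.1
    rw [th_one (by linarith) hxa.le, ← hPx, ← hx]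
    unfold mx
    have : x ≠ 0 := by linarith
    field_simp

end Pool.Agent.H308R3.B
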