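import Pool.Agent.H308R3.B3
set_option autoImplicit false
open MeasureTheory Set Filter Topology

namespace Pool.Agent.H308R3.B

/-- exponential on the half line -/
noncomputable def Ee (c x : ℝ) : ℝ := if 0 < x then Real.exp (-(c * x)) else 0

lemma integral_exp_half {r : ℝ} (hr : 0 < r) :
    IntegrableOn (fun x : ℝ => Real.exp (-(r * x))) (Ioi 0) ∧
      ∫ x in Ioi (0 : ℝ), Real.exp (-(r * x)) = 1 / r := by
  have h1 : ∫ x in Ioi (0 : ℝ), Real.exp (-(r * x)) = 1 / r := by
    have := Real.integral_rpow_mul_exp_neg_mul_Ioi (a := 1) one_pos hr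
    simpa using this
  refine ⟨?_, h1⟩
  by_contra h
  rw [integral_undef h] at h1
  have : 0 < 1 / r := by positivity
  linarith

lemma Ee_eq_indicator (c : ℝ) : Ee c = (Ioi (0 : ℝ)).indicator (fun x => Real.exp (-(c * x))) := by
  funext x
  unfold Ee
  by_cases h : 0 < x
  · rw [if_pos h, indicator_of_mem (show x ∈ Ioi (0 : ℝ) from h)]
  · rw [if_neg h, indicator_of_notMem (show x ∉ Ioi (0 : ℝ) from h)]

lemma Adm_Ee {c : ℝ} (hc : 0 < c) : Adm (Ee c) := by
  refine ⟨?_, fun x hx => if_neg (not_lt.2 hx)⟩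
  rw [Ee_eq_indicator]
  exact (integrable_indicator_iff measurableSet_Ioi).2 (integral_exp_half hc).1

lemma LT_Ee {c b : ℝ} (hc : 0 < c) (hb : 0 ≤ b) : LT (Ee c) b = 1 / (b + c) := by
  unfold LT
  have : ex b (Ee c) = Ee (b + c) := by
    funext x
    unfold ex Ee
    split_ifs
    · rw [← Real.exp_add]; congr 1; ring
    · rw [mul_zero]
  rw [this, Ee_eq_indicator, integral_indicator measurableSet_Ioi, (integral_exp_half (by linarith)).2]

lemma ex_Pr {k : ℝ → ℝ} (hk : Adm k) (c : ℝ) : ex c (Pr k) = cv (ex c k) (Ee c) := by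
  funext x
  rw [cv_apply]
  unfold ex Ee
  have h1 : ∀ t, Real.exp (-(c * t)) * k t * (if 0 < x - t then Real.exp (-(c * (x - t))) else 0) =
      Real.exp (-(c * x)) * (Iio x).indicator k t := by
    intro t
    by_cases ht : t < x
    · rw [if_pos (by linarith), indicator_of_mem (show t ∈ Iio x from ht)]
      have : Real.exp (-(c * x)) = Real.exp (-(c * t)) * Real.exp (-(c * (x - t))) := by
        rw [← Real.exp_add]; congr 1; ring
      rw [this]; ring
    · rw [if_neg (by linarith), indicator_of_notMem (show t ∉ Iio x from ht)]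
      ring
  simp_rw [h1]
  rw [integral_const_mul]
  congr 1
  rw [integral_indicator measurableSet_Iio]
  rcases le_or_gt x 0 with hx | hx
  · rw [Pr_zero hk x hx]
    have : ∫ t in Iio x, k t = ∫ t in Iio x, (0 : ℝ) :=
      setIntegral_congr_fun measurableSet_Iio (fun t ht => hk.zero t (by
        have : t < x := ht
        linarith))
    rw [this]; simp
  · unfold Pr
    rw [intervalIntegral.integral_of_le hx.le, ← integral_Iic_eq_integral_Iio]
    have hsplit : Iic x = Iic 0 ∪ Ioc 0 x := (Iic_union_Ioc_eq_Iic hx.le).symm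
    rw [hsplit, setIntegral_union (by
      rw [Set.disjoint_left]; intro t ht ht'; exact absurd ht'.1 (not_lt.2 ht)) measurableSet_Ioc
      hk.int.integrableOn hk.int.integrableOn]
    have : ∫ t in Iic (0 : ℝ), k t = ∫ t in Iic (0 : ℝ), (0 : ℝ) :=
      setIntegral_congr_fun measurableSet_Iic (fun t ht => hk.zero t ht)
    rw [this]; simp

lemma Adm_ex_Pr {k : ℝ → ℝ} (hk : Adm k) {c : ℝ} (hc : 0 < c) : Adm (ex c (Pr k)) := by
  rw [ex_Pr hk]
  exact (hk.ex hc.le).cv (Adm_Ee hc)

lemma LT_Pr {k : ℝ → ℝ} (hk : Adm k) {b : ℝ} (hb : 0 < b) : LT (Pr k) b = LT k b / b := by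
  have h1 : LT (ex b (Pr k)) 0 = LT (ex b k) 0 * LT (Ee b) 0 := by
    rw [ex_Pr hk, LT_cv (hk.ex hb.le) (Adm_Ee hb) le_rfl]
  rw [LT_ex, LT_ex, LT_Ee hb le_rfl] at h1
  rw [zero_add] at h1
  rw [h1]; ring

lemma mx_cv {f g : ℝ → ℝ} (hf : Adm f) (hg : Adm g) (hf' : Adm (mx f)) (hg' : Adm (mx g)) :
    mx (cv f g) =ᵐ[volume] fun x => cv (mx f) g x + cv f (mx g) x := by
  have h1 := Integrable.ae_convolution_exists (ContinuousLinearMap.mul ℝ ℝ) (μ := volume)
    (ν := volume) hf'.int hg.int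
  have h2 := Integrable.ae_convolution_exists (ContinuousLinearMap.mul ℝ ℝ) (μ := volume)
    (ν := volume) hf.int hg'.int
  filter_upwards [h1, h2] with x hx hx'
  have hi : Integrable (fun t => mx f t * g (x - t)) := hx
  have hi' : Integrable (fun t => f t * mx g (x - t)) := hx'
  have h3 : mx (cv f g) x = x * cv f g x := rfl
  rw [h3, cv_apply, cv_apply, cv_apply, ← integral_const_mul, ← integral_add hi hi']
  congr 1
  funext t
  unfold mx
  ring

lemma Adm_of_ex {f : ℝ → ℝ} (hf : Adm (ex (-1) f)) : Adm f ∧ Adm (mx f) := by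
  have h1 : ex 1 (ex (-1) f) = f := by rw [ex_ex]; norm_num; rw [ex_zero]
  have h2 : Adm f := by
    have := hf.ex (b := 1) (by norm_num)
    rwa [h1] at this
  refine ⟨h2, ?_⟩
  have h3 : mx f = fun x => (max x 0 * Real.exp (-(max x 0))) * ex (-1) f x := by
    funext x
    unfold mx ex
    rcases le_or_gt x 0 with hx | hx
    · rw [h2.zero x hx, max_eq_right hx]; ring
    · rw [max_eq_left hx.le]
      have : Real.exp (-x) * Real.exp (-(-1 * x)) = 1 := by
        rw [← Real.exp_add]; simp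
      calc x * f x = x * f x * (Real.exp (-x) * Real.exp (-(-1 * x))) := by rw [this, mul_one]
        _ = _ := by ring
  rw [h3]
  refine hf.mul_bdd (by fun_prop) (fun x => ?_)
  have h0 : 0 ≤ max x 0 := le_max_right _ _
  rw [Real.norm_of_nonneg (by positivity)]
  have := Real.add_one_le_exp (max x 0)
  rw [Real.exp_neg, ← div_eq_mul_inv, div_le_one (Real.exp_pos _)]
  linarith

/-- the function whose primitive is `x H(x)` -/
noncomputable def KH (K H : ℝ → ℝ) : ℝ → ℝ := fun x => (K x + (-2) * cv H K x) + cv H (cv H K) x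

lemma Adm_KH {K H : ℝ → ℝ} (hK : Adm K) (hH : Adm H) : Adm (KH K H) :=
  (hK.add ((hH.cv hK).const_mul (-2))).add (hH.cv (hH.cv hK))

theorem mx_resolvent {F H K : ℝ → ℝ} (hF : Adm (ex (-1) F)) (hH : Adm (ex (-1) H))
    (hFH : ∀ b, 0 ≤ b → LT H b * (1 + LT F b) = LT F b) (hne : ∀ b, 0 ≤ b → 1 + LT F b ≠ 0)
    (hK : Adm K) (hFK : mx F =ᵐ[volume] Pr K) : mx H =ᵐ[volume] Pr (KH K H) := by
  obtain ⟨hF0, hFm⟩ := Adm_of_ex hF
  obtain ⟨hH0, hHm⟩ := Adm_of_ex hH
  have e1 : (fun x => H x + cv F H x) =ᵐ[volume] F := by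
    refine LT_inj (hH0.add (hF0.cv hH0)) hF0 0 (fun b hb _ => ?_)
    rw [LT_add hH0 (hF0.cv hH0) hb, LT_cv hF0 hH0 hb]
    have := hFH b hb
    linarith
  have e2 := mx_cv hF0 hH0 hFm hHm
  have e3 : (fun x => mx H x + (cv (mx F) H x + cv F (mx H) x)) =ᵐ[volume] mx F := by
    filter_upwards [e1, e2] with x h1 h2
    rw [← h2]
    unfold mx
    rw [← h1]; ring
  have e4 : ∀ b, 0 ≤ b → LT (mx H) b + (LT (mx F) b * LT H b + LT F b * LT (mx H) b) = LT (mx F) b := by
    intro b hb
    have h := LT_congr e3 b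
    rw [LT_add hHm ((hFm.cv hH0).add (hF0.cv hHm)) hb,
      LT_add (hFm.cv hH0) (hF0.cv hHm) hb, LT_cv hFm hH0 hb, LT_cv hF0 hHm hb] at h
    exact h
  have hKH := Adm_KH hK hH0
  have e5 : ex 1 (mx H) =ᵐ[volume] ex 1 (Pr (KH K H)) := by
    refine LT_inj (hHm.ex (by norm_num)) (Adm_ex_Pr hKH one_pos) 0 (fun b hb _ => ?_)
    rw [LT_ex, LT_ex, LT_Pr hKH (by linarith)]
    set c := b + 1 with hc
    have hc0 : 0 < c := by linarith
    have h1 := hFH c hc0.le
    have h2 := e4 c hc0.le
    have h3 := hne c hc0.le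
    have h4 : LT (mx F) c = LT K c / c := by rw [LT_congr hFK c, LT_Pr hK hc0]
    have h5 : LT (KH K H) c = LT K c * (1 - LT H c) ^ 2 := by
      unfold KH
      rw [LT_add (hK.add ((hH0.cv hK).const_mul (-2))) (hH0.cv (hH0.cv hK)) hc0.le,
        LT_add hK ((hH0.cv hK).const_mul (-2)) hc0.le, LT_const_mul, LT_cv hH0 hK hc0.le,
        LT_cv hH0 (hH0.cv hK) hc0.le, LT_cv hH0 hK hc0.le]
      ring
    rw [h5]
    have h6 : LT H c = LT F c / (1 + LT F c) := by
      rw [eq_div_iff h3]; exact h1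
    have h7 : 1 - LT H c = 1 / (1 + LT F c) := by
      rw [h6]; field_simp; ring
    have h8 : LT (mx H) c * (1 + LT F c) = LT (mx F) c * (1 - LT H c) := by linarith
    have h9 : LT (mx H) c = LT (mx F) c * (1 - LT H c) / (1 + LT F c) := by
      rw [eq_div_iff h3]; exact h8
    rw [h9, h4, h7]
    field_simp
  filter_upwards [e5] with x hx
  unfold ex at hx
  exact mul_left_cancel₀ (Real.exp_pos _).ne' hx

/-- bootstrapping of regularity -/
theorem boot {H K : ℝ → ℝ} {δ : ℝ} (hδ : 0 < δ) (hH : Adm H) (hK : Adm K)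
    (hKz : ∀ x, δ < x → K x = 0) (hHK : mx H =ᵐ[volume] Pr (KH K H)) (m : ℕ) :
    Sm m (20 ^ m * δ) H := by
  have hKH := Adm_KH hK hH
  induction m with
  | zero =>
    have := prim_Sm_zero hKH hHK (a := δ / 2) (by positivity)
    refine this.mono_a (le_of_eq ?_)
    ring
  | succ m ih =>
    set a : ℝ := 20 ^ m * δ with ha
    have ha0 : 0 < a := by positivity
    have hδa : δ ≤ a := by
      rw [ha]
      have : (1 : ℝ) ≤ 20 ^ m := one_le_pow₀ (by norm_num)
      nlinarith
    have sK : Sm m a K := Sm.of_zero (fun x hx => hKz x (by linarith))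
    have s1 : Sm m (4 * a) (cv H K) := by
      refine (cv_Sm hH hK ha0 ha0 ih sK).mono_a (le_of_eq (by ring))
    have s2 : Sm m (10 * a) (cv H (cv H K)) := by
      refine (cv_Sm hH (hH.cv hK) ha0 (by positivity) ih s1).mono_a (le_of_eq (by ring))
    have s3 : Sm m (10 * a) (KH K H) := by
      refine ((sK.mono_a (by linarith)).add ((s1.mono_a (by linarith)).const_mul (-2))).add s2
    have s4 := prim_Sm hKH hHK (a := 10 * a) (by positivity) s3
    refine s4.mono_a (le_of_eq ?_)
    rw [ha, pow_succ]; ring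

/-- product rule for primitives and the complementary cutoff -/
theorem cut_Pr {K : ℝ → ℝ} (hK : Adm K) {a b : ℝ} (hab : a < b) :
    ∃ K1 : ℝ → ℝ, Adm K1 ∧ (∀ x, b < x → K1 x = 0) ∧
      ∀ x, (1 - th a b x) * Pr K x = Pr K1 x := by
  set χ : ℝ → ℝ := fun x => 1 - th a b x with hχ
  have hχd : ContDiff ℝ 1 χ := by
    have := th_contDiff a b 1
    exact contDiff_const.sub (by exact_mod_cast this)
  have hdc : Continuous (deriv χ) := hχd.continuous_deriv le_rfl
  have hχa : ∀ x, x < a → deriv χ x = 0 := by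
    intro x hx
    have : χ =ᶠ[𝓝 x] fun _ => 1 := by
      filter_upwards [Iio_mem_nhds hx] with y hy
      rw [hχ]; simp only
      rw [th_zero hab (le_of_lt hy), sub_zero]
    rw [this.deriv_eq]; simp
  have hχb : ∀ x, b < x → deriv χ x = 0 := by
    intro x hx
    have : χ =ᶠ[𝓝 x] fun _ => 0 := by
      filter_upwards [Ioi_mem_nhds hx] with y hy
      rw [hχ]; simp only
      rw [th_one hab (le_of_lt hy), sub_self]
    rw [this.deriv_eq]; simp
  have hPc := Pr_cont hK
  have hχb1 : ∀ x, ‖χ x‖ ≤ 1 := by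
    intro x
    rw [hχ]; simp only
    rw [Real.norm_of_nonneg (by linarith [th_le_one a b x])]
    linarith [th_nonneg a b x]
  have hA1 : Adm (fun x => χ x * K x) := hK.mul_bdd hχd.continuous hχb1
  have hA2 : Adm (fun x => deriv χ x * Pr K x) := by
    refine ⟨?_, fun x hx => by rw [Pr_zero hK x hx, mul_zero]⟩
    have hcont : Continuous (fun x => deriv χ x * Pr K x) := hdc.mul hPc
    refine hcont.integrable_of_hasCompactSupport ?_
    refine HasCompactSupport.of_support_subset_isCompact (isCompact_Icc (a := a) (b := b)) ?_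
    intro x hx
    by_contra hx'
    apply hx
    simp only
    rcases lt_or_ge x a with h1 | h1
    · rw [hχa x h1, zero_mul]
    · rcases lt_or_ge b x with h2 | h2
      · rw [hχb x h2, zero_mul]
      · exact absurd ⟨h1, h2⟩ hx'
  refine ⟨fun x => deriv χ x * Pr K x + χ x * K x, hA2.add hA1, ?_, ?_⟩
  · intro x hx
    simp only
    rw [hχb x hx, hχ]
    simp only
    rw [th_one hab hx.le]; ring
  · intro x
    have hac1 : AbsolutelyContinuousOnInterval χ 0 x := hχd.contDiffOn.absolutelyContinuousOnInterval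
    have hint : IntervalIntegrable K volume 0 x := hK.int.intervalIntegrable
    have hac2 : AbsolutelyContinuousOnInterval (fun x => ∫ t in (0 : ℝ)..x, K t) 0 x :=
      hint.absolutelyContinuousOnInterval_intervalIntegral (by simp)
    have h1 := hac1.integral_deriv_mul_eq_sub hac2
    simp only [intervalIntegral.integral_same, mul_zero, sub_zero] at h1
    have h2 : (1 - th a b x) * Pr K x = χ x * ∫ t in (0 : ℝ)..x, K t := rfl
    rw [h2, ← h1]
    unfold Pr
    refine intervalIntegral.integral_congr_ae ?_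
    filter_upwards [hint.ae_hasDerivAt_integral] with t ht ht'
    have h3 := ht (uIoc_subset_uIcc ht') 0 (by simp)
    rw [h3.deriv]

end Pool.Agent.H308R3.B
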