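import Pool.Agent.H308R3.B4
set_option autoImplicit false
open MeasureTheory Set Filter Topology

namespace Pool.Agent.H308R3.B

lemma one_add_LT_ne {F : ℝ → ℝ} (hF : Adm (ex (-1) F)) {q : ℝ} (hq : ∫ x, ‖ex (-1) F x‖ ≤ q)
    (hq1 : q < 1) {b : ℝ} (hb : 0 ≤ b) : 0 < 1 + LT F b := by
  have h1 : |LT (ex (-1) F) (b + 1)| ≤ ∫ x, ‖ex (-1) F x‖ := abs_LT_le hF (by linarith)
  rw [LT_ex] at h1
  have : b + 1 + -1 = b := by ring
  rw [this] at h1
  have h2 : |LT F b| < 1 := by linarith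
  rw [abs_lt] at h2
  linarith [h2.1]

/-- Smoothness away from `0` passes from a kernel to its resolvent. -/
theorem transfer {F H K : ℝ → ℝ} (hF : Adm (ex (-1) F)) (hH : Adm (ex (-1) H))
    {q : ℝ} (hq : ∫ x, ‖ex (-1) F x‖ ≤ q) (hq1 : q < 1)
    (hFH : ∀ b, 0 ≤ b → LT H b * (1 + LT F b) = LT F b)
    (hK : Adm K) (hFK : mx F =ᵐ[volume] Pr K) (m : ℕ) (hS : ∀ a, 0 < a → Sm m a F) :
    ∀ a, 0 < a → Sm m a H := by
  intro ε hε
  set δ : ℝ := ε / 20 ^ m with hδd
  have hδ : 0 < δ := by positivity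
  have hδε : 20 ^ m * δ = ε := by rw [hδd]; field_simp
  have hlt : δ / 2 < δ := by linarith
  obtain ⟨hF0, hFm⟩ := Adm_of_ex hF
  obtain ⟨hH0, hHm⟩ := Adm_of_ex hH
  set χ : ℝ → ℝ := fun x => 1 - th (δ / 2) δ x with hχ
  have hχc : Continuous χ := continuous_const.sub (th_cont _ _)
  have hχb : ∀ x, ‖χ x‖ ≤ 1 := by
    intro x
    rw [hχ]; simp only
    rw [Real.norm_of_nonneg (by linarith [th_le_one (δ / 2) δ x])]
    linarith [th_nonneg (δ / 2) δ x]
  set F1 : ℝ → ℝ := fun x => χ x * F x with hF1d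
  have hexF1 : ex (-1) F1 = fun x => χ x * ex (-1) F x := by
    funext x; unfold ex; rw [hF1d]; ring
  have hF1 : Adm (ex (-1) F1) := by
    rw [hexF1]; exact hF.mul_bdd hχc hχb
  have hqF1 : ∫ x, ‖ex (-1) F1 x‖ ≤ q := by
    refine le_trans (integral_mono hF1.int.norm hF.int.norm (fun x => ?_)) hq
    rw [hexF1]
    simp only
    rw [norm_mul]
    calc ‖χ x‖ * ‖ex (-1) F x‖ ≤ 1 * ‖ex (-1) F x‖ := by gcongr; exact hχb x
      _ = _ := one_mul _
  obtain ⟨H1, hH1, -, hFH1⟩ := resolvent hF1 hqF1 hq1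
  obtain ⟨hF10, -⟩ := Adm_of_ex hF1
  obtain ⟨hH10, -⟩ := Adm_of_ex hH1
  obtain ⟨K1, hK1, hK1z, hK1p⟩ := cut_Pr hK hlt
  have hF1K1 : mx F1 =ᵐ[volume] Pr K1 := by
    filter_upwards [hFK] with x hx
    rw [← hK1p x, ← hx]
    unfold mx
    rw [hF1d, hχ]; ring
  have hmx := mx_resolvent hF1 hH1 (fun b hb => hFH1 b (by linarith))
    (fun b hb => (one_add_LT_ne hF1 hqF1 hq1 hb).ne') hK1 hF1K1
  have hb1 := boot hδ hH10 hK1 hK1z hmx m
  rw [hδε] at hb1
  obtain ⟨v, hv, hvc, hve⟩ := (hS (δ / 2) (by positivity)).decomp hF0 (by positivity) hlt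
  have hFe : F =ᵐ[volume] fun x => F1 x + v x := by
    filter_upwards [hve] with x hx
    rw [hx, hF1d, hχ]; ring
  have hc1 : Adm (cv H1 v) := hH10.cv hv
  have hc2 : Adm (cv v H) := hv.cv hH0
  have hc3 : Adm (cv H1 (cv v H)) := hH10.cv hc2
  have key : H =ᵐ[volume] fun x => H1 x + (((v x + (-1) * cv H1 v x) + (-1) * cv v H x) +
      cv H1 (cv v H) x) := by
    refine LT_inj hH0 (hH10.add (((hv.add (hc1.const_mul (-1))).add (hc2.const_mul (-1))).add hc3)) 0
      (fun b hb _ => ?_)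
    rw [LT_add hH10 (((hv.add (hc1.const_mul (-1))).add (hc2.const_mul (-1))).add hc3) hb,
      LT_add ((hv.add (hc1.const_mul (-1))).add (hc2.const_mul (-1))) hc3 hb,
      LT_add (hv.add (hc1.const_mul (-1))) (hc2.const_mul (-1)) hb,
      LT_add hv (hc1.const_mul (-1)) hb, LT_const_mul, LT_const_mul, LT_cv hH10 hv hb,
      LT_cv hv hH0 hb, LT_cv hH10 hc2 hb, LT_cv hv hH0 hb]
    have h1 := hFH b hb
    have h2 := hFH1 b (by linarith)
    have h3 : LT F b = LT F1 b + LT v b := by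
      rw [LT_congr hFe b, LT_add hF10 hv hb]
    have h4 := (one_add_LT_ne hF hq hq1 hb).ne'
    have h5 := (one_add_LT_ne hF1 hqF1 hq1 hb).ne'
    rw [h3] at h1 h4
    have h6 : LT H b = (LT F1 b + LT v b) / (1 + (LT F1 b + LT v b)) := by
      rw [eq_div_iff h4]; exact h1
    have h7 : LT H1 b = LT F1 b / (1 + LT F1 b) := by
      rw [eq_div_iff h5]; exact h2
    rw [h6, h7]
    field_simp
    ring
  refine Sm.congr ?_ key
  refine hb1.add ?_
  have d1 : ContDiff ℝ m (cv H1 v) := by rw [cv_comm]; exact cv_contDiff hvc hv hH10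
  have d2 : ContDiff ℝ m (cv v H) := cv_contDiff hvc hv hH0
  have d3 : ContDiff ℝ m (cv H1 (cv v H)) := by rw [cv_comm]; exact cv_contDiff d2 hc2 hH10
  exact (((Sm.of_contDiff hvc _).add ((Sm.of_contDiff d1 _).const_mul (-1))).add
    ((Sm.of_contDiff d2 _).const_mul (-1))).add (Sm.of_contDiff d3 _)

lemma Sm.neg' {m : ℕ} {a : ℝ} {f : ℝ → ℝ} (hf : Sm m a f) : Sm m a (fun x => - f x) := by
  have := hf.const_mul (-1)
  simpa using this

lemma ex_neg (c : ℝ) (f : ℝ → ℝ) : ex c (fun x => - f x) = fun x => - ex c f x := by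
  funext x; unfold ex; ring

/-- Equivalence for a kernel `F` and its resolvent `H`. -/
theorem transfer_iff {F H K : ℝ → ℝ} (hF : Adm (ex (-1) F)) (hH : Adm (ex (-1) H))
    (hqF : ∫ x, ‖ex (-1) F x‖ ≤ 1 / 3) (hqH : ∫ x, ‖ex (-1) H x‖ ≤ 1 / 2)
    (hFH : ∀ b, 0 ≤ b → LT H b * (1 + LT F b) = LT F b)
    (hK : Adm K) (hFK : mx F =ᵐ[volume] Pr K) (m : ℕ) :
    (∀ a, 0 < a → Sm m a F) ↔ (∀ a, 0 < a → Sm m a H) := by
  have hne : ∀ b, 0 ≤ b → 1 + LT F b ≠ 0 :=
    fun b hb => (one_add_LT_ne hF hqF (by norm_num) hb).ne'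
  constructor
  · exact transfer hF hH hqF (by norm_num) hFH hK hFK m
  · intro hS
    obtain ⟨hH0, hHm⟩ := Adm_of_ex hH
    have hKH := Adm_KH hK hH0
    have hmx := mx_resolvent hF hH hFH hne hK hFK
    have hF' : Adm (ex (-1) (fun x => - F x)) := by rw [ex_neg]; exact hF.neg
    have hH' : Adm (ex (-1) (fun x => - H x)) := by rw [ex_neg]; exact hH.neg
    have key := transfer (F := fun x => - H x) (H := fun x => - F x) (K := fun x => - KH K H x)
      hH' hF' (q := 1 / 2) (by rw [ex_neg]; simpa using hqH) (by norm_num) ?_ hKH.neg ?_ m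
      (fun a ha => (hS a ha).neg')
    · intro a ha
      have := (key a ha).neg'
      simpa using this
    · intro b hb
      rw [LT_neg, LT_neg]
      have := hFH b hb
      linarith
    · filter_upwards [hmx] with x hx
      have h1 : mx (fun x => - H x) x = - mx H x := by unfold mx; ring
      have h2 : Pr (fun x => - KH K H x) x = - Pr (KH K H) x := by
        unfold Pr; rw [intervalIntegral.integral_neg]
      rw [h1, h2, hx]

end Pool.Agent.H308R3.B
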