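import Pool.Agent.H308R3.B5
set_option autoImplicit false
open MeasureTheory Set Filter Topology

namespace Pool.Agent.H308R3.B

lemma contDiff_cut {m : ℕ} {f : ℝ → ℝ} (h : ContDiffOn ℝ m f (Ioi 0)) {a b : ℝ} (ha : 0 < a)
    (hab : a < b) : ContDiff ℝ m (fun x => th a b x * f x) := by
  rw [contDiff_iff_contDiffAt]
  intro x
  rcases lt_or_ge x a with hx | hx
  · have h1 : (fun x => th a b x * f x) =ᶠ[𝓝 x] fun _ => 0 := by
      filter_upwards [Iio_mem_nhds hx] with y hy
      rw [th_zero hab (le_of_lt hy), zero_mul]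
    exact contDiffAt_const.congr_of_eventuallyEq h1
  · have hx0 : x ∈ Ioi (0 : ℝ) := lt_of_lt_of_le ha hx
    have h1 : ContDiffAt ℝ m (th a b) x := by
      have := (th_contDiff a b m).contDiffAt (x := x)
      exact_mod_cast this
    exact h1.mul (h.contDiffAt (isOpen_Ioi.mem_nhds hx0))

lemma Sm_of_contDiffOn {m : ℕ} {f : ℝ → ℝ} (h : ContDiffOn ℝ m f (Ioi 0)) :
    ∀ a, 0 < a → Sm m a f := by
  intro a ha
  refine ⟨fun x => th (a / 2) a x * f x, contDiff_cut h (by positivity) (by linarith), ?_⟩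
  refine Eventually.of_forall (fun x hx => ?_)
  simp only
  rw [th_one (by linarith) hx.le, one_mul]

lemma contDiffOn_of_forall {m : ℕ} {f : ℝ → ℝ}
    (h : ∀ a, 0 < a → ContDiffOn ℝ m f (Ioi a)) : ContDiffOn ℝ m f (Ioi 0) := by
  intro x hx
  have hx0 : (0 : ℝ) < x := hx
  have h1 := h (x / 2) (by positivity)
  exact (h1.contDiffAt (isOpen_Ioi.mem_nhds (show x / 2 < x by linarith))).contDiffWithinAt

lemma contDiffOn_of_Sm {m : ℕ} {f : ℝ → ℝ} (hf : ContinuousOn f (Ioi 0))
    (h : ∀ a, 0 < a → Sm m a f) : ContDiffOn ℝ m f (Ioi 0) := by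
  refine contDiffOn_of_forall (fun a ha => ?_)
  obtain ⟨g, hg, he⟩ := h a ha
  have hae : f =ᵐ[volume.restrict (Ioi a)] g := by
    filter_upwards [ae_restrict_mem measurableSet_Ioi, ae_restrict_of_ae he] with x hx hx'
    exact hx' hx
  have heq : EqOn f g (Ioi a) := Measure.eqOn_open_of_ae_eq hae isOpen_Ioi
    (hf.mono (Ioi_subset_Ioi ha.le)) hg.continuous.continuousOn
  exact hg.contDiffOn.congr heq

lemma contDiffOn_iff_Sm {m : ℕ} {f : ℝ → ℝ} (hf : ContinuousOn f (Ioi 0)) :
    ContDiffOn ℝ m f (Ioi 0) ↔ ∀ a, 0 < a → Sm m a f :=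
  ⟨Sm_of_contDiffOn, contDiffOn_of_Sm hf⟩

/-- `N` is a primitive of `R` on `(0, ∞)` -/
lemma prim_iff {m : ℕ} {N R : ℝ → ℝ}
    (hR : ∀ x y, 0 < x → 0 < y → IntervalIntegrable R volume x y)
    (hN : ∀ x y, 0 < x → 0 < y → N y - N x = ∫ t in x..y, R t) :
    ContDiffOn ℝ (m + 1 : ℕ) N (Ioi 0) ↔ ∀ a, 0 < a → Sm m a R := by
  constructor
  · intro h
    have hd : ContDiffOn ℝ m (deriv N) (Ioi 0) := by
      have h1 : ContDiffOn ℝ ((m : WithTop ℕ∞) + 1) N (Ioi 0) := by exact_mod_cast h
      exact ((contDiffOn_succ_iff_deriv_of_isOpen isOpen_Ioi).1 h1).2.2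
    have hae : ∀ᵐ x, 0 < x → R x = deriv N x := by
      have h1 : ∀ n : ℕ, ∀ᵐ x, x ∈ uIcc (1 / ((n : ℝ) + 1)) ((n : ℝ) + 1) → R x = deriv N x := by
        intro n
        have hp : (0 : ℝ) < 1 / ((n : ℝ) + 1) := by positivity
        have hp' : (0 : ℝ) < (n : ℝ) + 1 := by positivity
        filter_upwards [(hR _ _ hp hp').ae_hasDerivAt_integral] with x hx hx'
        have h2 := hx hx' (1 / ((n : ℝ) + 1)) (by simp)
        have hx0 : 0 < x := by
          rcases le_total (1 / ((n : ℝ) + 1)) ((n : ℝ) + 1) with h3 | h3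
          · rw [uIcc_of_le h3] at hx'; linarith [hx'.1]
          · rw [uIcc_of_ge h3] at hx'; linarith [hx'.1]
        have h3 : HasDerivAt N (R x) x := by
          refine (h2.const_add (N (1 / ((n : ℝ) + 1)))).congr_of_eventuallyEq ?_
          filter_upwards [Ioi_mem_nhds hx0] with y hy
          have := hN _ y hp hy
          linarith
        exact h3.deriv.symm
      rw [← ae_all_iff] at h1
      filter_upwards [h1] with x hx hx0
      obtain ⟨n, hn⟩ := exists_nat_gt (max x (1 / x))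
      refine hx n ?_
      have h3 : x < (n : ℝ) := lt_of_le_of_lt (le_max_left _ _) hn
      have h4 : 1 / x < (n : ℝ) := lt_of_le_of_lt (le_max_right _ _) hn
      refine Icc_subset_uIcc ⟨?_, by linarith⟩
      rw [div_le_iff₀ (by positivity)]
      rw [div_lt_iff₀ hx0] at h4
      nlinarith
    intro a ha
    obtain ⟨g, hg, he⟩ := Sm_of_contDiffOn hd a ha
    refine ⟨g, hg, ?_⟩
    filter_upwards [hae, he] with x h1 h2 hx
    rw [h1 (by linarith), h2 hx]
  · intro h
    refine contDiffOn_of_forall (fun a ha => ?_)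
    obtain ⟨r, hr, he⟩ := h a ha
    set b : ℝ := a + 1 with hb
    set P : ℝ → ℝ := fun x => N b + ∫ t in b..x, r t with hP
    have hrc : Continuous r := hr.continuous
    have hPd : ∀ x, HasDerivAt P (r x) x := by
      intro x
      have := intervalIntegral.integral_hasDerivAt_right (hrc.intervalIntegrable b x)
        (hrc.stronglyMeasurableAtFilter _ _) hrc.continuousAt
      exact this.const_add _
    have hPc : ContDiff ℝ ((m : WithTop ℕ∞) + 1) P := by
      rw [contDiff_succ_iff_deriv]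
      refine ⟨fun x => (hPd x).differentiableAt, by simp, ?_⟩
      have : deriv P = r := by funext x; exact (hPd x).deriv
      rw [this]; exact hr
    have heq : EqOn N P (Ioi a) := by
      intro x hx
      have hx' : a < x := hx
      have h1 := hN b x (by linarith) (by linarith)
      have h2 : ∫ t in b..x, R t = ∫ t in b..x, r t := by
        refine intervalIntegral.integral_congr_ae ?_
        filter_upwards [he] with t ht ht'
        apply ht
        rcases le_total b x with h3 | h3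
        · rw [uIoc_of_le h3] at ht'; linarith [ht'.1]
        · rw [uIoc_of_ge h3] at ht'; linarith [ht'.1]
      rw [hP]
      simp only
      rw [← h2, ← h1]; ring
    have : ContDiffOn ℝ ((m : WithTop ℕ∞) + 1) N (Ioi a) := hPc.contDiffOn.congr heq
    exact_mod_cast this

lemma antitone_eq {T u : ℝ → ℝ} {a : ℝ} (hT : ∀ x y, a < x → x ≤ y → T y ≤ T x)
    (hu : Continuous u) (h : ∀ᵐ x, a < x → T x = u x) : ∀ x, a < x → T x = u x := by
  intro x hx
  have hnull : ∀ c d : ℝ, c < d → (∀ y ∈ Ioo c d, ¬ (a < y → T y = u y)) → False := by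
    intro c d hcd hy
    have h1 : volume {y | ¬ (a < y → T y = u y)} = 0 := h
    have h2 : volume (Ioo c d) ≤ 0 := by
      rw [← h1]; exact measure_mono hy
    rw [Real.volume_Ioo] at h2
    have h3 : ENNReal.ofReal (d - c) = 0 := le_antisymm h2 bot_le
    rw [ENNReal.ofReal_eq_zero] at h3
    linarith
  rcases lt_trichotomy (T x) (u x) with hlt | heq | hgt
  · exfalso
    have h1 : ∀ᶠ y in 𝓝 x, T x < u y := hu.continuousAt.eventually (lt_mem_nhds hlt)
    obtain ⟨ε, hε, h2⟩ := Metric.eventually_nhds_iff.1 h1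
    refine hnull x (x + ε) (by linarith) (fun y hy hy' => ?_)
    have h3 := h2 (y := y) (by rw [Real.dist_eq, abs_lt]; constructor <;> linarith [hy.1, hy.2])
    have h4 := hT x y hx hy.1.le
    have h5 := hy' (by linarith [hy.1])
    linarith
  · exact heq
  · exfalso
    have h1 : ∀ᶠ y in 𝓝 x, u y < T x := hu.continuousAt.eventually (gt_mem_nhds hgt)
    obtain ⟨ε, hε, h2⟩ := Metric.eventually_nhds_iff.1 h1
    refine hnull (max a (x - ε)) x (max_lt hx (by linarith)) (fun y hy hy' => ?_)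
    have hya : a < y := lt_of_le_of_lt (le_max_left _ _) hy.1
    have hyε : x - ε < y := lt_of_le_of_lt (le_max_right _ _) hy.1
    have h3 := h2 (y := y) (by rw [Real.dist_eq, abs_lt]; constructor <;> linarith [hy.2])
    have h4 := hT y x hya hy.2.le
    have h5 := hy' hya
    linarith

lemma antitone_iff {m : ℕ} {T : ℝ → ℝ} (hT : ∀ x y, 0 < x → x ≤ y → T y ≤ T x) :
    ContDiffOn ℝ m T (Ioi 0) ↔ ∀ a, 0 < a → Sm m a T := by
  refine ⟨Sm_of_contDiffOn, fun h => contDiffOn_of_forall (fun a ha => ?_)⟩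
  obtain ⟨u, hu, he⟩ := h a ha
  have := antitone_eq (a := a) (fun x y hx hxy => hT x y (by linarith) hxy) hu.continuous he
  exact hu.contDiffOn.congr (fun x hx => this x hx)

lemma Sm.mul_smooth {m : ℕ} {a : ℝ} {f c : ℝ → ℝ} (hf : Sm m a f) (hc : ContDiff ℝ m c) :
    Sm m a (fun x => c x * f x) := by
  obtain ⟨u, hu, he⟩ := hf
  refine ⟨fun x => c x * u x, hc.mul hu, ?_⟩
  filter_upwards [he] with x hx ha
  rw [hx ha]

end Pool.Agent.H308R3.B
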