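import Pool.Agent.H308R3.B6
set_option autoImplicit false
open MeasureTheory Set Filter Topology

namespace Pool.Agent.H308R3.B

/-- kernel of the double tail -/
noncomputable def kap (x z : ℝ) : ℝ := (if -1 < z then -z else 0) - min x (-z)

lemma meas_kap : Measurable (Function.uncurry kap) := by
  unfold kap Function.uncurry
  refine Measurable.sub ?_ (by fun_prop)
  exact Measurable.ite (measurableSet_lt measurable_const measurable_snd) (by fun_prop) measurable_const

/-- the weight `min(1, z²)` -/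
noncomputable def wt (z : ℝ) : ℝ := min 1 (z ^ 2)

lemma wt_nonneg (z : ℝ) : 0 ≤ wt z := le_min zero_le_one (sq_nonneg z)

lemma wt_eq_small {z : ℝ} (h : -1 < z) (h0 : z < 0) : wt z = z ^ 2 := by
  unfold wt
  apply min_eq_right
  nlinarith

lemma wt_eq_big {z : ℝ} (h : z ≤ -1) : wt z = 1 := by
  unfold wt
  apply min_eq_left
  nlinarith

lemma kap_bound {x z : ℝ} (hx : 0 < x) (hz : z < 0) : |kap x z| ≤ (x + 1 / (4 * x)) * wt z := by
  unfold kap
  by_cases h : -1 < z
  · rw [if_pos h, wt_eq_small h hz]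
    have h1 : 0 ≤ -z - min x (-z) := by linarith [min_le_right x (-z)]
    rw [abs_of_nonneg h1]
    rcases le_total x (-z) with h2 | h2
    · rw [min_eq_left h2]
      have h3 : -z - x ≤ 1 / (4 * x) * z ^ 2 := by
        rw [div_mul_eq_mul_div, one_mul, le_div_iff₀ (by positivity)]
        nlinarith [sq_nonneg (z + 2 * x)]
      have h4 : 0 ≤ x * z ^ 2 := by positivity
      nlinarith
    · rw [min_eq_right h2, sub_self]
      positivity
  · rw [if_neg h, wt_eq_big (not_lt.1 h), mul_one, zero_sub, abs_neg,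
      abs_of_nonneg (le_min hx.le (by linarith))]
    have : 0 ≤ 1 / (4 * x) := by positivity
    linarith [min_le_left x (-z)]

/-- integral of the kernel -/
noncomputable def psi (b z : ℝ) : ℝ := (Real.exp (b * z) - 1 - (if -1 < z then b * z else 0)) / b ^ 2

lemma min_LT {b y : ℝ} (hb : 0 < b) (hy : 0 < y) :
    IntegrableOn (fun x => Real.exp (-(b * x)) * min x y) (Ioi 0) ∧
    ∫ x in Ioi (0 : ℝ), Real.exp (-(b * x)) * min x y = (1 - Real.exp (-(b * y))) / b ^ 2 := by
  set k : ℝ → ℝ := (Ioc 0 y).indicator (fun _ => 1) with hk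
  have hkA : Adm k := by
    refine ⟨?_, fun x hx => ?_⟩
    · rw [hk, integrable_indicator_iff measurableSet_Ioc]
      exact integrableOn_const (by simp)
    · rw [hk, indicator_of_notMem]
      intro h; exact absurd h.1 (not_lt.2 hx)
  have hPr : ∀ x, 0 < x → Pr k x = min x y := by
    intro x hx
    unfold Pr
    rw [intervalIntegral.integral_of_le hx.le, hk, setIntegral_indicator measurableSet_Ioc,
      Ioc_inter_Ioc]
    simp only [max_self, integral_const, smul_eq_mul, mul_one]
    rw [measureReal_restrict_apply_univ, Real.volume_real_Ioc_of_le (le_min hx.le hy.le), sub_zero]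
  have hA := Adm_ex_Pr hkA hb
  have hcongr : ∀ x ∈ Ioi (0 : ℝ), ex b (Pr k) x = Real.exp (-(b * x)) * min x y := by
    intro x hx
    unfold ex
    rw [hPr x hx]
  refine ⟨(integrableOn_congr_fun hcongr measurableSet_Ioi).1 hA.int.integrableOn, ?_⟩
  have h1 := LT_Pr hkA hb
  have h2 : LT (Pr k) b = ∫ x in Ioi (0 : ℝ), Real.exp (-(b * x)) * min x y := by
    unfold LT
    rw [← setIntegral_congr_fun measurableSet_Ioi hcongr, ← integral_indicator measurableSet_Ioi]
    congr 1
    funext x
    by_cases hx : x ∈ Ioi (0 : ℝ)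
    · rw [indicator_of_mem hx]
    · rw [indicator_of_notMem hx]
      exact hA.zero x (not_lt.1 hx)
  have h3 : LT k b = (1 - Real.exp (-(b * y))) / b := by
    unfold LT
    have : ex b k = (Ioc 0 y).indicator (fun x => Real.exp (-(b * x))) := by
      funext x
      unfold ex
      rw [hk]
      by_cases hx : x ∈ Ioc 0 y
      · rw [indicator_of_mem hx, indicator_of_mem hx, mul_one]
      · rw [indicator_of_notMem hx, indicator_of_notMem hx, mul_zero]
    rw [this, integral_indicator measurableSet_Ioc, ← intervalIntegral.integral_of_le hy.le]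
    have h4 : ∀ x ∈ uIcc 0 y, HasDerivAt (fun x => -(1 / b) * Real.exp (-(b * x)))
        (Real.exp (-(b * x))) x := by
      intro x _
      have h5 : HasDerivAt (fun x : ℝ => -(b * x)) (-(b * 1)) x := ((hasDerivAt_id' x).const_mul b).fun_neg
      refine (h5.exp.const_mul (-(1 / b))).congr_deriv ?_
      field_simp
    rw [intervalIntegral.integral_eq_sub_of_hasDerivAt h4
      ((by fun_prop : Continuous fun x : ℝ => Real.exp (-(b * x))).intervalIntegrable _ _)]
    simp
    field_simp
    ring
  rw [← h2, h1, h3]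
  field_simp

lemma kap_LT {b z : ℝ} (hb : 0 < b) (hz : z < 0) :
    IntegrableOn (fun x => Real.exp (-(b * x)) * kap x z) (Ioi 0) ∧
    ∫ x in Ioi (0 : ℝ), Real.exp (-(b * x)) * kap x z = psi b z := by
  obtain ⟨h1, h2⟩ := min_LT hb (show 0 < -z by linarith)
  obtain ⟨h3, h4⟩ := integral_exp_half hb
  have he : (fun x => Real.exp (-(b * x)) * kap x z) = fun x =>
      (if -1 < z then -z else 0) * Real.exp (-(b * x)) - Real.exp (-(b * x)) * min x (-z) := by
    funext x; unfold kap; ring
  rw [he]
  refine ⟨(h3.const_mul _).sub h1, ?_⟩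
  rw [integral_sub (h3.const_mul _) h1, integral_const_mul, h2, h4]
  unfold psi
  have h5 : -(b * -z) = b * z := by ring
  rw [h5]
  split_ifs with h
  · field_simp
    ring
  · field_simp
    ring

lemma kap_sign {z : ℝ} : (∀ x : ℝ, 0 ≤ x → 0 ≤ kap x z) ∨ (∀ x : ℝ, 0 ≤ x → z < 0 → kap x z ≤ 0) := by
  unfold kap
  by_cases h : -1 < z
  · left
    intro x _
    rw [if_pos h]
    linarith [min_le_right x (-z)]
  · right
    intro x hx hz
    rw [if_neg h]
    have : 0 ≤ min x (-z) := le_min hx (by linarith)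
    linarith

lemma norm_kap_LT {b z : ℝ} (hb : 0 < b) (hz : z < 0) :
    ∫ x in Ioi (0 : ℝ), ‖Real.exp (-(b * x)) * kap x z‖ = |psi b z| := by
  obtain ⟨-, h2⟩ := kap_LT hb hz
  rcases kap_sign (z := z) with h | h
  · have h3 : ∫ x in Ioi (0 : ℝ), ‖Real.exp (-(b * x)) * kap x z‖ =
        ∫ x in Ioi (0 : ℝ), Real.exp (-(b * x)) * kap x z := by
      refine setIntegral_congr_fun measurableSet_Ioi (fun x hx => ?_)
      have hx' : (0 : ℝ) < x := hx
      rw [Real.norm_of_nonneg (mul_nonneg (Real.exp_pos _).le (h x hx'.le))]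
    rw [h3, h2, abs_of_nonneg]
    rw [← h2]
    refine setIntegral_nonneg measurableSet_Ioi (fun x hx => ?_)
    have hx' : (0 : ℝ) < x := hx
    exact mul_nonneg (Real.exp_pos _).le (h x hx'.le)
  · have h3 : ∫ x in Ioi (0 : ℝ), ‖Real.exp (-(b * x)) * kap x z‖ =
        ∫ x in Ioi (0 : ℝ), -(Real.exp (-(b * x)) * kap x z) := by
      refine setIntegral_congr_fun measurableSet_Ioi (fun x hx => ?_)
      have hx' : (0 : ℝ) < x := hx
      rw [Real.norm_of_nonpos (mul_nonpos_of_nonneg_of_nonpos (Real.exp_pos _).le (h x hx'.le hz))]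
    rw [h3, integral_neg, h2, abs_of_nonpos]
    rw [← h2]
    refine setIntegral_nonpos measurableSet_Ioi (fun x hx => ?_)
    have hx' : (0 : ℝ) < x := hx
    exact mul_nonpos_of_nonneg_of_nonpos (Real.exp_pos _).le (h x hx'.le hz)

lemma psi_bound {b z : ℝ} (hb : 0 < b) (hz : z < 0) : |psi b z| ≤ (1 + 1 / b ^ 2) * wt z := by
  unfold psi
  by_cases h : -1 < z
  · rw [if_pos h, wt_eq_small h hz]
    have h1 : 0 ≤ Real.exp (b * z) - 1 - b * z := by
      have := Real.add_one_le_exp (b * z); linarith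
    have h2 : Real.exp (b * z) - 1 - b * z ≤ b ^ 2 * z ^ 2 := by
      set x := -(b * z) with hx
      have hx0 : 0 < x := by rw [hx]; nlinarith
      have h3 : b * z = -x := by rw [hx]; ring
      rw [h3]
      have h4 : Real.exp (-x) * (1 + x) ≤ 1 := by
        have h5 := Real.add_one_le_exp x
        calc Real.exp (-x) * (1 + x) ≤ Real.exp (-x) * Real.exp x := by
              gcongr; linarith
          _ = 1 := by rw [← Real.exp_add]; simp
      have h6 : (1 - x + x ^ 2) * (1 + x) ≥ 1 := by nlinarith [pow_pos hx0 3]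
      have h7 : Real.exp (-x) ≤ 1 - x + x ^ 2 := by
        have h8 : 0 < 1 + x := by linarith
        nlinarith
      have h9 : b ^ 2 * z ^ 2 = x ^ 2 := by rw [hx]; ring
      rw [h9]; linarith
    rw [abs_of_nonneg (by positivity), div_le_iff₀ (by positivity)]
    have h3 : (1 + 1 / b ^ 2) * z ^ 2 * b ^ 2 = b ^ 2 * z ^ 2 + z ^ 2 := by
      field_simp
    rw [h3]
    nlinarith [sq_nonneg z]
  · rw [if_neg h, wt_eq_big (not_lt.1 h), sub_zero, mul_one]
    have h1 : Real.exp (b * z) ≤ 1 := by
      rw [Real.exp_le_one_iff]; nlinarith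
    have h2 := Real.exp_pos (b * z)
    rw [abs_of_nonpos (div_nonpos_of_nonpos_of_nonneg (by linarith) (by positivity)), ← neg_div,
      div_le_iff₀ (by positivity)]
    have h3 : (1 + 1 / b ^ 2) * b ^ 2 = b ^ 2 + 1 := by field_simp
    rw [h3]
    nlinarith [sq_nonneg b]

end Pool.Agent.H308R3.B
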