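import Pool.Agent.H308R3.B7
set_option autoImplicit false
open MeasureTheory Set Filter Topology

namespace Pool.Agent.H308R3.B

/-- Levy measure on the negative half line -/
structure Lev (μ : Measure ℝ) : Prop where
  zero : μ (Ici 0) = 0
  sq : ∫⁻ x, ENNReal.ofReal (min 1 (x ^ 2)) ∂μ < ⊤

variable {μ : Measure ℝ}

lemma Lev.fin (h : Lev μ) {c : ℝ} (hc : c < 0) : μ (Iic c) < ⊤ := by
  set e : ENNReal := ENNReal.ofReal (min 1 (c ^ 2)) with he
  have he0 : e ≠ 0 := by
    rw [he]
    simp only [ne_eq, ENNReal.ofReal_eq_zero, not_le]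
    have hcne := hc.ne
    have : 0 < c ^ 2 := by positivity
    exact lt_min one_pos this
  have h1 : e * μ (Iic c) ≤ ∫⁻ x, ENNReal.ofReal (min 1 (x ^ 2)) ∂μ := by
    calc e * μ (Iic c) = ∫⁻ x in Iic c, e ∂μ := by rw [setLIntegral_const]
      _ ≤ ∫⁻ x in Iic c, ENNReal.ofReal (min 1 (x ^ 2)) ∂μ := by
          refine setLIntegral_mono' measurableSet_Iic (fun x hx => ?_)
          apply ENNReal.ofReal_le_ofReal
          have hx' : x ≤ c := hx
          apply min_le_min_left
          nlinarith
      _ ≤ ∫⁻ x, ENNReal.ofReal (min 1 (x ^ 2)) ∂μ := setLIntegral_le_lintegral _ _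
  have h2 : e * μ (Iic c) < ⊤ := lt_of_le_of_lt h1 h.sq
  by_contra h3
  have h4 : μ (Iic c) = ⊤ := by simpa using h3
  rw [h4, ENNReal.mul_top he0] at h2
  exact lt_irrefl _ h2

lemma Lev.sigma (h : Lev μ) : SigmaFinite μ := by
  refine ⟨⟨{ set := fun n : ℕ => Iic (-(1 / ((n : ℝ) + 1))) ∪ Ici 0
             set_mem := fun _ => trivial
             finite := fun n => ?_
             spanning := ?_ }⟩⟩
  · have h1 : (-(1 / ((n : ℝ) + 1))) < 0 := by
      have : (0 : ℝ) < 1 / ((n : ℝ) + 1) := by positivity
      linarith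
    refine lt_of_le_of_lt (measure_union_le _ _) ?_
    rw [h.zero, add_zero]
    exact h.fin h1
  · ext x
    simp only [mem_iUnion, mem_union, mem_Iic, mem_Ici, mem_univ, iff_true]
    rcases lt_or_ge x 0 with hx | hx
    · obtain ⟨n, hn⟩ := exists_nat_gt (1 / (-x))
      refine ⟨n, Or.inl ?_⟩
      have hx' : 0 < -x := by linarith
      rw [div_lt_iff₀ hx'] at hn
      have h3 : 1 / ((n : ℝ) + 1) ≤ -x := by
        rw [div_le_iff₀ (by positivity)]
        nlinarith
      linarith
    · exact ⟨0, Or.inr hx⟩

lemma Lev.ae_neg (h : Lev μ) : ∀ᵐ z ∂μ, z < 0 := by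
  have h1 : μ {z | ¬ z < 0} = 0 := by
    have : {z : ℝ | ¬ z < 0} = Ici 0 := by ext z; simp
    rw [this]; exact h.zero
  exact h1

lemma meas_wt : Measurable wt := by unfold wt; fun_prop

lemma Lev.int_wt (h : Lev μ) : Integrable wt μ := by
  refine ⟨meas_wt.aestronglyMeasurable, ?_⟩
  rw [hasFiniteIntegral_iff_ofReal (Eventually.of_forall wt_nonneg)]
  exact h.sq

lemma Lev.int_kap (h : Lev μ) {x : ℝ} (hx : 0 < x) : Integrable (kap x) μ := by
  refine Integrable.mono' (h.int_wt.const_mul (x + 1 / (4 * x))) ?_ ?_
  · exact (meas_kap.comp (measurable_const.prodMk measurable_id)).aestronglyMeasurable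
  · filter_upwards [h.ae_neg] with z hz
    exact kap_bound hx hz

lemma meas_psi (b : ℝ) : Measurable (psi b) := by
  unfold psi
  refine Measurable.div_const ?_ _
  refine Measurable.sub (by fun_prop) ?_
  exact Measurable.ite measurableSet_Ioi (by fun_prop) measurable_const

lemma Lev.int_psi (h : Lev μ) {b : ℝ} (hb : 0 < b) : Integrable (psi b) μ := by
  refine Integrable.mono' (h.int_wt.const_mul (1 + 1 / b ^ 2)) (meas_psi b).aestronglyMeasurable ?_
  filter_upwards [h.ae_neg] with z hz
  exact psi_bound hb hz

lemma Lev.int_prod (h : Lev μ) {b : ℝ} (hb : 0 < b) :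
    Integrable (Function.uncurry (fun x z => Real.exp (-(b * x)) * kap x z))
      ((volume.restrict (Ioi 0)).prod μ) := by
  have := h.sigma
  have hm : AEStronglyMeasurable (Function.uncurry (fun x z => Real.exp (-(b * x)) * kap x z))
      ((volume.restrict (Ioi 0)).prod μ) := by
    apply Measurable.aestronglyMeasurable
    have : Measurable (fun p : ℝ × ℝ => Real.exp (-(b * p.1))) := by fun_prop
    exact this.mul meas_kap
  rw [integrable_prod_iff' hm]
  constructor
  · filter_upwards [h.ae_neg] with z hz
    exact (kap_LT hb hz).1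
  · refine ((h.int_psi hb).abs).congr ?_
    filter_upwards [h.ae_neg] with z hz
    exact (norm_kap_LT hb hz).symm

/-- mean of the kernel -/
noncomputable def gk (μ : Measure ℝ) (x : ℝ) : ℝ := ∫ z, kap x z ∂μ

lemma Lev.int_gk (h : Lev μ) {b : ℝ} (hb : 0 < b) :
    IntegrableOn (fun x => Real.exp (-(b * x)) * gk μ x) (Ioi 0) ∧
      ∫ x in Ioi (0 : ℝ), Real.exp (-(b * x)) * gk μ x = ∫ z, psi b z ∂μ := by
  have := h.sigma
  have h1 := (h.int_prod hb).integral_prod_left
  have h2 : (fun x => ∫ z, Function.uncurry (fun x z => Real.exp (-(b * x)) * kap x z) (x, z) ∂μ) =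
      fun x => Real.exp (-(b * x)) * gk μ x := by
    funext x
    unfold gk
    rw [← integral_const_mul]
    rfl
  rw [h2] at h1
  refine ⟨h1, ?_⟩
  have h3 := integral_integral_swap (h.int_prod hb)
  have h4 : ∀ x, ∫ z, Real.exp (-(b * x)) * kap x z ∂μ = Real.exp (-(b * x)) * gk μ x := by
    intro x
    unfold gk
    rw [← integral_const_mul]
  simp_rw [h4] at h3
  rw [h3]
  refine integral_congr_ae ?_
  filter_upwards [h.ae_neg] with z hz
  exact (kap_LT hb hz).2

/-- the tail -/
noncomputable def tl (μ : Measure ℝ) (y : ℝ) : ℝ := (μ (Iio (-y))).toReal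

lemma Lev.tl_antitone (h : Lev μ) {x y : ℝ} (hx : 0 < x) (hxy : x ≤ y) : tl μ y ≤ tl μ x := by
  unfold tl
  have h1 : μ (Iio (-x)) < ⊤ :=
    lt_of_le_of_lt (measure_mono Iio_subset_Iic_self) (h.fin (by linarith))
  exact ENNReal.toReal_mono h1.ne (measure_mono (Iio_subset_Iio (by linarith)))

lemma tl_nonneg (x : ℝ) : 0 ≤ tl μ x := ENNReal.toReal_nonneg

lemma Lev.tl_int (h : Lev μ) {x y : ℝ} (hx : 0 < x) (hy : 0 < y) :
    IntervalIntegrable (tl μ) volume x y := by
  have : AntitoneOn (tl μ) (uIcc x y) := by
    intro s hs t _ hst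
    have : 0 < s := lt_of_lt_of_le (lt_min hx hy) hs.1
    exact h.tl_antitone this hst
  exact this.intervalIntegrable

lemma min_sub_min {x y w : ℝ} : min y w - min x w = ∫ u in x..y, (if u < w then (1 : ℝ) else 0) := by
  have key : ∀ x y : ℝ, x ≤ y → min y w - min x w = ∫ u in x..y, (if u < w then (1 : ℝ) else 0) := by
    intro x y hxy
    rw [intervalIntegral.integral_of_le hxy]
    have h1 : (fun u => if u < w then (1 : ℝ) else 0) = (Iio w).indicator (fun _ => (1 : ℝ)) := by
      funext u
      by_cases hu : u < w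
      · rw [if_pos hu, indicator_of_mem (show u ∈ Iio w from hu)]
      · rw [if_neg hu, indicator_of_notMem (show u ∉ Iio w from hu)]
    rw [h1, setIntegral_indicator measurableSet_Iio, setIntegral_const, smul_eq_mul, mul_one]
    rcases le_total w x with h2 | h2
    · have : Ioc x y ∩ Iio w = ∅ := by
        ext u
        simp only [mem_inter_iff, mem_Ioc, mem_Iio, mem_empty_iff_false, iff_false, not_and, not_lt]
        intro h3; linarith [h3.1]
      rw [this, min_eq_right h2, min_eq_right (h2.trans hxy)]
      simp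
    · rcases le_total w y with h3 | h3
      · have : Ioc x y ∩ Iio w = Ioo x w := by
          ext u
          simp only [mem_inter_iff, mem_Ioc, mem_Iio, mem_Ioo]
          constructor
          · rintro ⟨⟨h4, _⟩, h5⟩; exact ⟨h4, h5⟩
          · rintro ⟨h4, h5⟩; exact ⟨⟨h4, by linarith⟩, h5⟩
        rw [this, min_eq_left h2, min_eq_right h3, Real.volume_real_Ioo_of_le h2]
      · rw [min_eq_left h2, min_eq_left h3]
        have h4 : volume.real (Ioc x y ∩ Iio w) = volume.real (Ioo x y) := by
          rcases eq_or_lt_of_le h3 with h5 | h5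
          · congr 1
            ext u
            simp only [mem_inter_iff, mem_Ioc, mem_Iio, mem_Ioo]
            constructor
            · rintro ⟨⟨h6, _⟩, h7⟩; exact ⟨h6, by linarith⟩
            · rintro ⟨h6, h7⟩; exact ⟨⟨h6, h7.le⟩, by linarith⟩
          · have : Ioc x y ∩ Iio w = Ioc x y := by
              ext u
              simp only [mem_inter_iff, mem_Ioc, mem_Iio, and_iff_left_iff_imp, and_imp]
              intro _ h6; linarith
            rw [this, Real.volume_real_Ioc_of_le hxy, Real.volume_real_Ioo_of_le hxy]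
        rw [h4, Real.volume_real_Ioo_of_le hxy]
  rcases le_total x y with h | h
  · exact key x y h
  · rw [intervalIntegral.integral_symm, ← key y x h]; ring

lemma Lev.gk_sub (h : Lev μ) {x y : ℝ} (hx : 0 < x) (hy : 0 < y) :
    gk μ x - gk μ y = ∫ u in x..y, tl μ u := by
  have := h.sigma
  have h0 : 0 < min x y := lt_min hx hy
  have hset : MeasurableSet {p : ℝ × ℝ | p.2 < -p.1} :=
    measurableSet_lt measurable_snd measurable_fst.neg
  have hint : Integrable (Function.uncurry (fun u z : ℝ => if z < -u then (1 : ℝ) else 0))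
      ((volume.restrict (uIoc x y)).prod μ) := by
    have hm : AEStronglyMeasurable (Function.uncurry (fun u z : ℝ => if z < -u then (1 : ℝ) else 0))
        ((volume.restrict (uIoc x y)).prod μ) := by
      apply Measurable.aestronglyMeasurable
      exact Measurable.ite hset measurable_const measurable_const
    rw [integrable_prod_iff' hm]
    have hb : ∀ u z : ℝ, ‖Function.uncurry (fun u z : ℝ => if z < -u then (1 : ℝ) else 0) (u, z)‖ ≤ 1 := by
      intro u z
      simp only [Function.uncurry]
      split_ifs <;> simp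
    have hfinI : volume (uIoc x y) < ⊤ := by
      rw [uIoc]; exact measure_Ioc_lt_top
    have hi : ∀ z : ℝ, Integrable (fun u => Function.uncurry
        (fun u z : ℝ => if z < -u then (1 : ℝ) else 0) (u, z)) (volume.restrict (uIoc x y)) := by
      intro z
      refine Measure.integrableOn_of_bounded (M := 1) hfinI.ne ?_ (Eventually.of_forall (fun u => hb u z))
      apply Measurable.aestronglyMeasurable
      simp only [Function.uncurry]
      exact Measurable.ite (measurableSet_lt measurable_const measurable_neg) measurable_const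
        measurable_const
    refine ⟨Eventually.of_forall hi, ?_⟩
    have hfin : μ (Iio (-(min x y))) < ⊤ :=
      lt_of_le_of_lt (measure_mono Iio_subset_Iic_self) (h.fin (by linarith))
    have hdom : Integrable ((Iio (-(min x y))).indicator (fun _ => volume.real (uIoc x y))) μ := by
      rw [integrable_indicator_iff measurableSet_Iio]
      exact integrableOn_const hfin.ne
    refine Integrable.mono' hdom ?_ ?_
    · exact hm.norm.prod_swap.integral_prod_right'
    · refine Eventually.of_forall (fun z => ?_)
      rw [Real.norm_of_nonneg (integral_nonneg (fun u => norm_nonneg _))]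
      by_cases hz : z < -(min x y)
      · rw [indicator_of_mem (show z ∈ Iio (-(min x y)) from hz)]
        calc ∫ u in uIoc x y, ‖Function.uncurry (fun u z : ℝ => if z < -u then (1 : ℝ) else 0) (u, z)‖
            ≤ ∫ u in uIoc x y, (1 : ℝ) := by
              refine setIntegral_mono_on (hi z).norm (integrableOn_const hfinI.ne)
                measurableSet_uIoc (fun u _ => hb u z)
          _ = volume.real (uIoc x y) := by rw [setIntegral_const]; simp
      · rw [indicator_of_notMem (show z ∉ Iio (-(min x y)) from hz)]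
        refine le_of_eq ?_
        have : ∀ u ∈ uIoc x y, ‖Function.uncurry (fun u z : ℝ => if z < -u then (1 : ℝ) else 0) (u, z)‖ =
            (0 : ℝ) := by
          intro u hu
          have hu' : min x y < u := hu.1
          simp only [Function.uncurry]
          rw [if_neg (by linarith)]; simp
        rw [setIntegral_congr_fun measurableSet_uIoc this]
        simp
  have hswap := intervalIntegral_integral_swap hint
  have h1 : ∀ u : ℝ, ∫ z, (if z < -u then (1 : ℝ) else 0) ∂μ = tl μ u := by
    intro u
    have : (fun z => if z < -u then (1 : ℝ) else 0) = (Iio (-u)).indicator (fun _ => (1 : ℝ)) := by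
      funext z
      by_cases hz : z < -u
      · rw [if_pos hz, indicator_of_mem (show z ∈ Iio (-u) from hz)]
      · rw [if_neg hz, indicator_of_notMem (show z ∉ Iio (-u) from hz)]
    rw [this, integral_indicator measurableSet_Iio, setIntegral_const, smul_eq_mul, mul_one]
    rfl
  simp_rw [h1] at hswap
  rw [hswap]
  unfold gk
  rw [← integral_sub (h.int_kap hx) (h.int_kap hy)]
  congr 1
  funext z
  have h2 : kap x z - kap y z = min y (-z) - min x (-z) := by unfold kap; ring
  rw [h2, min_sub_min]
  refine intervalIntegral.integral_congr (fun u _ => ?_)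
  have : (u < -z) ↔ (z < -u) := ⟨fun h => by linarith, fun h => by linarith⟩
  simp only [this]

lemma Lev.gk_small (h : Lev μ) : Tendsto (fun x => x * gk μ x) (𝓝[>] 0) (𝓝 0) := by
  have h1 : ∀ x, x * gk μ x = ∫ z, x * kap x z ∂μ := by
    intro x; unfold gk; rw [integral_const_mul]
  simp_rw [h1]
  suffices h2 : Tendsto (fun x => ∫ z, x * kap x z ∂μ) (𝓝[>] 0) (𝓝 (∫ z, (0 : ℝ) ∂μ)) by
    simpa using h2
  refine tendsto_integral_filter_of_dominated_convergence (fun z => 2 * wt z) ?_ ?_
    (h.int_wt.const_mul 2) ?_
  · refine Eventually.of_forall (fun x => ?_)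
    exact ((meas_kap.comp (measurable_const.prodMk measurable_id)).const_mul x).aestronglyMeasurable
  · have h3 : Ioo (0 : ℝ) 1 ∈ 𝓝[>] (0 : ℝ) := Ioo_mem_nhdsGT one_pos
    filter_upwards [h3] with x hx
    filter_upwards [h.ae_neg] with z hz
    rw [norm_mul, Real.norm_of_nonneg hx.1.le, Real.norm_eq_abs]
    calc x * |kap x z| ≤ x * ((x + 1 / (4 * x)) * wt z) := by
          have := kap_bound hx.1 hz
          have hx0 := hx.1
          gcongr
      _ = (x ^ 2 + 1 / 4) * wt z := by
          have := hx.1.ne'
          field_simp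
      _ ≤ 2 * wt z := by
          have h4 := wt_nonneg z
          have h5 : x ^ 2 ≤ 1 := by nlinarith [hx.1, hx.2]
          nlinarith
  · filter_upwards [h.ae_neg] with z hz
    have h3 : Tendsto (fun x : ℝ => x * kap x z) (𝓝 0) (𝓝 (0 * kap 0 z)) := by
      have hc : Continuous (fun x : ℝ => x * kap x z) := by
        unfold kap
        fun_prop
      exact hc.tendsto 0
    rw [zero_mul] at h3
    exact h3.mono_left nhdsWithin_le_nhds

end Pool.Agent.H308R3.B
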