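import Pool.Agent.H308R3.B8
set_option autoImplicit false
open MeasureTheory Set Filter Topology

namespace Pool.Agent.H308R3.B

variable {μ : Measure ℝ}

/-- the Volterra kernel: `ψ(b) = A b² (1 + LT G b)` -/
noncomputable def GG (μ : Measure ℝ) (A a : ℝ) (x : ℝ) : ℝ :=
  if 0 < x then (1 / A) * (gk μ x - a) else 0

lemma Lev.Adm_GG (h : Lev μ) (A a : ℝ) {b : ℝ} (hb : 0 < b) : Adm (ex b (GG μ A a)) := by
  refine ⟨?_, fun x hx => by unfold ex GG; rw [if_neg (not_lt.2 hx), mul_zero]⟩
  have h1 : ex b (GG μ A a) = (Ioi (0 : ℝ)).indicator (fun x => (1 / A) *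
      (Real.exp (-(b * x)) * gk μ x - a * Real.exp (-(b * x)))) := by
    funext x
    unfold ex GG
    by_cases hx : 0 < x
    · rw [if_pos hx, indicator_of_mem (show x ∈ Ioi (0 : ℝ) from hx)]; ring
    · rw [if_neg hx, indicator_of_notMem (show x ∉ Ioi (0 : ℝ) from hx), mul_zero]
  rw [h1, integrable_indicator_iff measurableSet_Ioi]
  exact ((h.int_gk hb).1.sub ((integral_exp_half hb).1.const_mul a)).const_mul _

lemma Lev.LT_GG (h : Lev μ) (A a : ℝ) {b : ℝ} (hb : 0 < b) :
    LT (GG μ A a) b = (1 / A) * ((∫ z, psi b z ∂μ) - a / b) := by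
  unfold LT
  have h1 : ex b (GG μ A a) = (Ioi (0 : ℝ)).indicator (fun x => (1 / A) *
      (Real.exp (-(b * x)) * gk μ x - a * Real.exp (-(b * x)))) := by
    funext x
    unfold ex GG
    by_cases hx : 0 < x
    · rw [if_pos hx, indicator_of_mem (show x ∈ Ioi (0 : ℝ) from hx)]; ring
    · rw [if_neg hx, indicator_of_notMem (show x ∉ Ioi (0 : ℝ) from hx), mul_zero]
  rw [h1, integral_indicator measurableSet_Ioi, integral_const_mul,
    integral_sub (h.int_gk hb).1 ((integral_exp_half hb).1.const_mul a), integral_const_mul,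
    (h.int_gk hb).2, (integral_exp_half hb).2]
  ring

lemma Lev.GG_sub (h : Lev μ) (A a : ℝ) {x y : ℝ} (hx : 0 < x) (hy : 0 < y) :
    GG μ A a y - GG μ A a x = ∫ u in x..y, -(1 / A) * tl μ u := by
  rw [intervalIntegral.integral_const_mul, ← h.gk_sub hx hy]
  unfold GG
  rw [if_pos hx, if_pos hy]
  ring

lemma Lev.GG_cont (h : Lev μ) (A a : ℝ) : ContinuousOn (GG μ A a) (Ioi 0) := by
  intro x hx
  have hx0 : (0 : ℝ) < x := hx
  have hint : IntervalIntegrable (tl μ) volume (x / 2) (2 * x) := h.tl_int (by positivity) (by positivity)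
  have h1 : ContinuousOn (fun y => ∫ u in (x / 2)..y, tl μ u) (uIcc (x / 2) (2 * x)) :=
    intervalIntegral.continuousOn_primitive_interval' hint (by simp)
  have h2 : ContinuousAt (fun y => ∫ u in (x / 2)..y, tl μ u) x := by
    refine h1.continuousAt ?_
    rw [uIcc_of_le (by linarith)]
    exact Icc_mem_nhds (by linarith) (by linarith)
  have h3 : ContinuousAt (fun y => GG μ A a (x / 2) + -(1 / A) * ∫ u in (x / 2)..y, tl μ u) x :=
    continuousAt_const.add (continuousAt_const.mul h2)
  refine (h3.congr ?_).continuousWithinAt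
  filter_upwards [Ioi_mem_nhds hx0] with y hy
  have := h.GG_sub A a (show 0 < x / 2 by positivity) (show 0 < y from hy)
  rw [intervalIntegral.integral_const_mul] at this
  linarith

/-- the kernel is small for a large damping -/
lemma Lev.GG_small (h : Lev μ) (A a : ℝ) :
    Tendsto (fun b : ℝ => ∫ x, ‖ex b (GG μ A a) x‖) atTop (𝓝 0) := by
  suffices h2 : Tendsto (fun b : ℝ => ∫ x, ‖ex b (GG μ A a) x‖) atTop (𝓝 (∫ x : ℝ, (0 : ℝ))) by
    simpa using h2
  refine tendsto_integral_filter_of_dominated_convergence (fun x => ‖ex 1 (GG μ A a) x‖) ?_ ?_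
    (h.Adm_GG A a one_pos).int.norm ?_
  · filter_upwards [eventually_gt_atTop 0] with b hb
    exact (h.Adm_GG A a hb).int.norm.aestronglyMeasurable
  · filter_upwards [eventually_ge_atTop 1] with b hb
    filter_upwards with x
    rw [norm_norm]
    have h1 : ex b (GG μ A a) = ex (b - 1) (ex 1 (GG μ A a)) := by
      rw [ex_ex]; congr 1; ring
    rw [h1]
    exact norm_ex_le (h.Adm_GG A a one_pos) (by linarith) x
  · filter_upwards with x
    rcases le_or_gt x 0 with hx | hx
    · have : ∀ b, ‖ex b (GG μ A a) x‖ = 0 := by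
        intro b; unfold ex GG; rw [if_neg (not_lt.2 hx)]; simp
      simp [this]
    · have h1 : ∀ b, ‖ex b (GG μ A a) x‖ = Real.exp (-(b * x)) * ‖GG μ A a x‖ := by
        intro b; unfold ex; rw [norm_mul, Real.norm_of_nonneg (Real.exp_pos _).le]
      simp_rw [h1]
      have h2 : Tendsto (fun b : ℝ => Real.exp (-(b * x))) atTop (𝓝 0) := by
        have h3 : Tendsto (fun b : ℝ => b * x) atTop atTop := tendsto_id.atTop_mul_const hx
        exact Real.tendsto_exp_neg_atTop_nhds_zero.comp h3
      simpa using h2.mul_const ‖GG μ A a x‖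

/-- the tail is controlled by the kernel -/
lemma Lev.tl_le (h : Lev μ) {x : ℝ} (hx : 0 < x) : x * tl μ x ≤ 2 * (gk μ (x / 2) - gk μ x) := by
  have h1 := h.gk_sub (show 0 < x / 2 by positivity) hx
  rw [h1]
  have h2 : ∫ u in (x / 2)..x, tl μ x ≤ ∫ u in (x / 2)..x, tl μ u := by
    refine intervalIntegral.integral_mono_on (by linarith) intervalIntegrable_const
      (h.tl_int (by positivity) hx) (fun u hu => ?_)
    exact h.tl_antitone (by linarith [hu.1]) hu.2
  rw [intervalIntegral.integral_const, smul_eq_mul] at h2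
  linarith

/-- `x ↦ x T(x)` is integrable near zero and with exponential weight -/
lemma Lev.int_tl (h : Lev μ) {b : ℝ} (hb : 0 < b) :
    IntegrableOn (fun x => Real.exp (-(b * x)) * (x * tl μ x)) (Ioi 0) := by
  have h1 : IntegrableOn (fun x => Real.exp (-(b * x)) * gk μ x) (Ioi 0) := (h.int_gk hb).1
  have h2 : IntegrableOn (fun x => Real.exp (-(b * x)) * gk μ (x / 2)) (Ioi 0) := by
    have h3 : IntegrableOn (fun x => Real.exp (-(2 * b * x)) * gk μ x) (Ioi 0) :=
      (h.int_gk (by positivity)).1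
    have h4 := (integrableOn_Ioi_comp_mul_left_iff (fun x => Real.exp (-(2 * b * x)) * gk μ x) 0
      (show (0 : ℝ) < 1 / 2 by norm_num)).2 (by simpa using h3)
    refine (integrableOn_congr_fun (fun x _ => ?_) measurableSet_Ioi).1 h4
    have e1 : 2 * b * (1 / 2 * x) = b * x := by ring
    have e2 : 1 / 2 * x = x / 2 := by ring
    rw [e1, e2]
  refine Integrable.mono' ((h2.sub h1).const_mul 2) ?_ ?_
  · have hanti : AntitoneOn (tl μ) (Ioi 0) := fun x hx y _ hxy => h.tl_antitone hx hxy
    have hm := aemeasurable_restrict_of_antitoneOn (μ := volume) measurableSet_Ioi hanti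
    refine AEMeasurable.aestronglyMeasurable ?_
    refine AEMeasurable.mul (by fun_prop) (AEMeasurable.mul (by fun_prop) hm)
  · filter_upwards [ae_restrict_mem measurableSet_Ioi] with x hx
    have hx0 : (0 : ℝ) < x := hx
    have := tl_nonneg (μ := μ) x
    rw [Real.norm_of_nonneg (by positivity)]
    simp only [Pi.sub_apply]
    calc Real.exp (-(b * x)) * (x * tl μ x) ≤ Real.exp (-(b * x)) * (2 * (gk μ (x / 2) - gk μ x)) :=
          mul_le_mul_of_nonneg_left (h.tl_le hx0) (Real.exp_pos _).le
      _ = _ := by ring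

/-- derivative of `x F(x)` -/
noncomputable def KK (μ : Measure ℝ) (A a l : ℝ) (x : ℝ) : ℝ :=
  if 0 < x then Real.exp (-(l * x)) * ((1 - l * x) * GG μ A a x - (1 / A) * (x * tl μ x)) else 0

lemma Lev.Adm_KK (h : Lev μ) (A a : ℝ) {l : ℝ} (hl : 0 < l) : Adm (KK μ A a l) := by
  refine ⟨?_, fun x hx => by unfold KK; rw [if_neg (not_lt.2 hx)]⟩
  have h1 : KK μ A a l = (Ioi (0 : ℝ)).indicator (fun x =>
      (1 - l * x) * Real.exp (-(l / 2 * x)) * ex (l / 2) (GG μ A a) x -
        (1 / A) * (Real.exp (-(l * x)) * (x * tl μ x))) := by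
    funext x
    unfold KK ex
    by_cases hx : 0 < x
    · rw [if_pos hx, indicator_of_mem (show x ∈ Ioi (0 : ℝ) from hx)]
      have : Real.exp (-(l * x)) = Real.exp (-(l / 2 * x)) * Real.exp (-(l / 2 * x)) := by
        rw [← Real.exp_add]; congr 1; ring
      rw [this]; ring
    · rw [if_neg hx, indicator_of_notMem (show x ∉ Ioi (0 : ℝ) from hx)]
  rw [h1, integrable_indicator_iff measurableSet_Ioi]
  refine Integrable.sub ?_ ((h.int_tl hl).const_mul _)
  have hA := (h.Adm_GG A a (show 0 < l / 2 by positivity)).int.integrableOn (s := Ioi (0 : ℝ))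
  refine Integrable.bdd_mul (c := 2) hA ?_ ?_
  · exact (by fun_prop : Continuous fun x : ℝ => (1 - l * x) * Real.exp (-(l / 2 * x))).aestronglyMeasurable
  · filter_upwards [ae_restrict_mem measurableSet_Ioi] with x hx
    have hx0 : (0 : ℝ) < x := hx
    have hlx : 0 < l * x := by positivity
    rw [norm_mul, Real.norm_of_nonneg (Real.exp_pos _).le]
    have h2 : ‖1 - l * x‖ ≤ 1 + l * x := by
      rw [Real.norm_eq_abs, abs_le]; constructor <;> linarith
    have h3 : 1 + l * x ≤ 2 * Real.exp (l / 2 * x) := by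
      have := Real.add_one_le_exp (l / 2 * x)
      linarith
    calc ‖1 - l * x‖ * Real.exp (-(l / 2 * x)) ≤ (2 * Real.exp (l / 2 * x)) * Real.exp (-(l / 2 * x)) := by
          gcongr
          exact h2.trans h3
      _ = 2 := by rw [mul_assoc, ← Real.exp_add]; simp

lemma Lev.mx_sub (h : Lev μ) (A a : ℝ) {l : ℝ} (hl : 0 < l) {e x : ℝ} (he : 0 < e) (hex : e ≤ x) :
    mx (ex l (GG μ A a)) x - mx (ex l (GG μ A a)) e = Pr (KK μ A a l) x - Pr (KK μ A a l) e := by
  have hx : 0 < x := by linarith
  set f : ℝ → ℝ := fun u => u * Real.exp (-(l * u)) with hf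
  have hfd : ∀ u, HasDerivAt f ((1 - l * u) * Real.exp (-(l * u))) u := by
    intro u
    have h5 : HasDerivAt (fun x : ℝ => -(l * x)) (-(l * 1)) u := ((hasDerivAt_id' u).const_mul l).fun_neg
    exact ((hasDerivAt_id' u).mul h5.exp).congr_deriv (by ring)
  have hfc : ContDiff ℝ 1 f := by rw [hf]; fun_prop
  set g : ℝ → ℝ := fun u => ∫ t in e..u, -(1 / A) * tl μ t with hg
  have hint : IntervalIntegrable (fun t => -(1 / A) * tl μ t) volume e x := (h.tl_int he hx).const_mul _
  have hac1 : AbsolutelyContinuousOnInterval f e x := hfc.contDiffOn.absolutelyContinuousOnInterval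
  have hac2 : AbsolutelyContinuousOnInterval g e x :=
    hint.absolutelyContinuousOnInterval_intervalIntegral (by simp)
  have h1 := hac1.integral_deriv_mul_eq_sub hac2
  have hge : g e = 0 := by rw [hg]; simp
  have hgx : ∀ u, 0 < u → g u = GG μ A a u - GG μ A a e := fun u hu => (h.GG_sub A a he hu).symm
  rw [hge, mul_zero, sub_zero] at h1
  -- integral of derivative of f
  have h2 : ∫ u in e..x, deriv f u = f x - f e := hac1.integral_deriv_eq_sub
  have hK : Pr (KK μ A a l) x - Pr (KK μ A a l) e = ∫ u in e..x, KK μ A a l u := by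
    unfold Pr
    rw [intervalIntegral.integral_interval_sub_left] <;>
      exact (h.Adm_KK A a hl).int.intervalIntegrable
  rw [hK]
  have hdf : deriv f = fun u => (1 - l * u) * Real.exp (-(l * u)) := by
    funext u; exact (hfd u).deriv
  have h3 : ∫ u in e..x, KK μ A a l u =
      ∫ u in e..x, ((deriv f u * g u + f u * deriv g u) + GG μ A a e * deriv f u) := by
    refine intervalIntegral.integral_congr_ae ?_
    filter_upwards [hint.ae_hasDerivAt_integral] with t ht ht'
    have h4 := ht (uIoc_subset_uIcc ht') e (by simp)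
    have ht0 : 0 < t := by
      rw [uIoc_of_le hex] at ht'; linarith [ht'.1]
    have h5 : deriv g t = -(1 / A) * tl μ t := h4.deriv
    rw [h5, hgx t ht0, hdf]
    unfold KK
    rw [if_pos ht0, hf]
    ring
  have hcf : Continuous (deriv f) := by rw [hdf]; fun_prop
  have hi1 : IntervalIntegrable (fun u => deriv f u * g u + f u * deriv g u) volume e x := by
    refine IntervalIntegrable.add ?_ ?_
    · exact (hac1.intervalIntegrable_deriv).mul_continuousOn hac2.continuousOn
    · exact (hac2.intervalIntegrable_deriv).continuousOn_mul hac1.continuousOn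
  rw [h3, intervalIntegral.integral_add hi1 ((hcf.intervalIntegrable _ _).const_mul _),
    intervalIntegral.integral_const_mul, h1, h2, hgx x hx]
  unfold mx ex
  rw [hf]
  ring

lemma Lev.mx_eq (h : Lev μ) (A a : ℝ) {l : ℝ} (hl : 0 < l) :
    mx (ex l (GG μ A a)) =ᵐ[volume] Pr (KK μ A a l) := by
  have hK := h.Adm_KK A a hl
  refine Eventually.of_forall (fun x => ?_)
  rcases le_or_gt x 0 with hx | hx
  · rw [Pr_zero hK x hx]
    unfold mx ex GG
    rw [if_neg (not_lt.2 hx)]; ring
  · have h1 : Tendsto (fun e => mx (ex l (GG μ A a)) e - Pr (KK μ A a l) e) (𝓝[>] 0) (𝓝 0) := by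
      have h2 : Tendsto (fun e => Pr (KK μ A a l) e) (𝓝[>] 0) (𝓝 0) := by
        have := (Pr_cont hK).tendsto 0
        rw [Pr_zero hK 0 le_rfl] at this
        exact this.mono_left nhdsWithin_le_nhds
      have h3 : Tendsto (fun e => mx (ex l (GG μ A a)) e) (𝓝[>] 0) (𝓝 0) := by
        have h4 : Tendsto (fun e : ℝ => (1 / A) * Real.exp (-(l * e)) * (e * gk μ e - a * e))
            (𝓝[>] 0) (𝓝 ((1 / A) * Real.exp (-(l * 0)) * (0 - a * 0))) := by
          refine Tendsto.mul ?_ (h.gk_small.sub ?_)
          · have hc : Continuous (fun e : ℝ => (1 / A) * Real.exp (-(l * e))) := by fun_prop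
            exact (hc.tendsto 0).mono_left nhdsWithin_le_nhds
          · have hc : Continuous (fun e : ℝ => a * e) := by fun_prop
            exact (hc.tendsto 0).mono_left nhdsWithin_le_nhds
        simp only [mul_zero, sub_zero] at h4
        refine h4.congr' ?_
        filter_upwards [self_mem_nhdsWithin] with e he
        unfold mx ex GG
        rw [if_pos (show 0 < e from he)]; ring
      simpa using h3.sub h2
    have h5 : Tendsto (fun e => mx (ex l (GG μ A a)) e - Pr (KK μ A a l) e) (𝓝[>] 0)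
        (𝓝 (mx (ex l (GG μ A a)) x - Pr (KK μ A a l) x)) := by
      refine tendsto_const_nhds.congr' ?_
      have : Ioo 0 x ∈ 𝓝[>] (0 : ℝ) := Ioo_mem_nhdsGT hx
      filter_upwards [this] with e he
      have := h.mx_sub A a hl he.1 he.2.le
      linarith
    have := tendsto_nhds_unique h5 h1
    linarith

end Pool.Agent.H308R3.B
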