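import Mathlib
set_option autoImplicit false
open MeasureTheory Set Filter Topology

namespace Pool.Agent.H308R3.C

/-- two points are comparable in the strict coordinatewise order -/
def cmp (p q : ℝ × ℝ) : Prop := (p.1 < q.1 ∧ p.2 < q.2) ∨ (q.1 < p.1 ∧ q.2 < p.2)

/-- sizes of chains contained in `A` -/
def chSet {ι : Type} (A : Set (ℝ × ℝ)) (x : ι → ℝ × ℝ) : Set ℕ :=
  {k | ∃ s : Finset ι, s.card = k ∧ (∀ i ∈ s, x i ∈ A) ∧ ∀ i ∈ s, ∀ j ∈ s, i ≠ j → cmp (x i) (x j)}

/-- longest chain in `A` -/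
noncomputable def chA {ι : Type} (A : Set (ℝ × ℝ)) (x : ι → ℝ × ℝ) : ℕ := sSup (chSet A x)

variable {ι κ : Type} [Fintype ι] [Fintype κ]

lemma chSet_bdd (A : Set (ℝ × ℝ)) (x : ι → ℝ × ℝ) : BddAbove (chSet A x) := by
  refine ⟨Fintype.card ι, ?_⟩
  rintro k ⟨s, hs, -⟩
  rw [← hs]
  exact Finset.card_le_univ s

omit [Fintype ι] in
lemma chSet_zero (A : Set (ℝ × ℝ)) (x : ι → ℝ × ℝ) : 0 ∈ chSet A x :=
  ⟨∅, by simp, by simp, by simp⟩

lemma chA_mem (A : Set (ℝ × ℝ)) (x : ι → ℝ × ℝ) : chA A x ∈ chSet A x :=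
  Nat.sSup_mem ⟨0, chSet_zero A x⟩ (chSet_bdd A x)

lemma le_chA {A : Set (ℝ × ℝ)} {x : ι → ℝ × ℝ} {k : ℕ} (h : k ∈ chSet A x) : k ≤ chA A x :=
  le_csSup (chSet_bdd A x) h

lemma chA_le (A : Set (ℝ × ℝ)) (x : ι → ℝ × ℝ) : chA A x ≤ Fintype.card ι := by
  obtain ⟨s, hs, -⟩ := chA_mem A x
  rw [← hs]
  exact Finset.card_le_univ s

lemma le_chA_iff {A : Set (ℝ × ℝ)} {x : ι → ℝ × ℝ} {k : ℕ} :
    k ≤ chA A x ↔ ∃ s : Finset ι, k ≤ s.card ∧ (∀ i ∈ s, x i ∈ A) ∧
      ∀ i ∈ s, ∀ j ∈ s, i ≠ j → cmp (x i) (x j) := by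
  constructor
  · intro h
    obtain ⟨s, hs, h1, h2⟩ := chA_mem A x
    exact ⟨s, by rw [hs]; exact h, h1, h2⟩
  · rintro ⟨s, hs, h1, h2⟩
    exact hs.trans (le_chA ⟨s, rfl, h1, h2⟩)

/-- superadditivity -/
lemma chA_add {A B : Set (ℝ × ℝ)} (hAB : ∀ p ∈ A, ∀ q ∈ B, p.1 < q.1 ∧ p.2 < q.2) (x : ι → ℝ × ℝ) :
    chA A x + chA B x ≤ chA univ x := by
  classical
  obtain ⟨s, hs, hs1, hs2⟩ := chA_mem A x
  obtain ⟨t, ht, ht1, ht2⟩ := chA_mem B x
  have hdisj : Disjoint s t := by
    rw [Finset.disjoint_left]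
    intro i hi hi'
    exact lt_irrefl _ (hAB _ (hs1 i hi) _ (ht1 i hi')).1
  refine le_chA ⟨s ∪ t, ?_, by simp, ?_⟩
  · rw [Finset.card_union_of_disjoint hdisj, hs, ht]
  · intro i hi j hj hij
    rw [Finset.mem_union] at hi hj
    rcases hi with hi | hi <;> rcases hj with hj | hj
    · exact hs2 i hi j hj hij
    · exact Or.inl (hAB _ (hs1 i hi) _ (ht1 j hj))
    · exact Or.inr (hAB _ (hs1 j hj) _ (ht1 i hi))
    · exact ht2 i hi j hj hij

/-- reindexing by an injection whose range contains all points in `A` -/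
lemma chA_comp {A : Set (ℝ × ℝ)} (x : ι → ℝ × ℝ) (f : κ → ι) (hf : Function.Injective f)
    (hA : ∀ k, x (f k) ∈ A) (hr : ∀ i, x i ∈ A → i ∈ range f) :
    chA A x = chA univ (fun k => x (f k)) := by
  classical
  apply le_antisymm
  · obtain ⟨s, hs, hs1, hs2⟩ := chA_mem A x
    refine le_chA ⟨s.preimage f hf.injOn, ?_, by simp, ?_⟩
    · rw [← hs, ← Finset.card_image_of_injective _ hf, Finset.image_preimage]
      congr 1
      ext i
      simp only [Finset.mem_filter, and_iff_left_iff_imp]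
      exact fun hi => hr i (hs1 i hi)
    · intro i hi j hj hij
      rw [Finset.mem_preimage] at hi hj
      exact hs2 _ hi _ hj (fun h => hij (hf h))
  · obtain ⟨s, hs, -, hs2⟩ := chA_mem univ (fun k => x (f k))
    refine le_chA ⟨s.image f, ?_, ?_, ?_⟩
    · rw [Finset.card_image_of_injective _ hf, hs]
    · intro i hi
      obtain ⟨k, hk, rfl⟩ := Finset.mem_image.1 hi
      exact hA k
    · intro i hi j hj hij
      obtain ⟨k, hk, rfl⟩ := Finset.mem_image.1 hi
      obtain ⟨l, hl, rfl⟩ := Finset.mem_image.1 hj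
      exact hs2 k hk l hl (fun h => hij (by rw [h]))

omit [Fintype ι] in
lemma chA_shift (τ : ℝ × ℝ) (x : ι → ℝ × ℝ) :
    chA univ (fun i => x i + τ) = chA univ x := by
  unfold chA chSet cmp
  simp only [mem_univ, Prod.fst_add, Prod.snd_add, add_lt_add_iff_right]

lemma measurable_chA {A : Set (ℝ × ℝ)} (hA : MeasurableSet A) :
    Measurable (fun x : ι → ℝ × ℝ => (chA A x : ℝ)) := by
  have h1 : Measurable (fun x : ι → ℝ × ℝ => chA A x) := by
    apply measurable_of_Ici
    intro k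
    have : (fun x : ι → ℝ × ℝ => chA A x) ⁻¹' Ici k =
        ⋃ s : Finset ι, ({x : ι → ℝ × ℝ | k ≤ s.card} ∩ ((⋂ i ∈ s, (fun x : ι → ℝ × ℝ => x i) ⁻¹' A) ∩
          ⋂ i ∈ s, ⋂ j ∈ s, {x : ι → ℝ × ℝ | i ≠ j → cmp (x i) (x j)})) := by
      ext x
      simp only [mem_preimage, mem_Ici, mem_iUnion, mem_inter_iff, mem_iInter, mem_ofPred_eq]
      rw [le_chA_iff]
    rw [this]
    refine MeasurableSet.iUnion (fun s => ?_)
    refine MeasurableSet.inter (MeasurableSet.const _) (MeasurableSet.inter ?_ ?_)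
    · exact Finset.measurableSet_biInter s (fun i _ => (measurable_pi_apply i) hA)
    · refine Finset.measurableSet_biInter s (fun i _ => Finset.measurableSet_biInter s (fun j _ => ?_))
      by_cases hij : i = j
      · simp [hij]
      · have m1 : ∀ i : ι, Measurable (fun x : ι → ℝ × ℝ => (x i).1) :=
          fun i => measurable_fst.comp (measurable_pi_apply i)
        have m2 : ∀ i : ι, Measurable (fun x : ι → ℝ × ℝ => (x i).2) :=
          fun i => measurable_snd.comp (measurable_pi_apply i)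
        have h3 : {x : ι → ℝ × ℝ | i ≠ j → cmp (x i) (x j)} =
            ({x : ι → ℝ × ℝ | (x i).1 < (x j).1} ∩ {x : ι → ℝ × ℝ | (x i).2 < (x j).2}) ∪
            ({x : ι → ℝ × ℝ | (x j).1 < (x i).1} ∩ {x : ι → ℝ × ℝ | (x j).2 < (x i).2}) := by
          ext x
          simp only [mem_ofPred_eq, mem_union, mem_inter_iff, cmp]
          exact ⟨fun h => h hij, fun h _ => h⟩
        rw [h3]
        refine MeasurableSet.union (MeasurableSet.inter ?_ ?_) (MeasurableSet.inter ?_ ?_)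
        · exact measurableSet_lt (m1 i) (m1 j)
        · exact measurableSet_lt (m2 i) (m2 j)
        · exact measurableSet_lt (m1 j) (m1 i)
        · exact measurableSet_lt (m2 j) (m2 i)
  exact (measurable_from_top (f := fun n : ℕ => (n : ℝ))).comp h1

lemma integrableOn_chA {A : Set (ℝ × ℝ)} (hA : MeasurableSet A) {D : Set (ι → ℝ × ℝ)}
    (hD : volume D ≠ ⊤) : IntegrableOn (fun x : ι → ℝ × ℝ => (chA A x : ℝ)) D := by
  refine Measure.integrableOn_of_bounded (M := Fintype.card ι) hD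
    (measurable_chA hA).aestronglyMeasurable ?_
  filter_upwards with x
  rw [Real.norm_of_nonneg (Nat.cast_nonneg _)]
  exact_mod_cast chA_le A x

lemma volume_pi_ne_top {A : Set (ℝ × ℝ)} (hA : volume A ≠ ⊤) :
    volume (univ.pi (fun _ : ι => A)) ≠ ⊤ := by
  rw [volume_pi_pi]
  exact ENNReal.prod_ne_top (fun _ _ => hA)

lemma volume_pi_real {A : Set (ℝ × ℝ)} :
    volume.real (univ.pi (fun _ : ι => A)) = volume.real A ^ Fintype.card ι := by
  unfold Measure.real
  rw [volume_pi_pi]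
  simp

/-- `∫_{A^ι} chain` -/
noncomputable def J (A : Set (ℝ × ℝ)) (ι : Type) [Fintype ι] : ℝ :=
  ∫ x in univ.pi (fun _ : ι => A), (chA univ x : ℝ)

lemma J_congr (A : Set (ℝ × ℝ)) (e : κ ≃ ι) : J A ι = J A κ := by
  unfold J
  have mp := volume_measurePreserving_piCongrLeft (fun _ : ι => ℝ × ℝ) e
  have h := mp.setIntegral_preimage_emb (MeasurableEquiv.measurableEmbedding _)
    (fun x : ι → ℝ × ℝ => (chA univ x : ℝ)) (univ.pi (fun _ : ι => A))
  rw [← h]
  have hpre : (MeasurableEquiv.piCongrLeft (fun _ : ι => ℝ × ℝ) e) ⁻¹' (univ.pi (fun _ : ι => A)) =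
      univ.pi (fun _ : κ => A) := by
    ext x
    simp only [mem_preimage, mem_univ_pi]
    constructor
    · intro hx k
      have := hx (e k)
      rwa [MeasurableEquiv.piCongrLeft_apply_apply] at this
    · intro hx i
      obtain ⟨k, rfl⟩ := e.surjective i
      rw [MeasurableEquiv.piCongrLeft_apply_apply]
      exact hx k
  rw [hpre]
  congr 1
  funext x
  have := chA_comp (A := univ) ((MeasurableEquiv.piCongrLeft (fun _ : ι => ℝ × ℝ) e) x) e
    e.injective (by simp) (by simp)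
  rw [this]
  congr 2
  funext k
  rw [MeasurableEquiv.piCongrLeft_apply_apply]

lemma J_bound (A : Set (ℝ × ℝ)) (hA : volume A ≠ ⊤) :
    0 ≤ J A ι ∧ J A ι ≤ Fintype.card ι * volume.real A ^ Fintype.card ι := by
  unfold J
  constructor
  · exact integral_nonneg (fun x => Nat.cast_nonneg _)
  · calc ∫ x in univ.pi (fun _ : ι => A), (chA univ x : ℝ)
        ≤ ∫ x in univ.pi (fun _ : ι => A), (Fintype.card ι : ℝ) := by
          refine setIntegral_mono (integrableOn_chA MeasurableSet.univ (volume_pi_ne_top hA)) ?_ ?_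
          · exact integrableOn_const (volume_pi_ne_top hA)
          · intro x
            simp only [Nat.cast_le]
            exact chA_le univ x
      _ = Fintype.card ι * volume.real A ^ Fintype.card ι := by
          rw [setIntegral_const, volume_pi_real, smul_eq_mul, mul_comm]

lemma J_shift (A : Set (ℝ × ℝ)) (τ : ℝ × ℝ) (n : ℕ) :
    J ((fun p => p + τ) ⁻¹' A) (Fin n) = J A (Fin n) := by
  unfold J
  have mp := measurePreserving_add_right (volume : Measure (Fin n → ℝ × ℝ)) (fun _ => τ)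
  have h := mp.setIntegral_preimage_emb (measurableEmbedding_addRight _)
    (fun x : Fin n → ℝ × ℝ => (chA univ x : ℝ)) (univ.pi (fun _ : Fin n => A))
  rw [← h]
  congr 1
  funext x
  rw [← chA_shift τ x]
  rfl

end Pool.Agent.H308R3.C
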