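import Pool.Agent.H308R3.C1
set_option autoImplicit false
open MeasureTheory Set Filter Topology

namespace Pool.Agent.H308R3.C

/-- configurations with exactly the points of `S` in `A`, the others in `B` -/
def TS {n : ℕ} (A B : Set (ℝ × ℝ)) (S : Finset (Fin n)) : Set (Fin n → ℝ × ℝ) :=
  {x | (∀ i ∈ S, x i ∈ A) ∧ ∀ i, i ∉ S → x i ∈ B}

lemma TS_eq {n : ℕ} (A B : Set (ℝ × ℝ)) (S : Finset (Fin n)) :
    TS A B S = (MeasurableEquiv.piEquivPiSubtypeProd (fun _ : Fin n => ℝ × ℝ) (fun i => i ∈ S)) ⁻¹'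
      ((univ.pi (fun _ : {i // i ∈ S} => A)) ×ˢ (univ.pi (fun _ : {i // i ∉ S} => B))) := by
  ext x
  simp only [TS, mem_ofPred_eq, mem_preimage, mem_prod, mem_univ_pi]
  constructor
  · rintro ⟨h1, h2⟩
    exact ⟨fun i => h1 i.1 i.2, fun i => h2 i.1 i.2⟩
  · rintro ⟨h1, h2⟩
    exact ⟨fun i hi => h1 ⟨i, hi⟩, fun i hi => h2 ⟨i, hi⟩⟩

lemma measurableSet_TS {n : ℕ} {A B : Set (ℝ × ℝ)} (hA : MeasurableSet A) (hB : MeasurableSet B)
    (S : Finset (Fin n)) : MeasurableSet (TS A B S) := by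
  rw [TS_eq]
  apply MeasurableEquiv.measurable
  exact (MeasurableSet.univ_pi (fun _ => hA)).prod (MeasurableSet.univ_pi (fun _ => hB))

lemma pi_eq_biUnion {n : ℕ} (A B : Set (ℝ × ℝ)) :
    univ.pi (fun _ : Fin n => A ∪ B) = ⋃ S ∈ (Finset.univ : Finset (Finset (Fin n))), TS A B S := by
  classical
  ext x
  simp only [mem_univ_pi, Finset.mem_univ, iUnion_true, mem_iUnion, TS, mem_ofPred_eq]
  constructor
  · intro h
    refine ⟨Finset.univ.filter (fun i => x i ∈ A), ?_, ?_⟩
    · intro i hi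
      exact (Finset.mem_filter.1 hi).2
    · intro i hi
      rcases h i with h1 | h1
      · exact absurd (by simp [h1] : i ∈ Finset.univ.filter (fun i => x i ∈ A)) hi
      · exact h1
  · rintro ⟨S, h1, h2⟩ i
    by_cases hi : i ∈ S
    · exact Or.inl (h1 i hi)
    · exact Or.inr (h2 i hi)

lemma integral_TS {n : ℕ} {A B : Set (ℝ × ℝ)} (hA : MeasurableSet A) (hB : MeasurableSet B)
    (hAB : Disjoint A B) (S : Finset (Fin n)) :
    ∫ x in TS A B S, (chA A x : ℝ) = J A (Fin S.card) * volume.real B ^ (n - S.card) := by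
  have h1 : ∫ x in TS A B S, (chA A x : ℝ) =
      ∫ x in TS A B S, (fun z : ({i // i ∈ S} → ℝ × ℝ) × ({i // i ∉ S} → ℝ × ℝ) =>
        (chA univ z.1 : ℝ) * 1)
        ((MeasurableEquiv.piEquivPiSubtypeProd (fun _ : Fin n => ℝ × ℝ) (fun i => i ∈ S)) x) := by
    refine setIntegral_congr_fun (measurableSet_TS hA hB S) (fun x hx => ?_)
    simp only [mul_one, Nat.cast_inj]
    have hx' : (∀ i ∈ S, x i ∈ A) ∧ ∀ i, i ∉ S → x i ∈ B := hx
    refine chA_comp x (Subtype.val : {i // i ∈ S} → Fin n) Subtype.val_injective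
      (fun k => hx'.1 k.1 k.2) (fun i hi => ?_)
    by_cases hiS : i ∈ S
    · exact ⟨⟨i, hiS⟩, rfl⟩
    · exact absurd (hx'.2 i hiS) (Set.disjoint_left.1 hAB hi)
  rw [h1, TS_eq]
  have mp := volume_preserving_piEquivPiSubtypeProd (fun _ : Fin n => ℝ × ℝ) (fun i => i ∈ S)
  refine (mp.setIntegral_preimage_emb (MeasurableEquiv.measurableEmbedding _)
    (fun z : ({i // i ∈ S} → ℝ × ℝ) × ({i // i ∉ S} → ℝ × ℝ) =>
        (chA univ z.1 : ℝ) * 1) _).trans ?_
  rw [Measure.volume_eq_prod, setIntegral_prod_mul (fun z : {i // i ∈ S} → ℝ × ℝ => (chA univ z : ℝ))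
    (fun _ => (1 : ℝ))]
  congr 1
  · exact @J_congr {i // i ∈ S} (Fin S.card) (Subtype.fintype _) _ A (S.equivFin.symm)
  · rw [setIntegral_const, volume_pi_real]
    simp [Fintype.card_subtype_compl]

theorem split_integral {n : ℕ} {A B : Set (ℝ × ℝ)} (hA : MeasurableSet A) (hB : MeasurableSet B)
    (hAB : Disjoint A B) (hvA : volume A ≠ ⊤) (hvB : volume B ≠ ⊤) :
    ∫ x in univ.pi (fun _ : Fin n => A ∪ B), (chA A x : ℝ) =
      ∑ k ∈ Finset.range (n + 1), (n.choose k : ℝ) *
        (J A (Fin k) * volume.real B ^ (n - k)) := by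
  have hfin : volume (univ.pi (fun _ : Fin n => A ∪ B)) ≠ ⊤ :=
    volume_pi_ne_top (measure_union_ne_top hvA hvB)
  have hint : ∀ S : Finset (Fin n), IntegrableOn (fun x : Fin n → ℝ × ℝ => (chA A x : ℝ)) (TS A B S) := by
    intro S
    refine integrableOn_chA hA ?_
    refine ne_top_of_le_ne_top hfin (measure_mono ?_)
    rw [pi_eq_biUnion]
    exact subset_biUnion_of_mem (u := fun S => TS A B S) (Finset.mem_univ S)
  rw [pi_eq_biUnion, integral_biUnion_finset _ (fun S _ => measurableSet_TS hA hB S) ?_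
    (fun S _ => hint S)]
  · have h2 : ∀ S ∈ (Finset.univ : Finset (Finset (Fin n))), ∫ x in TS A B S, (chA A x : ℝ) =
        (fun k => J A (Fin k) * volume.real B ^ (n - k)) S.card := fun S _ => integral_TS hA hB hAB S
    rw [Finset.sum_congr rfl h2]
    have h3 := Finset.sum_powerset_apply_card (fun k => J A (Fin k) * volume.real B ^ (n - k))
      (x := (Finset.univ : Finset (Fin n)))
    rw [Finset.powerset_univ, Finset.card_univ, Fintype.card_fin] at h3
    rw [h3]
    refine Finset.sum_congr rfl (fun k _ => ?_)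
    rw [nsmul_eq_mul]
  · intro S _ S' _ hSS'
    rw [Function.onFun, Set.disjoint_left]
    intro x hx hx'
    apply hSS'
    have hx1 : (∀ i ∈ S, x i ∈ A) ∧ ∀ i, i ∉ S → x i ∈ B := hx
    have hx2 : (∀ i ∈ S', x i ∈ A) ∧ ∀ i, i ∉ S' → x i ∈ B := hx'
    ext i
    constructor
    · intro hi
      by_contra hi'
      exact Set.disjoint_left.1 hAB (hx1.1 i hi) (hx2.2 i hi')
    · intro hi
      by_contra hi'
      exact Set.disjoint_left.1 hAB (hx2.1 i hi) (hx1.2 i hi')

/-- mean longest chain for a Poisson process in `A` -/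
noncomputable def EE (A : Set (ℝ × ℝ)) : ℝ :=
  ∑' n : ℕ, Real.exp (-volume.real A) / (n.factorial : ℝ) * J A (Fin n)

/-- mean longest chain in `A` for a Poisson process in `D` -/
noncomputable def ER (A D : Set (ℝ × ℝ)) : ℝ :=
  ∑' n : ℕ, Real.exp (-volume.real D) / (n.factorial : ℝ) *
    ∫ x in univ.pi (fun _ : Fin n => D), (chA A x : ℝ)

lemma summable_J (A : Set (ℝ × ℝ)) (hA : volume A ≠ ⊤) (c : ℝ) (hc : 0 ≤ c) :
    Summable (fun n : ℕ => ‖c / (n.factorial : ℝ) * J A (Fin n)‖) := by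
  refine Summable.of_nonneg_of_le (fun n => norm_nonneg _) (fun n => ?_)
    ((Real.summable_pow_div_factorial (2 * volume.real A)).mul_left c)
  have hJ := J_bound (ι := Fin n) A hA
  rw [Fintype.card_fin] at hJ
  have hv : 0 ≤ volume.real A := measureReal_nonneg
  rw [Real.norm_of_nonneg (mul_nonneg (by positivity) hJ.1)]
  have h2 : (n : ℝ) ≤ 2 ^ n := by
    exact_mod_cast (Nat.lt_two_pow_self (n := n)).le
  calc c / (n.factorial : ℝ) * J A (Fin n) ≤ c / (n.factorial : ℝ) * (n * volume.real A ^ n) := by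
        gcongr
        exact hJ.2
    _ ≤ c / (n.factorial : ℝ) * (2 ^ n * volume.real A ^ n) := by gcongr
    _ = c * ((2 * volume.real A) ^ n / (n.factorial : ℝ)) := by
        rw [mul_pow]; ring

theorem ER_eq {A B : Set (ℝ × ℝ)} (hA : MeasurableSet A) (hB : MeasurableSet B)
    (hAB : Disjoint A B) (hvA : volume A ≠ ⊤) (hvB : volume B ≠ ⊤) :
    ER A (A ∪ B) = EE A := by
  have hb0 : 0 ≤ volume.real B := measureReal_nonneg
  have hsumB : HasSum (fun j : ℕ => Real.exp (-volume.real B) * (volume.real B ^ j / (j.factorial : ℝ))) 1 := by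
    have h := NormedSpace.expSeries_div_hasSum_exp (𝔸 := ℝ) (volume.real B)
    have h2 := h.mul_left (Real.exp (-volume.real B))
    rw [← Real.exp_eq_exp_ℝ, ← Real.exp_add, neg_add_cancel, Real.exp_zero] at h2
    exact h2
  have hnB : Summable (fun j : ℕ => ‖Real.exp (-volume.real B) * (volume.real B ^ j / (j.factorial : ℝ))‖) := by
    have : (fun j : ℕ => ‖Real.exp (-volume.real B) * (volume.real B ^ j / (j.factorial : ℝ))‖) =
        fun j : ℕ => Real.exp (-volume.real B) * (volume.real B ^ j / (j.factorial : ℝ)) := by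
      funext j
      exact Real.norm_of_nonneg (by positivity)
    rw [this]
    exact hsumB.summable
  have key := tsum_mul_tsum_eq_tsum_sum_antidiagonal_of_summable_norm
    (summable_J A hvA (Real.exp (-volume.real A)) (Real.exp_pos _).le) hnB
  rw [hsumB.tsum_eq, mul_one] at key
  unfold ER EE
  rw [key]
  congr 1
  funext n
  rw [split_integral hA hB hAB hvA hvB, Finset.Nat.sum_antidiagonal_eq_sum_range_succ_mk,
    Finset.mul_sum]
  refine Finset.sum_congr rfl (fun k hk => ?_)
  have hk' : k ≤ n := Nat.lt_succ_iff.1 (Finset.mem_range.1 hk)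
  have hvol : volume.real (A ∪ B) = volume.real A + volume.real B :=
    measureReal_union hAB hB hvA hvB
  rw [hvol, neg_add, Real.exp_add]
  have hch : (n.choose k : ℝ) * (k.factorial : ℝ) * ((n - k).factorial : ℝ) = (n.factorial : ℝ) := by
    exact_mod_cast Nat.choose_mul_factorial_mul_factorial hk'
  have h1 : (k.factorial : ℝ) ≠ 0 := by positivity
  have h2 : ((n - k).factorial : ℝ) ≠ 0 := by positivity
  have h3 : (n.factorial : ℝ) ≠ 0 := by positivity
  field_simp
  rw [← hch]
  ring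

theorem EE_superadd {D A A' : Set (ℝ × ℝ)} (hD : MeasurableSet D) (hA : MeasurableSet A)
    (hA' : MeasurableSet A') (hvD : volume D ≠ ⊤) (hAD : A ⊆ D) (hAD' : A' ⊆ D)
    (hlt : ∀ p ∈ A, ∀ q ∈ A', p.1 < q.1 ∧ p.2 < q.2) :
    EE A + EE A' ≤ EE D := by
  have e1 : ER A D = EE A := by
    have := ER_eq hA (hD.diff hA) disjoint_sdiff_right (ne_top_of_le_ne_top hvD (measure_mono hAD))
      (ne_top_of_le_ne_top hvD (measure_mono sdiff_subset))
    rwa [union_sdiff_cancel hAD] at this
  have e2 : ER A' D = EE A' := by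
    have := ER_eq hA' (hD.diff hA') disjoint_sdiff_right (ne_top_of_le_ne_top hvD (measure_mono hAD'))
      (ne_top_of_le_ne_top hvD (measure_mono sdiff_subset))
    rwa [union_sdiff_cancel hAD'] at this
  rw [← e1, ← e2]
  have hs : ∀ C : Set (ℝ × ℝ), MeasurableSet C → Summable (fun n : ℕ =>
      Real.exp (-volume.real D) / (n.factorial : ℝ) *
        ∫ x in univ.pi (fun _ : Fin n => D), (chA C x : ℝ)) := by
    intro C hC
    refine Summable.of_nonneg_of_le (fun n => ?_) (fun n => ?_)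
      ((summable_J D hvD (Real.exp (-volume.real D)) (Real.exp_pos _).le))
    · exact mul_nonneg (by positivity) (integral_nonneg (fun x => Nat.cast_nonneg _))
    · refine le_trans ?_ (le_abs_self _)
      gcongr
      unfold J
      refine setIntegral_mono (integrableOn_chA hC (volume_pi_ne_top hvD))
        (integrableOn_chA MeasurableSet.univ (volume_pi_ne_top hvD)) (fun x => ?_)
      simp only [Nat.cast_le]
      obtain ⟨s, hs, hs1, hs2⟩ := chA_mem C x
      exact le_chA ⟨s, hs, by simp, hs2⟩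
  unfold ER
  rw [← (hs A hA).tsum_add (hs A' hA')]
  refine Summable.tsum_le_tsum (fun n => ?_) ((hs A hA).add (hs A' hA')) ?_
  · rw [← mul_add]
    gcongr
    unfold J
    rw [← integral_add (integrableOn_chA hA (volume_pi_ne_top hvD))
      (integrableOn_chA hA' (volume_pi_ne_top hvD))]
    refine setIntegral_mono ((integrableOn_chA hA (volume_pi_ne_top hvD)).add
      (integrableOn_chA hA' (volume_pi_ne_top hvD)))
        (integrableOn_chA MeasurableSet.univ (volume_pi_ne_top hvD)) (fun x => ?_)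
    simp only
    exact_mod_cast chA_add hlt x
  · exact hs univ MeasurableSet.univ

theorem EE_shift (A : Set (ℝ × ℝ)) (τ : ℝ × ℝ) : EE ((fun p => p + τ) ⁻¹' A) = EE A := by
  unfold EE
  have hv : volume.real ((fun p => p + τ) ⁻¹' A) = volume.real A := by
    unfold Measure.real
    rw [measure_preimage_add_right]
  rw [hv]
  congr 1
  funext n
  rw [J_shift]

end Pool.Agent.H308R3.C
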