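import Mathlib
import Pool.Agent.Helper394.Wrap

set_option linter.unusedSectionVars false

open Finset Filter Topology

namespace Pool.Agent.H308R3.Nil

noncomputable section

open Helper394

/-! ### general facts on finite chains -/

section gen
variable {Ω : Type*} [Fintype Ω] [DecidableEq Ω] [Nonempty Ω]

theorem doeblin (W : Module.End ℝ (Ω → ℝ)) (c : ℝ)
    (hconst : ∀ a : ℝ, W (fun _ => a) = fun _ => a)
    (hsum : ∀ f : Ω → ℝ, ∑ x, W f x = ∑ x, f x)
    (hmin : ∀ f : Ω → ℝ, (∀ x, 0 ≤ f x) → ∀ x, c * ((∑ y, f y) / Fintype.card Ω) ≤ W f x)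
    (f : Ω → ℝ) (a b : ℝ) (ha : ∀ x, a ≤ f x) (hb : ∀ x, f x ≤ b) (k : ℕ) (x : Ω) :
    |(W ^ k) f x - (∑ y, f y) / Fintype.card Ω| ≤ (1 - c) ^ k * (b - a) := by
  set mn := (∑ y, f y) / Fintype.card Ω with hmn
  have hG : (0 : ℝ) < Fintype.card Ω := by exact_mod_cast Fintype.card_pos
  have hmean : ∀ k, (∑ y, (W ^ k) f y) / Fintype.card Ω = mn := by
    intro k
    induction k with
    | zero => simp [hmn]
    | succ k ih =>
      rw [pow_succ']
      rw [show (W * W ^ k) f = W ((W ^ k) f) from rfl, hsum, ih]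
  have key : ∀ k, ∃ u v : ℝ, (∀ x, u ≤ (W ^ k) f x) ∧ (∀ x, (W ^ k) f x ≤ v) ∧
      v - u = (1 - c) ^ k * (b - a) := by
    intro k
    induction k with
    | zero => exact ⟨a, b, by simpa using ha, by simpa using hb, by simp⟩
    | succ k ih =>
      obtain ⟨u, v, hu, hv, huv⟩ := ih
      refine ⟨u + c * (mn - u), v - c * (v - mn), ?_, ?_, ?_⟩
      · intro x
        have h1 := hmin ((W ^ k) f - fun _ => u) (fun x => by
          rw [Pi.sub_apply]; linarith [hu x]) x
        rw [map_sub, hconst] at h1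
        simp only [Pi.sub_apply, Finset.sum_sub_distrib, Finset.sum_const, Finset.card_univ,
          nsmul_eq_mul] at h1
        rw [sub_div, hmean, mul_div_assoc] at h1
        rw [pow_succ', show (W * W ^ k) f = W ((W ^ k) f) from rfl]
        have h2 : (Fintype.card Ω : ℝ) * (u / Fintype.card Ω) = u := by field_simp
        rw [h2] at h1
        linarith
      · intro x
        have h1 := hmin ((fun _ => v) - (W ^ k) f) (fun x => by
          rw [Pi.sub_apply]; linarith [hv x]) x
        rw [map_sub, hconst] at h1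
        simp only [Pi.sub_apply, Finset.sum_sub_distrib, Finset.sum_const, Finset.card_univ,
          nsmul_eq_mul] at h1
        rw [sub_div, hmean, mul_div_assoc] at h1
        rw [pow_succ', show (W * W ^ k) f = W ((W ^ k) f) from rfl]
        have h2 : (Fintype.card Ω : ℝ) * (v / Fintype.card Ω) = v := by field_simp
        rw [h2] at h1
        linarith
      · rw [pow_succ]
        linear_combination (1 - c) * huv
  obtain ⟨u, v, hu, hv, huv⟩ := key k
  have h1 : u ≤ mn := by
    rw [← hmean k, le_div_iff₀ hG]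
    calc u * Fintype.card Ω = ∑ _y : Ω, u := by simp [mul_comm]
      _ ≤ _ := Finset.sum_le_sum fun y _ => hu y
  have h2 : mn ≤ v := by
    rw [← hmean k, div_le_iff₀ hG]
    calc ∑ y, (W ^ k) f y ≤ ∑ _y : Ω, v := Finset.sum_le_sum fun y _ => hv y
      _ = v * Fintype.card Ω := by simp [mul_comm]
  rw [← huv, abs_le]
  have := hu x
  have := hv x
  constructor <;> linarith

/-- a lower bound for the total variation distance to uniform by a test function -/
theorem tv_ge (p : Ω → ℝ) (hp : ∑ y, p y = 1) (g : Ω → ℝ) (hg0 : ∀ y, 0 ≤ g y)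
    (hg1 : ∀ y, g y ≤ 1) :
    ∑ y, p y * g y - (∑ y, g y) / Fintype.card Ω ≤
      (1 / 2 : ℝ) * ∑ y, |p y - 1 / (Fintype.card Ω : ℝ)| := by
  have hG : (0 : ℝ) < Fintype.card Ω := by exact_mod_cast Fintype.card_pos
  have h1 : ∑ y, (p y - 1 / (Fintype.card Ω : ℝ)) = 0 := by
    rw [Finset.sum_sub_distrib, hp]
    simp only [Finset.sum_const, Finset.card_univ, nsmul_eq_mul]
    field_simp
    norm_num
  set q : Ω → ℝ := fun y => p y - 1 / (Fintype.card Ω : ℝ) with hq
  have h2 : ∑ y, q y * (2 * g y - 1) ≤ ∑ y, |q y| := by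
    apply Finset.sum_le_sum
    intro y _
    have h3 : |q y * (2 * g y - 1)| ≤ |q y| * 1 := by
      rw [abs_mul]
      apply mul_le_mul_of_nonneg_left _ (abs_nonneg _)
      rw [abs_le]
      constructor <;> linarith [hg0 y, hg1 y]
    rw [mul_one] at h3
    exact (le_abs_self _).trans h3
  have h3 : ∑ y, q y * (2 * g y - 1) =
      2 * (∑ y, p y * g y) - 2 * ((∑ y, g y) / Fintype.card Ω) := by
    have e1 : ∀ y, q y * (2 * g y - 1) =
        2 * (p y * g y) - (2 / (Fintype.card Ω : ℝ)) * g y - q y := by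
      intro y
      simp only [hq]
      ring
    simp only [e1]
    rw [Finset.sum_sub_distrib, Finset.sum_sub_distrib, h1, ← Finset.mul_sum, ← Finset.mul_sum]
    ring
  change _ ≤ (1 / 2 : ℝ) * ∑ y, |q y|
  linarith

/-- an upper bound for the total variation distance to uniform -/
theorem tv_le (p : Ω → ℝ) (hp : ∑ y, p y = 1) (c : ℝ)
    (hpc : ∀ y, c / (Fintype.card Ω : ℝ) ≤ p y) (hc1 : c ≤ 1) :
    (1 / 2 : ℝ) * ∑ y, |p y - 1 / (Fintype.card Ω : ℝ)| ≤ 1 - c := by
  have hG : (0 : ℝ) < Fintype.card Ω := by exact_mod_cast Fintype.card_pos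
  have h1 : ∀ y, |p y - 1 / (Fintype.card Ω : ℝ)| ≤
      (p y - c / (Fintype.card Ω : ℝ)) + (1 - c) / (Fintype.card Ω : ℝ) := by
    intro y
    have e1 : p y - 1 / (Fintype.card Ω : ℝ) =
      (p y - c / (Fintype.card Ω : ℝ)) - (1 - c) / (Fintype.card Ω : ℝ) := by ring
    rw [e1]
    refine (abs_sub _ _).trans ?_
    rw [abs_of_nonneg (by linarith [hpc y]),
      abs_of_nonneg (div_nonneg (by linarith) hG.le)]
  have h2 := Finset.sum_le_sum fun y (_ : y ∈ univ) => h1 y
  rw [Finset.sum_add_distrib, Finset.sum_sub_distrib, hp] at h2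
  simp only [Finset.sum_const, Finset.card_univ, nsmul_eq_mul] at h2
  have e2 : (Fintype.card Ω : ℝ) * (c / Fintype.card Ω) = c := by field_simp
  have e3 : (Fintype.card Ω : ℝ) * ((1 - c) / Fintype.card Ω) = 1 - c := by field_simp
  rw [e2, e3] at h2
  linarith

end gen

/-! ### the product of a cyclic group with a fixed finite group -/

section prod
variable {N : ℕ} [NeZero N] {Q : Type} [Group Q] [Fintype Q] [DecidableEq Q]

/-- the average over the `Q` coordinate -/
def bar (f : Multiplicative (ZMod N) × Q → ℝ) : ZMod N → ℝ :=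
  fun b => (∑ r, f (Multiplicative.ofAdd b, r)) / (Fintype.card Q : ℝ)

/-- the generating set -/
def gset (S : Finset (ZMod N)) (Q : Type) [Fintype Q] : Finset (Multiplicative (ZMod N) × Q) :=
  (S.map Multiplicative.ofAdd.toEmbedding) ×ˢ (univ : Finset Q)

theorem card_gset (S : Finset (ZMod N)) : (gset S Q).card = S.card * Fintype.card Q := by
  rw [gset, Finset.card_product, Finset.card_map, Finset.card_univ]

theorem sum_gset (S : Finset (ZMod N)) (f : Multiplicative (ZMod N) × Q → ℝ) :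
    ∑ z ∈ gset S Q, f z = ∑ s ∈ S, ∑ r, f (Multiplicative.ofAdd s, r) := by
  rw [gset, Finset.sum_product, Finset.sum_map]
  rfl

theorem sum_bar (f : Multiplicative (ZMod N) × Q → ℝ) :
    (∑ b, bar f b) / Fintype.card (ZMod N) =
      (∑ x, f x) / Fintype.card (Multiplicative (ZMod N) × Q) := by
  simp only [bar]
  rw [← Finset.sum_div, div_div, Fintype.card_prod, Fintype.sum_prod_type, Nat.cast_mul,
    mul_comm (Fintype.card Q : ℝ)]
  rw [Fintype.card_multiplicative]
  congr 1
  exact Equiv.sum_comp Multiplicative.ofAdd (fun a => ∑ r, f (a, r))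

/-- average over the generating set -/
theorem avg_gset (S : Finset (ZMod N)) (f : Multiplicative (ZMod N) × Q → ℝ)
    (x : Multiplicative (ZMod N) × Q) :
    (∑ z ∈ gset S Q, f (x * z)) / ((gset S Q).card : ℝ) =
      U S (bar f) (Multiplicative.toAdd x.1) := by
  rw [sum_gset (f := fun z => f (x * z)), U_apply, card_gset]
  simp only [bar]
  rw [← Finset.sum_div, div_div, Nat.cast_mul, mul_comm (S.card : ℝ)]
  congr 1
  refine Finset.sum_congr rfl fun s _ => ?_
  rw [← Equiv.sum_comp (Equiv.mulLeft x.2)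
    (fun r => f (Multiplicative.ofAdd (Multiplicative.toAdd x.1 + s), r))]
  refine Finset.sum_congr rfl fun r _ => ?_
  rfl

theorem bar_fst (g : ZMod N → ℝ) :
    bar (Q := Q) (fun x => g (Multiplicative.toAdd x.1)) = g := by
  ext b
  simp only [bar, toAdd_ofAdd, Finset.sum_const, Finset.card_univ, nsmul_eq_mul]
  have : (Fintype.card Q : ℝ) ≠ 0 := by exact_mod_cast Fintype.card_ne_zero
  field_simp

variable (P : Matrix (Multiplicative (ZMod N) × Q) (Multiplicative (ZMod N) × Q) ℝ)
  {S : Finset (ZMod N)} {T : ℕ}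

/-- `P` acts as the averaging operator -/
def Acts (S : Finset (ZMod N)) : Prop := ∀ f x, P.mulVec f x = U S (bar f) (Multiplicative.toAdd x.1)

variable {P}

theorem Acts.pow_fst (hP : Acts P S) (t : ℕ) (g : ZMod N → ℝ) :
    (P ^ t).mulVec (fun x => g (Multiplicative.toAdd x.1)) =
      fun x => (U S ^ t) g (Multiplicative.toAdd x.1) := by
  induction t with
  | zero => simp
  | succ t ih =>
    rw [pow_succ', ← Matrix.mulVec_mulVec, ih]
    ext x
    rw [hP, bar_fst, U_pow_succ_apply]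

theorem Acts.pow_succ (hP : Acts P S) (t : ℕ) (f : Multiplicative (ZMod N) × Q → ℝ)
    (x : Multiplicative (ZMod N) × Q) :
    (P ^ (t + 1)).mulVec f x = (U S ^ (t + 1)) (bar f) (Multiplicative.toAdd x.1) := by
  rw [_root_.pow_succ, ← Matrix.mulVec_mulVec]
  have h1 : P.mulVec f = fun x => (U S (bar f)) (Multiplicative.toAdd x.1) := by
    ext x; exact hP f x
  rw [h1, hP.pow_fst, U_pow_succ_apply']

theorem entry (t : ℕ) (x y : Multiplicative (ZMod N) × Q) :
    (P ^ t) x y = (P ^ t).mulVec (Pi.single y 1) x := by simp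

theorem msum (t : ℕ) (x : Multiplicative (ZMod N) × Q) (f : Multiplicative (ZMod N) × Q → ℝ) :
    ∑ y, (P ^ t) x y * f y = (P ^ t).mulVec f x := rfl

theorem Acts.row_sum (h : Bad S T) (hP : Acts P S) (t : ℕ) (x : Multiplicative (ZMod N) × Q) :
    ∑ y, (P ^ t) x y = 1 := by
  have h1 := msum (P := P) t x (fun _ => 1)
  have h2 := congrFun (hP.pow_fst t (fun _ => 1)) x
  rw [U_pow_const S h.nonempty] at h2
  rw [h2] at h1
  simpa using h1

theorem Acts.lower (h : Bad S T) (hP : Acts P S) (t : ℕ) (ht : t ≤ T) :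
    (17 / 32 : ℝ) ≤ (1 / 2 : ℝ) * ∑ y, |(P ^ t) 1 y -
      1 / (Fintype.card (Multiplicative (ZMod N) × Q) : ℝ)| := by
  obtain ⟨E, hE, hl⟩ := h.lower
  set g : ZMod N → ℝ := fun x => if x ∈ E then (1 : ℝ) else 0 with hg
  have hg0 : ∀ b, 0 ≤ g b := fun b => by simp only [hg]; split_ifs <;> norm_num
  have hg1 : ∀ b, g b ≤ 1 := fun b => by simp only [hg]; split_ifs <;> norm_num
  have h1 := tv_ge (fun y => (P ^ t) 1 y) (hP.row_sum h t 1)
    (fun x => g (Multiplicative.toAdd x.1)) (fun y => hg0 _) (fun y => hg1 _)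
  rw [msum, hP.pow_fst, ← sum_bar, bar_fst] at h1
  have h2 := hl t ht
  have h3 : (∑ b, g b) / (Fintype.card (ZMod N) : ℝ) ≤ 1 / 8 := by
    have h4 : ∑ b, g b = E.card := by simp [hg]
    have h5 : (0 : ℝ) < Fintype.card (ZMod N) := by exact_mod_cast Fintype.card_pos
    rw [h4, div_le_div_iff₀ h5 (by norm_num)]
    linarith
  have h4 : (U S ^ t) g (Multiplicative.toAdd (1 : Multiplicative (ZMod N) × Q).1) =
      (U S ^ t) g 0 := rfl
  simp only [h4] at h1
  linarith

theorem Acts.minor (h : Bad S T) (hP : Acts P S) (n : ℕ) (hn : T ≤ 8 * (n + 1))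
    (f : Multiplicative (ZMod N) × Q → ℝ) (hf : ∀ x, 0 ≤ f x) (x : Multiplicative (ZMod N) × Q) :
    (1 / 1000 : ℝ) * ((∑ y, f y) / Fintype.card (Multiplicative (ZMod N) × Q)) ≤
      (P ^ (n + 1)).mulVec f x := by
  rw [hP.pow_succ, ← sum_bar]
  exact h.upper (n + 1) hn (bar f) (fun b => div_nonneg (Finset.sum_nonneg fun _ _ => hf _)
    (by positivity)) _

theorem Acts.minor_entry (h : Bad S T) (hP : Acts P S) (n : ℕ) (hn : T ≤ 8 * (n + 1))
    (x y : Multiplicative (ZMod N) × Q) :
    (1 / 1000 : ℝ) / Fintype.card (Multiplicative (ZMod N) × Q) ≤ (P ^ (n + 1)) x y := by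
  rw [entry]
  have := hP.minor h n hn (Pi.single y 1) (fun z => by
    rw [Pi.single_apply]; split_ifs <;> norm_num) x
  rw [Finset.sum_pi_single' y (1 : ℝ) univ] at this
  simp only [Finset.mem_univ, if_true] at this
  calc (1 / 1000 : ℝ) / Fintype.card (Multiplicative (ZMod N) × Q)
      = (1 / 1000 : ℝ) * (1 / Fintype.card (Multiplicative (ZMod N) × Q)) := by ring
    _ ≤ _ := this

theorem Acts.upper (h : Bad S T) (hP : Acts P S) (n : ℕ) (hn : T ≤ 8 * (n + 1))
    (x : Multiplicative (ZMod N) × Q) :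
    (1 / 2 : ℝ) * ∑ y, |(P ^ (n + 1)) x y -
      1 / (Fintype.card (Multiplicative (ZMod N) × Q) : ℝ)| ≤ 1 - 1 / 1000 :=
  tv_le _ (hP.row_sum h _ x) _ (fun y => hP.minor_entry h n hn x y) (by norm_num)

theorem Acts.sum_eq (h : Bad S T) (hP : Acts P S) (f : Multiplicative (ZMod N) × Q → ℝ) :
    ∑ x, P.mulVec f x = ∑ x, f x := by
  have hQ : (Fintype.card Q : ℝ) ≠ 0 := by exact_mod_cast Fintype.card_ne_zero
  have h1 : ∀ x, P.mulVec f x = U S (bar f) (Multiplicative.toAdd x.1) := hP f
  simp only [h1]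
  rw [Fintype.sum_prod_type]
  simp only [Finset.sum_const, Finset.card_univ, nsmul_eq_mul]
  rw [← Finset.mul_sum]
  have h2 : ∑ a : Multiplicative (ZMod N), U S (bar f) (Multiplicative.toAdd a) =
      ∑ a : ZMod N, U S (bar f) a :=
    Equiv.sum_comp Multiplicative.toAdd (fun a => U S (bar f) a)
  rw [h2, sum_U S h.nonempty]
  simp only [bar]
  rw [← Finset.sum_div, mul_div_cancel₀ _ hQ, Fintype.sum_prod_type]
  exact Equiv.sum_comp Multiplicative.ofAdd (fun a => ∑ r, f (a, r))

theorem Acts.conv (h : Bad S T) (hP : Acts P S) (ε : ℝ) (hε : 0 < ε) :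
    ∃ t : ℕ, ∀ x y, |(P ^ t) x y - 1 / (Fintype.card (Multiplicative (ZMod N) × Q) : ℝ)| ≤ ε := by
  obtain ⟨k, hk⟩ := exists_pow_lt_of_lt_one hε (show (1 - 1 / 1000 : ℝ) < 1 by norm_num)
  refine ⟨(T + 1) * k, fun x y => ?_⟩
  rw [entry]
  have hpow : ∀ t f, (Matrix.toLin' (P ^ t)) f = (P ^ t).mulVec f := fun t f =>
    Matrix.toLin'_apply _ _
  have hs : ∀ t (f : Multiplicative (ZMod N) × Q → ℝ),
      ∑ x, (P ^ t).mulVec f x = ∑ x, f x := by
    intro t
    induction t with
    | zero => intro f; simp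
    | succ t ih => intro f; rw [_root_.pow_succ, ← Matrix.mulVec_mulVec, ih, hP.sum_eq h]
  have h1 := doeblin (Matrix.toLin' (P ^ (T + 1))) (1 / 1000)
    (fun a => by
      rw [hpow]
      have := hP.pow_fst (T + 1) (fun _ => a)
      rw [U_pow_const S h.nonempty] at this
      exact this)
    (fun f => by rw [hpow]; exact hs _ f)
    (fun f hf x => by rw [hpow]; exact hP.minor h T (by omega) f hf x) (Pi.single y 1) 0 1
    (fun z => by rw [Pi.single_apply]; split_ifs <;> norm_num)
    (fun z => by rw [Pi.single_apply]; split_ifs <;> norm_num) k x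
  rw [Finset.sum_pi_single' y (1 : ℝ) univ] at h1
  simp only [Finset.mem_univ, if_true, sub_zero, mul_one] at h1
  rw [pow_mul]
  rw [← Matrix.toLin'_pow, Matrix.toLin'_apply] at h1
  exact h1.trans hk.le

theorem Acts.spec (h : Bad S T) (hP : Acts P S) (lam : ℝ)
    (hlam : lam ∈ spectrum ℝ P) (h1 : lam ≠ 1) : |lam| ≤ 3 / 4 := by
  rw [← Matrix.spectrum_toLin', ← Module.End.hasEigenvalue_iff_mem_spectrum] at hlam
  obtain ⟨f, hf⟩ := hlam.exists_hasEigenvector
  have hf0 := hf.2
  have hf1 := hf.apply_eq_smul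
  rw [Matrix.toLin'_apply] at hf1
  have h2 : ∀ x, U S (bar f) (Multiplicative.toAdd x.1) = lam * f x := by
    intro x
    have := congrFun hf1 x
    rw [hP] at this
    simpa using this
  by_cases hz : lam = 0
  · rw [hz]; norm_num
  · have h3 : ∀ x, f x = (U S (bar f) (Multiplicative.toAdd x.1)) / lam := by
      intro x; rw [h2]; field_simp
    set g : ZMod N → ℝ := fun b => (U S (bar f) b) / lam with hg
    have h4 : f = fun x => g (Multiplicative.toAdd x.1) := by
      ext x; exact h3 x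
    have h5 : bar f = g := by rw [h4, bar_fst]
    have h6 : ∀ b, U S g b = lam * g b := by
      intro b
      rw [← h5]
      have := h2 (Multiplicative.ofAdd b, 1)
      rw [toAdd_ofAdd] at this
      rw [this, h4, bar_fst]
      rfl
    have h7 : g ≠ 0 := by
      intro h8
      apply hf0
      rw [h4, h8]
      rfl
    exact h.eigen g h7 lam h6 h1

end prod

end

end Pool.Agent.H308R3.Nil
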